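import Mathlib
import Pool.Agent.H478R3.Borsuk.Inter

set_option autoImplicit false

/-! Basic facts on rank functions of matroids on finite sets. -/

namespace Pool.Agent.Helper151_AB

open Finset
open Pool.Agent.H478R3.Borsuk (IsRF inter)

variable {α : Type} [DecidableEq α]

/-- Independence with respect to a rank function. -/
def Ind (r : Finset α → ℕ) (X : Finset α) : Prop := r X = X.card

theorem card_le {r : Finset α → ℕ} (h : IsRF r) (X : Finset α) : r X ≤ X.card := by
  induction X using Finset.induction_on with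
  | empty => rw [h.empty]; simp
  | insert e X he ih =>
    rw [card_insert_of_notMem he]
    have := h.ins e X
    omega

theorem ind_empty {r : Finset α → ℕ} (h : IsRF r) : Ind r ∅ := by
  unfold Ind
  rw [h.empty]; simp

theorem union_le {r : Finset α → ℕ} (h : IsRF r) (A B : Finset α) : r (A ∪ B) ≤ r A + B.card := by
  have h1 := h.sub A B
  have h2 := card_le h B
  omega

theorem ind_subset {r : Finset α → ℕ} (h : IsRF r) {X Y : Finset α} (hX : Ind r X) (hY : Y ⊆ X) :
    Ind r Y := by
  unfold Ind at *
  have h1 := card_le h Y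
  have h2 := union_le h Y (X \ Y)
  rw [union_sdiff_of_subset hY] at h2
  have h3 := card_sdiff_add_card_eq_card hY
  omega

theorem cl_mono {r : Finset α → ℕ} (h : IsRF r) {A B : Finset α} (hAB : A ⊆ B) {e : α}
    (he : r (insert e A) = r A) : r (insert e B) = r B := by
  have h1 := h.sub (insert e A) B
  have h2 : A ⊆ insert e A ∩ B := by
    intro x hx
    simp only [mem_inter, mem_insert]
    exact ⟨Or.inr hx, hAB hx⟩
  have h3 := h.mono _ _ h2
  have h4 : insert e A ∪ B = insert e B := by
    ext x
    simp only [mem_union, mem_insert]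
    constructor
    · rintro ((h | h) | h)
      · exact Or.inl h
      · exact Or.inr (hAB h)
      · exact Or.inr h
    · rintro (h | h)
      · exact Or.inl (Or.inl h)
      · exact Or.inr h
  rw [h4] at h1
  have h5 := h.mono _ _ (subset_insert e B)
  omega

theorem cl_union {r : Finset α → ℕ} (h : IsRF r) {A : Finset α} (C : Finset α)
    (hC : ∀ e ∈ C, r (insert e A) = r A) : r (A ∪ C) = r A := by
  induction C using Finset.induction_on with
  | empty => simp
  | insert e C he ih =>
    have h1 := ih (fun x hx => hC x (mem_insert_of_mem hx))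
    have h2 := cl_mono h (subset_union_left (s₁ := A) (s₂ := C)) (hC e (mem_insert_self e C))
    rw [union_insert, h2, h1]

/-- Either inserting keeps the rank, or raises it by one. -/
theorem ins_cases {r : Finset α → ℕ} (h : IsRF r) (e : α) (A : Finset α) :
    r (insert e A) = r A ∨ r (insert e A) = r A + 1 := by
  have h1 := h.ins e A
  have h2 := h.mono _ _ (subset_insert e A)
  omega

theorem exists_basis {r : Finset α → ℕ} (h : IsRF r) (X : Finset α) {I₀ : Finset α}
    (hI₀ : Ind r I₀) (hI₀X : I₀ ⊆ X) :
    ∃ I, I₀ ⊆ I ∧ I ⊆ X ∧ Ind r I ∧ r X = I.card ∧ ∀ e ∈ X, r (insert e I) = r I := by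
  classical
  obtain ⟨I, hI, hmax⟩ := Finset.exists_max_image
    (X.powerset.filter (fun I => I₀ ⊆ I ∧ Ind r I)) (fun I => I.card)
    ⟨I₀, by simp [hI₀, hI₀X]⟩
  simp only [mem_filter, mem_powerset] at hI hmax
  obtain ⟨hIX, hI0I, hIind⟩ := hI
  have key : ∀ e ∈ X, r (insert e I) = r I := by
    intro e he
    by_cases heI : e ∈ I
    · rw [insert_eq_of_mem heI]
    · rcases ins_cases h e I with h1 | h1
      · exact h1
      · exfalso
        have h2 := hmax (insert e I) ⟨insert_subset he hIX, hI0I.trans (subset_insert _ _), by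
          unfold Ind at *
          rw [h1, card_insert_of_notMem heI, hIind]⟩
        rw [card_insert_of_notMem heI] at h2
        omega
  refine ⟨I, hI0I, hIX, hIind, ?_, key⟩
  have h1 := cl_union h X key
  rw [union_eq_right.2 hIX] at h1
  rw [h1, hIind]

theorem exists_basis' {r : Finset α → ℕ} (h : IsRF r) (X : Finset α) :
    ∃ I, I ⊆ X ∧ Ind r I ∧ r X = I.card ∧ ∀ e ∈ X, r (insert e I) = r I := by
  obtain ⟨I, _, h2, h3, h4, h5⟩ := exists_basis h X (ind_empty h) (empty_subset X)
  exact ⟨I, h2, h3, h4, h5⟩

/-- Augmentation. -/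
theorem ind_aug {r : Finset α → ℕ} (h : IsRF r) {I J : Finset α} (hI : Ind r I) (hJ : Ind r J)
    (hlt : I.card < J.card) : ∃ e ∈ J, e ∉ I ∧ Ind r (insert e I) := by
  by_contra hcon
  push Not at hcon
  have key : ∀ e ∈ J, r (insert e I) = r I := by
    intro e he
    by_cases heI : e ∈ I
    · rw [insert_eq_of_mem heI]
    · rcases ins_cases h e I with h1 | h1
      · exact h1
      · exfalso
        apply hcon e he heI
        unfold Ind at *
        rw [h1, card_insert_of_notMem heI, hI]
  have h1 := cl_union h J key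
  have h2 := h.mono _ _ (subset_union_right (s₁ := I) (s₂ := J))
  unfold Ind at *
  omega

/-- The rank function of a matroid, on finite sets. -/
noncomputable def rf (M : Matroid α) (X : Finset α) : ℕ := (M.eRk (X : Set α)).toNat

theorem rf_cast (M : Matroid α) (X : Finset α) : ((rf M X : ℕ) : ℕ∞) = M.eRk (X : Set α) := by
  unfold rf
  apply ENat.coe_toNat
  intro htop
  have h1 := M.eRk_le_encard (X : Set α)
  rw [htop, Set.encard_coe_eq_coe_finsetCard] at h1
  simp at h1

theorem rf_isRF (M : Matroid α) : IsRF (rf M) where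
  empty := by
    have := rf_cast M ∅
    rw [coe_empty, M.eRk_empty] at this
    exact_mod_cast this
  mono := by
    intro A B hAB
    have h1 : M.eRk (A : Set α) ≤ M.eRk (B : Set α) := M.eRk_mono (by exact_mod_cast hAB)
    rw [← rf_cast, ← rf_cast] at h1
    exact_mod_cast h1
  ins := by
    intro e A
    have h1 := M.eRk_insert_le_add_one e (A : Set α)
    rw [← coe_insert, ← rf_cast, ← rf_cast] at h1
    exact_mod_cast h1
  sub := by
    intro A B
    have h1 := M.eRk_inter_add_eRk_union_le (A : Set α) (B : Set α)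
    rw [← coe_inter, ← coe_union, ← rf_cast, ← rf_cast, ← rf_cast, ← rf_cast] at h1
    have h2 : rf M (A ∩ B) + rf M (A ∪ B) ≤ rf M A + rf M B := by exact_mod_cast h1
    omega

theorem ind_iff (M : Matroid α) (X : Finset α) : Ind (rf M) X ↔ M.Indep (X : Set α) := by
  rw [M.indep_iff_eRk_eq_encard_of_finite (finite_toSet X), ← rf_cast,
    Set.encard_coe_eq_coe_finsetCard]
  unfold Ind
  exact_mod_cast Iff.rfl

theorem rf_bound (M : Matroid α) (k : ℕ) (X : Finset α)
    (h : ∃ I : Finset α, I ⊆ X ∧ M.Indep (↑I : Set α) ∧ X.card ≤ k * I.card) :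
    X.card ≤ k * rf M X := by
  obtain ⟨I, hIX, hI, hc⟩ := h
  have h1 : Ind (rf M) I := (ind_iff M I).2 hI
  have h2 := (rf_isRF M).mono _ _ hIX
  unfold Ind at h1
  rw [h1] at h2
  exact hc.trans (Nat.mul_le_mul_left k h2)

end Pool.Agent.Helper151_AB
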