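import Mathlib
import Pool.Agent.Helper151_AB.Rank

set_option autoImplicit false

/-! The matroid partition theorem, for rank functions on finite sets, and the extension of a rank
function by free elements followed by a truncation. -/

namespace Pool.Agent.Helper151_AB

open Finset
open Pool.Agent.H478R3.Borsuk (IsRF inter)

variable {α : Type} [DecidableEq α]

section Fib

variable {κ : Type} [DecidableEq κ]

/-- The first coordinates of the pairs with second coordinate `j`. -/
def fib (j : κ) (X : Finset (α × κ)) : Finset α := (X.filter (fun p => p.2 = j)).image Prod.fst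

theorem mem_fib {j : κ} {X : Finset (α × κ)} {a : α} : a ∈ fib j X ↔ (a, j) ∈ X := by
  unfold fib
  simp only [mem_image, mem_filter]
  constructor
  · rintro ⟨p, ⟨hp, rfl⟩, rfl⟩
    exact hp
  · intro h
    exact ⟨(a, j), ⟨h, rfl⟩, rfl⟩

theorem fib_union (j : κ) (X Y : Finset (α × κ)) : fib j (X ∪ Y) = fib j X ∪ fib j Y := by
  ext a
  simp [mem_fib]

theorem fib_inter (j : κ) (X Y : Finset (α × κ)) : fib j (X ∩ Y) = fib j X ∩ fib j Y := by
  ext a
  simp [mem_fib]

theorem fib_mono (j : κ) {X Y : Finset (α × κ)} (h : X ⊆ Y) : fib j X ⊆ fib j Y := by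
  intro a ha
  rw [mem_fib] at *
  exact h ha

theorem sum_card_fib [Fintype κ] (X : Finset (α × κ)) : ∑ j, (fib j X).card = X.card := by
  have h1 : ∀ j, (fib j X).card = (X.filter (fun p => p.2 = j)).card := by
    intro j
    unfold fib
    apply card_image_of_injOn
    intro p hp q hq hpq
    rw [mem_coe, mem_filter] at hp hq
    exact Prod.ext hpq (hp.2.trans hq.2.symm)
  simp only [h1]
  exact (card_eq_sum_card_fiberwise (f := Prod.snd) (t := univ) (fun _ _ => by simp)).symm

/-- The direct sum of copies of a rank function. -/
theorem isRF_fib [Fintype κ] {r : Finset α → ℕ} (h : IsRF r) :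
    IsRF (fun X : Finset (α × κ) => ∑ j, r (fib j X)) where
  empty := by
    apply Finset.sum_eq_zero
    intro j _
    have : fib j (∅ : Finset (α × κ)) = ∅ := by
      ext a; simp [mem_fib]
    rw [this, h.empty]
  mono := by
    intro A B hAB
    exact Finset.sum_le_sum (fun j _ => h.mono _ _ (fib_mono j hAB))
  ins := by
    intro e A
    show ∑ j, r (fib j (insert e A)) ≤ ∑ j, r (fib j A) + 1
    have h1 : ∀ j, r (fib j (insert e A)) ≤ r (fib j A) + (if j = e.2 then 1 else 0) := by
      intro j
      by_cases hj : j = e.2
      · rw [if_pos hj]
        have : fib j (insert e A) = insert e.1 (fib j A) := by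
          ext a
          simp only [mem_fib, mem_insert]
          constructor
          · rintro (h | h)
            · left; rw [← h]
            · exact Or.inr h
          · rintro (h | h)
            · left; rw [h, hj]
            · exact Or.inr h
        rw [this]
        exact h.ins _ _
      · rw [if_neg hj]
        have : fib j (insert e A) = fib j A := by
          ext a
          simp only [mem_fib, mem_insert]
          constructor
          · rintro (h | h)
            · exact absurd (by rw [← h]) hj
            · exact h
          · exact Or.inr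
        rw [this]; simp
    refine (Finset.sum_le_sum (fun j _ => h1 j)).trans ?_
    rw [Finset.sum_add_distrib]
    simp
  sub := by
    intro A B
    show ∑ j, r (fib j (A ∪ B)) + ∑ j, r (fib j (A ∩ B)) ≤ ∑ j, r (fib j A) + ∑ j, r (fib j B)
    rw [← Finset.sum_add_distrib, ← Finset.sum_add_distrib]
    apply Finset.sum_le_sum
    intro j _
    rw [fib_union, fib_inter]
    exact h.sub _ _

/-- The number of different first coordinates. -/
theorem isRF_fst : IsRF (fun X : Finset (α × κ) => (X.image Prod.fst).card) where
  empty := by simp
  mono := by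
    intro A B hAB
    exact card_le_card (image_subset_image hAB)
  ins := by
    intro e A
    show ((insert e A).image Prod.fst).card ≤ (A.image Prod.fst).card + 1
    rw [image_insert]
    exact card_insert_le _ _
  sub := by
    intro A B
    show ((A ∪ B).image Prod.fst).card + ((A ∩ B).image Prod.fst).card ≤
      (A.image Prod.fst).card + (B.image Prod.fst).card
    rw [image_union]
    have h1 := card_union_add_card_inter (A.image Prod.fst) (B.image Prod.fst)
    have : (A ∩ B).image Prod.fst ⊆ A.image Prod.fst ∩ B.image Prod.fst := image_inter_subset _ _ _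
    have := card_le_card this
    omega

end Fib

/-- The matroid partition theorem. -/
theorem partition_thm [Fintype α] {r : Finset α → ℕ} (h : IsRF r) (k : ℕ)
    (hk : ∀ X : Finset α, X.card ≤ k * r X) :
    ∃ f : α → Fin k, ∀ j, Ind r (univ.filter (fun a => f a = j)) := by
  classical
  have hmain := inter _ (univ : Finset (α × Fin k)) (fun X => ∑ j, r (fib j X))
    (fun X => (X.image Prod.fst).card) rfl (isRF_fib h) isRF_fst (Fintype.card α) (by
      intro A _
      show Fintype.card α ≤ ∑ j, r (fib j A) + ((univ \ A).image Prod.fst).card
      set T : Finset α := univ.filter (fun a => ∀ j, a ∈ fib j A) with hT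
      have h1 : (univ : Finset α) \ T ⊆ (univ \ A).image Prod.fst := by
        intro a ha
        simp only [hT, mem_sdiff, mem_univ, mem_filter, true_and, not_forall] at ha
        obtain ⟨j, hj⟩ := ha
        rw [mem_fib] at hj
        rw [mem_image]
        exact ⟨(a, j), by simp [hj], rfl⟩
      have h2 := card_le_card h1
      have h3 : T.card ≤ ∑ j, r (fib j A) := by
        calc T.card ≤ k * r T := hk T
          _ = ∑ _j : Fin k, r T := by simp
          _ ≤ ∑ j, r (fib j A) := by
            apply Finset.sum_le_sum
            intro j _
            apply h.mono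
            intro a ha
            simp only [hT, mem_filter, mem_univ, true_and] at ha
            exact ha j
      have h4 : T.card + ((univ : Finset α) \ T).card = Fintype.card α := by
        rw [add_comm]
        rw [card_sdiff_add_card_eq_card (subset_univ T)]
        rfl
      omega)
  obtain ⟨I, _, hI1, hI2, hI3⟩ := hmain
  have himg : I.image Prod.fst = univ := by
    rw [← card_eq_iff_eq_univ]
    apply le_antisymm (card_le_univ _)
    omega
  have hinj : Set.InjOn Prod.fst (I : Set (α × Fin k)) := card_image_iff.1 hI2
  have hex : ∀ a : α, ∃ j, (a, j) ∈ I := by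
    intro a
    have : a ∈ I.image Prod.fst := by rw [himg]; simp
    rw [mem_image] at this
    obtain ⟨p, hp, rfl⟩ := this
    exact ⟨p.2, hp⟩
  choose f hf using hex
  refine ⟨f, ?_⟩
  have hfib : ∀ j, univ.filter (fun a => f a = j) = fib j I := by
    intro j
    ext a
    simp only [mem_filter, mem_univ, true_and, mem_fib]
    constructor
    · rintro rfl
      exact hf a
    · intro haj
      have := hinj (hf a) haj rfl
      exact (Prod.ext_iff.1 this).2
  intro j
  rw [hfib]
  have hsum : ∑ j, r (fib j I) = ∑ j, (fib j I).card := by
    rw [hI1, sum_card_fib]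
  have hle : ∀ j ∈ (univ : Finset (Fin k)), r (fib j I) ≤ (fib j I).card := fun j _ => card_le h _
  exact (Finset.sum_eq_sum_iff_of_le hle).1 hsum j (mem_univ j)

/-- Extension by free elements, followed by truncation. -/
def ext {β : Type} (R : ℕ) (r : Finset α → ℕ) (X : Finset (α ⊕ β)) : ℕ :=
  min R (r X.toLeft + X.toRight.card)

theorem ext_isRF {β : Type} [DecidableEq β] (R : ℕ) {r : Finset α → ℕ} (h : IsRF r) :
    IsRF (ext (β := β) R r) where
  empty := by
    unfold ext
    have h1 : (∅ : Finset (α ⊕ β)).toLeft = ∅ := by ext x; simp
    have h2 : (∅ : Finset (α ⊕ β)).toRight = ∅ := by ext x; simp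
    rw [h1, h2, h.empty]
    simp
  mono := by
    intro A B hAB
    unfold ext
    have h1 := h.mono _ _ (toLeft_subset_toLeft hAB)
    have h2 := card_le_card (toRight_subset_toRight hAB)
    omega
  ins := by
    intro e A
    unfold ext
    cases e with
    | inl a =>
      have h1 : (insert (Sum.inl a) A).toLeft = insert a A.toLeft := by
        ext x; simp
      have h2 : (insert (Sum.inl a : α ⊕ β) A).toRight = A.toRight := by
        ext x; simp
      rw [h1, h2]
      have := h.ins a A.toLeft
      omega
    | inr b =>
      have h1 : (insert (Sum.inr b) A).toLeft = A.toLeft := by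
        ext x; simp
      have h2 : (insert (Sum.inr b : α ⊕ β) A).toRight = insert b A.toRight := by
        ext x; simp
      rw [h1, h2]
      have := card_insert_le b A.toRight
      omega
  sub := by
    intro A B
    unfold ext
    have h1 := h.sub A.toLeft B.toLeft
    have e1 : (A ∪ B).toLeft = A.toLeft ∪ B.toLeft := by ext x; simp
    have e2 : (A ∩ B).toLeft = A.toLeft ∩ B.toLeft := by ext x; simp
    have e3 : (A ∪ B).toRight = A.toRight ∪ B.toRight := by ext x; simp
    have e4 : (A ∩ B).toRight = A.toRight ∩ B.toRight := by ext x; simp
    have h2 := card_union_add_card_inter A.toRight B.toRight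
    rw [e1, e2, e3, e4]
    have m1 := h.mono _ _ (inter_subset_left (s₁ := A.toLeft) (s₂ := B.toLeft))
    have m2 := h.mono _ _ (inter_subset_right (s₁ := A.toLeft) (s₂ := B.toLeft))
    have m3 := h.mono _ _ (subset_union_left (s₁ := A.toLeft) (s₂ := B.toLeft))
    have m4 := h.mono _ _ (subset_union_right (s₁ := A.toLeft) (s₂ := B.toLeft))
    have c1 := card_le_card (inter_subset_left (s₁ := A.toRight) (s₂ := B.toRight))
    have c2 := card_le_card (inter_subset_right (s₁ := A.toRight) (s₂ := B.toRight))
    have c3 := card_le_card (subset_union_left (s₁ := A.toRight) (s₂ := B.toRight))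
    have c4 := card_le_card (subset_union_right (s₁ := A.toRight) (s₂ := B.toRight))
    omega

/-- The closure lemma for an independent set. -/
theorem cl_of_subset_ind {r : Finset α → ℕ} (h : IsRF r) {I : Finset α} (hI : Ind r I) {z : α}
    (hz : r (insert z I) = r I) (V : Finset α) (hV : V ⊆ I)
    (hw : ∀ w ∈ V, r (insert z (I.erase w)) = r (I.erase w)) :
    r (insert z (I \ V)) = r (I \ V) := by
  induction V using Finset.induction_on with
  | empty => simpa using hz
  | insert w V hwV ih =>
    have hwI : w ∈ I := hV (mem_insert_self w V)
    have h1 := ih ((subset_insert w V).trans hV) (fun x hx => hw x (mem_insert_of_mem hx))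
    have h2 := hw w (mem_insert_self w V)
    have h3 := h.sub (insert z (I \ V)) (insert z (I.erase w))
    have e1 : insert z (I \ V) ∪ insert z (I.erase w) = insert z I := by
      ext x
      simp only [mem_union, mem_insert, mem_sdiff, mem_erase]
      constructor
      · rintro ((h | h) | (h | h))
        · exact Or.inl h
        · exact Or.inr h.1
        · exact Or.inl h
        · exact Or.inr h.2
      · rintro (h | h)
        · exact Or.inl (Or.inl h)
        · by_cases hxw : x = w
          · subst hxw
            exact Or.inl (Or.inr ⟨h, hwV⟩)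
          · exact Or.inr (Or.inr ⟨hxw, h⟩)
    have e2 : insert z (I \ V) ∩ insert z (I.erase w) = insert z (I \ insert w V) := by
      ext x
      simp only [mem_inter, mem_insert, mem_sdiff, mem_erase, not_or]
      constructor
      · rintro ⟨h1 | h1, h2 | h2⟩
        · exact Or.inl h1
        · exact Or.inl h1
        · exact Or.inl h2
        · exact Or.inr ⟨h1.1, h2.1, h1.2⟩
      · rintro (h | h)
        · exact ⟨Or.inl h, Or.inl h⟩
        · exact ⟨Or.inr ⟨h.1, h.2.2⟩, Or.inr ⟨h.2.1, h.1⟩⟩
    rw [e1, e2, h1, h2, hz] at h3
    have i1 : r (I \ V) = (I \ V).card := ind_subset h hI sdiff_subset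
    have i2 : r (I.erase w) = (I.erase w).card := ind_subset h hI (erase_subset _ _)
    have i3 : r (I \ insert w V) = (I \ insert w V).card := ind_subset h hI sdiff_subset
    have i4 : r I = I.card := hI
    have c1 : (I.erase w).card + 1 = I.card := card_erase_add_one hwI
    have c2 : (I \ insert w V).card + 1 = (I \ V).card := by
      have : I \ insert w V = (I \ V).erase w := by
        ext x
        simp only [mem_sdiff, mem_insert, mem_erase, not_or]
        tauto
      rw [this]
      exact card_erase_add_one (by simp [hwI, hwV])
    have m1 := h.mono _ _ (subset_insert z (I \ insert w V))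
    omega

/-- Symmetric exchange. -/
theorem sym_exchange {r : Finset α → ℕ} (h : IsRF r) {B B' : Finset α} (hB : Ind r B)
    (hB' : Ind r B') {x : α} (hx : x ∈ B) (hx' : x ∉ B') (hsp : r (insert x B') = r B') :
    ∃ y ∈ B', Ind r (insert y (B.erase x)) ∧ Ind r (insert x (B'.erase y)) := by
  classical
  by_contra hcon
  push Not at hcon
  -- elements `y` with `B' - y + x` independent
  set V := B'.filter (fun y => ¬ Ind r (insert x (B'.erase y))) with hV
  have hdep : ∀ w ∈ V, r (insert x (B'.erase w)) = r (B'.erase w) := by
    intro w hw
    rw [hV, mem_filter] at hw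
    rcases ins_cases h x (B'.erase w) with h1 | h1
    · exact h1
    · exfalso
      apply hw.2
      unfold Ind
      rw [h1, card_insert_of_notMem (fun hh => hx' (mem_of_mem_erase hh))]
      have : r (B'.erase w) = (B'.erase w).card := ind_subset h hB' (erase_subset _ _)
      omega
  have h1 := cl_of_subset_ind h hB' hsp V (filter_subset _ _) hdep
  have h2 : ∀ y ∈ B' \ V, r (insert y (B.erase x)) = r (B.erase x) := by
    intro y hy
    rw [mem_sdiff, hV, mem_filter] at hy
    push Not at hy
    have hyind := hy.2 hy.1
    rcases ins_cases h y (B.erase x) with h3 | h3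
    · exact h3
    · exfalso
      refine hcon y hy.1 ?_ hyind
      have hyB : y ∉ B.erase x := by
        intro hmem
        rw [insert_eq_of_mem hmem] at h3
        omega
      unfold Ind
      rw [h3, card_insert_of_notMem hyB]
      have : r (B.erase x) = (B.erase x).card := ind_subset h hB (erase_subset _ _)
      omega
  have h3 := cl_union h (B' \ V) h2
  have h4 := cl_mono h (subset_union_right (s₁ := B.erase x) (s₂ := B' \ V)) h1
  have h5 : B ⊆ insert x (B.erase x ∪ (B' \ V)) := by
    intro b hb
    by_cases hbx : b = x
    · subst hbx; simp
    · simp [hb, hbx]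
  have h6 := h.mono _ _ h5
  have h7 : r (B.erase x) = (B.erase x).card := ind_subset h hB (erase_subset _ _)
  have h8 := card_erase_add_one hx
  unfold Ind at hB
  omega

end Pool.Agent.Helper151_AB
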