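import Mathlib
import Pool.Agent.Helper151_AB.Part

set_option autoImplicit false

/-! A paving matroid and an arbitrary matroid: all but one class of a suitable partition into
common bases. -/

namespace Pool.Agent.Helper151_AB

open Finset
open Pool.Agent.H478R3.Borsuk (IsRF inter)

variable {α : Type} [DecidableEq α] [Fintype α] {k : ℕ}

/-- The class with number `j`. -/
def cls (f : α → Fin k) (j : Fin k) : Finset α := univ.filter (fun a => f a = j)

theorem mem_cls {f : α → Fin k} {j : Fin k} {a : α} : a ∈ cls f j ↔ f a = j := by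
  simp [cls]

theorem cls_swap_left {f : α → Fin k} {i j : Fin k} (hij : i ≠ j) {x y : α} (hx : f x = i)
    (hy : f y = j) : cls (f ∘ Equiv.swap x y) i = insert y ((cls f i).erase x) := by
  ext a
  simp only [mem_cls, mem_insert, mem_erase, Function.comp_apply]
  by_cases hax : a = x
  · subst hax
    rw [Equiv.swap_apply_left, hy]
    have : a ≠ y := by
      rintro rfl
      exact hij (hx.symm.trans hy)
    simp [this, hij.symm]
  · by_cases hay : a = y
    · subst hay
      rw [Equiv.swap_apply_right, hx]
      simp
    · rw [Equiv.swap_apply_of_ne_of_ne hax hay]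
      simp [hax, hay]

theorem cls_swap_right {f : α → Fin k} {i j : Fin k} (hij : i ≠ j) {x y : α} (hx : f x = i)
    (hy : f y = j) : cls (f ∘ Equiv.swap x y) j = insert x ((cls f j).erase y) := by
  rw [Equiv.swap_comm]
  exact cls_swap_left hij.symm hy hx

theorem cls_swap_other {f : α → Fin k} {i j l : Fin k} (hli : l ≠ i) (hlj : l ≠ j) {x y : α}
    (hx : f x = i) (hy : f y = j) : cls (f ∘ Equiv.swap x y) l = cls f l := by
  ext a
  simp only [mem_cls, Function.comp_apply]
  by_cases hax : a = x
  · subst hax
    rw [Equiv.swap_apply_left, hy, hx]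
    constructor
    · intro h; exact absurd h.symm hlj
    · intro h; exact absurd h.symm hli
  · by_cases hay : a = y
    · subst hay
      rw [Equiv.swap_apply_right, hy, hx]
      constructor
      · intro h; exact absurd h.symm hli
      · intro h; exact absurd h.symm hlj
    · rw [Equiv.swap_apply_of_ne_of_ne hax hay]

/-- A partition into bases of the second matroid. -/
def Valid (r2 : Finset α → ℕ) (R : ℕ) (f : α → Fin k) : Prop :=
  ∀ j, Ind r2 (cls f j) ∧ (cls f j).card = R

theorem step1 {r1 r2 : Finset α → ℕ} (h1 : IsRF r1) (h2 : IsRF r2) {R : ℕ}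
    (hR2 : r2 univ = R) (hpav : ∀ X : Finset α, X.card < R → Ind r1 X)
    {f : α → Fin k} (hf : Valid r2 R f) {i j : Fin k} (hij : i ≠ j)
    (hj : ¬ Ind r1 (cls f j)) {x : α} (hx : x ∈ cls f i)
    (hxj : r1 (insert x (cls f j)) ≠ r1 (cls f j)) :
    ∃ f' : α → Fin k, Valid r2 R f' ∧ (∃ y ∈ cls f j, cls f' i = insert y ((cls f i).erase x)) ∧
      Ind r1 (cls f' j) ∧ ∀ l, l ≠ i → l ≠ j → cls f' l = cls f l := by
  have hfx : f x = i := mem_cls.1 hx
  have hxnj : x ∉ cls f j := by
    intro h
    exact hij (hfx.symm.trans (mem_cls.1 h))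
  have hsp : r2 (insert x (cls f j)) = r2 (cls f j) := by
    have e1 := h2.mono _ _ (subset_univ (insert x (cls f j)))
    have e2 := h2.mono _ _ (subset_insert x (cls f j))
    have e3 : r2 (cls f j) = (cls f j).card := (hf j).1
    have e4 := (hf j).2
    omega
  obtain ⟨y, hy, hy1, hy2⟩ := sym_exchange h2 (hf i).1 (hf j).1 hx hxnj hsp
  have hfy : f y = j := mem_cls.1 hy
  have hyni : y ∉ cls f i := by
    intro h
    exact hij ((mem_cls.1 h).symm.trans hfy)
  have c1 := card_erase_add_one hx
  have c2 := card_erase_add_one hy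
  refine ⟨f ∘ Equiv.swap x y, ?_, ⟨y, hy, cls_swap_left hij hfx hfy⟩, ?_, ?_⟩
  · intro l
    by_cases hli : l = i
    · subst hli
      rw [cls_swap_left hij hfx hfy]
      refine ⟨hy1, ?_⟩
      rw [card_insert_of_notMem (fun h => hyni (mem_of_mem_erase h)), c1]
      exact (hf l).2
    · by_cases hlj : l = j
      · subst hlj
        rw [cls_swap_right hij hfx hfy]
        refine ⟨hy2, ?_⟩
        rw [card_insert_of_notMem (fun h => hxnj (mem_of_mem_erase h)), c2]
        exact (hf l).2
      · rw [cls_swap_other hli hlj hfx hfy]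
        exact hf l
  · rw [cls_swap_right hij hfx hfy]
    have e0 : ((cls f j).erase y).card < R := by
      have := (hf j).2
      omega
    have e1 : r1 ((cls f j).erase y) = ((cls f j).erase y).card := hpav _ e0
    rcases ins_cases h1 x ((cls f j).erase y) with h3 | h3
    · exfalso
      exact hxj (cl_mono h1 (erase_subset y (cls f j)) h3)
    · unfold Ind
      rw [h3, e1, card_insert_of_notMem (fun h => hxnj (mem_of_mem_erase h))]
  · intro l hli hlj
    exact cls_swap_other hli hlj hfx hfy

/-- The classes which are dependent in the first matroid. -/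
noncomputable def bad (r1 : Finset α → ℕ) (f : α → Fin k) : Finset (Fin k) :=
  haveI := Classical.decPred (fun l => ¬ Ind r1 (cls f l))
  univ.filter (fun l => ¬ Ind r1 (cls f l))

theorem mem_bad {r1 : Finset α → ℕ} {f : α → Fin k} {l : Fin k} :
    l ∈ bad r1 f ↔ ¬ Ind r1 (cls f l) := by
  classical
  simp [bad]

theorem sum_cls (f : α → Fin k) (H : Finset α) : ∑ l, (cls f l \ H).card = (univ \ H).card := by
  rw [card_eq_sum_card_fiberwise (f := f) (t := univ) (fun _ _ => by simp)]
  apply Finset.sum_congr rfl
  intro l _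
  congr 1
  ext a
  simp only [mem_sdiff, mem_cls, mem_filter, mem_univ, true_and]
  tauto

theorem improve {r1 r2 : Finset α → ℕ} (h1 : IsRF r1) (h2 : IsRF r2) {R : ℕ}
    (hcard : Fintype.card α = k * R)
    (hR2 : r2 univ = R) (hk1 : ∀ X : Finset α, X.card ≤ k * r1 X)
    (hpav : ∀ X : Finset α, X.card < R → Ind r1 X)
    (f : α → Fin k) (hf : Valid r2 R f) (hbad : 2 ≤ (bad r1 f).card) :
    ∃ f' : α → Fin k, Valid r2 R f' ∧ (bad r1 f').card < (bad r1 f).card := by
  classical
  by_cases hA : ∃ i ∈ bad r1 f, ∃ j ∈ bad r1 f, i ≠ j ∧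
      ∃ x ∈ cls f i, r1 (insert x (cls f j)) ≠ r1 (cls f j)
  · obtain ⟨i, hi, j, hj, hij, x, hx, hxj⟩ := hA
    obtain ⟨f', hf', -, hj', hoth⟩ := step1 h1 h2 hR2 hpav hf hij (mem_bad.1 hj) hx hxj
    refine ⟨f', hf', ?_⟩
    have hsub : bad r1 f' ⊆ (bad r1 f).erase j := by
      intro l hl
      rw [mem_bad] at hl
      by_cases hlj : l = j
      · subst hlj
        exact absurd hj' hl
      · by_cases hli : l = i
        · subst hli
          exact mem_erase.2 ⟨hlj, hi⟩
        · rw [hoth l hli hlj] at hl
          exact mem_erase.2 ⟨hlj, mem_bad.2 hl⟩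
    have c1 := card_le_card hsub
    have c2 := card_erase_add_one hj
    omega
  · push Not at hA
    obtain ⟨i, hi, j, hj, hij⟩ := one_lt_card.1 (show 1 < (bad r1 f).card by omega)
    -- the common hyperplane
    set H : Finset α := univ.filter (fun a => r1 (insert a (cls f j)) = r1 (cls f j)) with hH
    have hjH : cls f j ⊆ H := by
      intro a ha
      rw [hH, mem_filter]
      exact ⟨mem_univ a, by rw [insert_eq_of_mem ha]⟩
    have hiH : cls f i ⊆ H := by
      intro a ha
      rw [hH, mem_filter]
      exact ⟨mem_univ a, hA i hi j hj hij a ha⟩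
    have hrH : r1 H = r1 (cls f j) := by
      have := cl_union h1 (A := cls f j) H (fun e he => (mem_filter.1 he).2)
      rwa [union_eq_right.2 hjH] at this
    have hjbad := mem_bad.1 hj
    have hcj := (hf j).2
    have hrj : r1 (cls f j) < R := by
      have e1 := card_le h1 (cls f j)
      have e2 : r1 (cls f j) ≠ (cls f j).card := hjbad
      omega
    have hHc : H.card ≤ k * (R - 1) := by
      refine (hk1 H).trans (Nat.mul_le_mul_left k ?_)
      omega
    have hout : k ≤ (univ \ H).card := by
      have e1 := card_sdiff_add_card_eq_card (subset_univ H)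
      have e2 : (univ : Finset α).card = k * R := hcard
      have e3 : k * R = k * (R - 1) + k := by
        obtain ⟨R', rfl⟩ : ∃ R', R = R' + 1 := ⟨R - 1, by omega⟩
        simp [Nat.mul_succ]
      omega
    have hg : ∃ g, 2 ≤ (cls f g \ H).card := by
      by_contra hcon
      push Not at hcon
      have e1 := sum_cls f H
      have e2 : ∑ l, (cls f l \ H).card ≤ ∑ l : Fin k, (if l = j then 0 else 1) := by
        apply Finset.sum_le_sum
        intro l _
        split_ifs with hlj
        · subst hlj
          rw [sdiff_eq_empty_iff_subset.2 hjH]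
          simp
        · have := hcon l
          omega
      have e3 : ∑ l : Fin k, (if l = j then 0 else 1) + 1 = k := by
        rw [← Finset.add_sum_erase univ _ (mem_univ j)]
        rw [if_pos rfl, zero_add]
        rw [Finset.sum_congr rfl (g := fun _ => 1)]
        · rw [Finset.sum_const, smul_eq_mul, mul_one]
          rw [card_erase_add_one (mem_univ j)]
          simp
        · intro l hl
          rw [if_neg (ne_of_mem_erase hl)]
      omega
    obtain ⟨g, hg⟩ := hg
    obtain ⟨x, hx, x', hx', hxx'⟩ := one_lt_card.1 (show 1 < (cls f g \ H).card by omega)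
    rw [mem_sdiff] at hx hx'
    have hgj : g ≠ j := by
      rintro rfl
      exact hx.2 (hjH hx.1)
    have hgi : g ≠ i := by
      rintro rfl
      exact hx.2 (hiH hx.1)
    have hxH : r1 (insert x (cls f j)) ≠ r1 (cls f j) := by
      intro h
      exact hx.2 (by rw [hH, mem_filter]; exact ⟨mem_univ x, h⟩)
    have hx'H : r1 (insert x' (cls f j)) ≠ r1 (cls f j) := by
      intro h
      exact hx'.2 (by rw [hH, mem_filter]; exact ⟨mem_univ x', h⟩)
    obtain ⟨f', hf', ⟨y, hy, hcg⟩, hj', hoth⟩ := step1 h1 h2 hR2 hpav hf hgj hjbad hx.1 hxH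
    have hsub : bad r1 f' ⊆ insert g ((bad r1 f).erase j) := by
      intro l hl
      rw [mem_bad] at hl
      by_cases hlj : l = j
      · subst hlj
        exact absurd hj' hl
      · by_cases hlg : l = g
        · subst hlg
          exact mem_insert_self _ _
        · rw [hoth l hlg hlj] at hl
          exact mem_insert_of_mem (mem_erase.2 ⟨hlj, mem_bad.2 hl⟩)
    have c2 := card_erase_add_one hj
    by_cases hgbad : g ∈ bad r1 f'
    · -- exchange once more
      have hci : cls f' i = cls f i := hoth i hgi.symm hij
      have hx'g : x' ∈ cls f' g := by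
        rw [hcg]
        exact mem_insert_of_mem (mem_erase.2 ⟨hxx'.symm, hx'.1⟩)
      have hx'i : r1 (insert x' (cls f' i)) ≠ r1 (cls f' i) := by
        rw [hci]
        intro h
        have e1 := cl_mono h1 (subset_union_right (s₁ := cls f j) (s₂ := cls f i)) h
        have e2 : r1 (cls f j ∪ cls f i) = r1 (cls f j) :=
          cl_union h1 _ (fun e he => hA i hi j hj hij e he)
        have e3 := h1.mono _ _ (insert_subset_insert x' (subset_union_left (s₁ := cls f j) (s₂ := cls f i)))
        have e4 := h1.mono _ _ (subset_insert x' (cls f j))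
        omega
      have hibad' : ¬ Ind r1 (cls f' i) := by
        rw [hci]
        exact mem_bad.1 hi
      obtain ⟨f'', hf'', -, hi'', hoth'⟩ := step1 h1 h2 hR2 hpav hf' hgi hibad' hx'g hx'i
      refine ⟨f'', hf'', ?_⟩
      have hsub' : bad r1 f'' ⊆ (bad r1 f').erase i := by
        intro l hl
        rw [mem_bad] at hl
        by_cases hli : l = i
        · subst hli
          exact absurd hi'' hl
        · by_cases hlg : l = g
          · subst hlg
            exact mem_erase.2 ⟨hli, hgbad⟩
          · rw [hoth' l hlg hli] at hl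
            exact mem_erase.2 ⟨hli, mem_bad.2 hl⟩
      have c3 := card_le_card hsub'
      have c4 := card_erase_add_one (mem_bad.2 hibad')
      have c5 := card_le_card hsub
      have c6 := card_insert_le g ((bad r1 f).erase j)
      omega
    · refine ⟨f', hf', ?_⟩
      have hsub' : bad r1 f' ⊆ (bad r1 f).erase j := by
        intro l hl
        rcases mem_insert.1 (hsub hl) with rfl | h
        · exact absurd hl hgbad
        · exact h
      have c3 := card_le_card hsub'
      omega

theorem pav_core {r1 r2 : Finset α → ℕ} (h1 : IsRF r1) (h2 : IsRF r2) {R : ℕ}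
    (hcard : Fintype.card α = k * R)
    (hR2 : r2 univ = R) (hk1 : ∀ X : Finset α, X.card ≤ k * r1 X)
    (hk2 : ∀ X : Finset α, X.card ≤ k * r2 X)
    (hpav : ∀ X : Finset α, X.card < R → Ind r1 X) :
    ∃ f : α → Fin k, Valid r2 R f ∧ (bad r1 f).card ≤ 1 := by
  classical
  obtain ⟨f0, hf0⟩ := partition_thm h2 k hk2
  have hv0 : Valid r2 R f0 := by
    have e1 : ∀ j ∈ (univ : Finset (Fin k)), (cls f0 j).card ≤ R := by
      intro j _
      have := hf0 j
      have h3 := h2.mono _ _ (subset_univ (cls f0 j))
      unfold Ind at this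
      unfold cls at *
      omega
    have e2 : ∑ j, (cls f0 j).card = ∑ _j : Fin k, R := by
      have := sum_cls f0 ∅
      simp only [sdiff_empty] at this
      rw [this, card_univ, hcard]
      simp
    have e3 := (Finset.sum_eq_sum_iff_of_le e1).1 e2
    exact fun j => ⟨hf0 j, e3 j (mem_univ j)⟩
  obtain ⟨f, hf, hmin⟩ := Finset.exists_min_image
    (univ.filter (fun f : α → Fin k => Valid r2 R f)) (fun f => (bad r1 f).card)
    ⟨f0, by simp [hv0]⟩
  simp only [mem_filter, mem_univ, true_and] at hf hmin
  refine ⟨f, hf, ?_⟩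
  by_contra hcon
  obtain ⟨f', hf', hlt⟩ := improve h1 h2 hcard hR2 hk1 hpav f hf (by omega)
  have := hmin f' hf'
  omega

end Pool.Agent.Helper151_AB
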