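import Mathlib
import Pool.Agent.Helper151_AB.Pav

set_option autoImplicit false

/-! From the balanced case to the general case, by free elements. -/

namespace Pool.Agent.Helper151_AB

open Finset
open Pool.Agent.H478R3.Borsuk (IsRF inter)

variable {α : Type} [DecidableEq α]

theorem ind_of_ext {β : Type} {R : ℕ} {r : Finset α → ℕ} (h : IsRF r) {X : Finset (α ⊕ β)}
    (hX : Ind (ext R r) X) : Ind r X.toLeft := by
  unfold Ind ext at *
  have h1 := card_le h X.toLeft
  have h2 := card_toLeft_add_card_toRight (u := X)
  omega

theorem ext_cover {β : Type} {k R : ℕ} {r : Finset α → ℕ}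
    (hc : ∀ X : Finset α, X.card ≤ k * r X) (X : Finset (α ⊕ β)) (hX : X.card ≤ k * R) :
    X.card ≤ k * ext R r X := by
  unfold ext
  rcases Nat.eq_zero_or_pos k with rfl | hk
  · simpa using hX
  rcases le_total R (r X.toLeft + X.toRight.card) with h | h
  · rw [min_eq_left h]
    exact hX
  · rw [min_eq_right h, Nat.mul_add]
    have h1 := hc X.toLeft
    have h2 := card_toLeft_add_card_toRight (u := X)
    have h3 : X.toRight.card ≤ k * X.toRight.card := Nat.le_mul_of_pos_left _ hk
    omega

theorem indep_cls {k : ℕ} [Fintype α] (M : Matroid α) {f : α → Fin k} {j : Fin k}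
    (h : Ind (rf M) (univ.filter (fun a => f a = j))) : M.Indep {x : α | f x = j} := by
  have h1 := (ind_iff M _).1 h
  convert h1 using 1
  ext x
  simp

theorem pav_ext [Fintype α] {k R : ℕ} {r1 r2 : Finset α → ℕ} (h1 : IsRF r1) (h2 : IsRF r2)
    (hk1 : ∀ X : Finset α, X.card ≤ k * r1 X)
    (hk2 : ∀ X : Finset α, X.card ≤ k * r2 X)
    (hn : Fintype.card α ≤ k * R)
    (hpav : ∀ X : Finset α, X.card < R → Ind r1 X) :
    ∃ g : α → Fin (k + 1), (∀ j, Ind r1 (univ.filter (fun a => g a = j)) ∧
      Ind r2 (univ.filter (fun a => g a = j))) ∧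
      (univ.filter (fun a => g a = Fin.last k)).card ≤ 1 := by
  classical
  obtain ⟨d, hd⟩ : ∃ d, Fintype.card α + d = k * R := ⟨k * R - Fintype.card α, by omega⟩
  have hcardE : Fintype.card (α ⊕ Fin d) = k * R := by
    rw [Fintype.card_sum, Fintype.card_fin, hd]
  have hle : ∀ X : Finset (α ⊕ Fin d), X.card ≤ k * R := by
    intro X
    rw [← hcardE]
    exact card_le_univ X
  have g1 := ext_isRF (β := Fin d) R h1
  have g2 := ext_isRF (β := Fin d) R h2
  have c1 : ∀ X : Finset (α ⊕ Fin d), X.card ≤ k * ext R r1 X := fun X => ext_cover hk1 X (hle X)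
  have c2 : ∀ X : Finset (α ⊕ Fin d), X.card ≤ k * ext R r2 X := fun X => ext_cover hk2 X (hle X)
  rcases Nat.eq_zero_or_pos k with hk0 | hkpos
  · -- the ground set is empty
    have hα : ∀ a : α, False := by
      intro a
      have : Fintype.card α = 0 := by
        rw [hk0] at hn
        omega
      rw [Fintype.card_eq_zero_iff] at this
      exact this.elim a
    have hemp : ∀ (p : α → Prop) [DecidablePred p], univ.filter p = ∅ := by
      intro p _
      ext a
      exact (hα a).elim
    refine ⟨fun a => (hα a).elim, fun j => ?_, ?_⟩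
    · rw [hemp]
      exact ⟨ind_empty h1, ind_empty h2⟩
    · rw [hemp]
      simp
  have hR2 : ext R r2 (univ : Finset (α ⊕ Fin d)) = R := by
    have e1 := c2 univ
    rw [card_univ, hcardE] at e1
    have e2 : ext R r2 (univ : Finset (α ⊕ Fin d)) ≤ R := by
      unfold ext
      exact min_le_left _ _
    have e3 : R ≤ ext R r2 (univ : Finset (α ⊕ Fin d)) := Nat.le_of_mul_le_mul_left e1 hkpos
    omega
  have hpavE : ∀ X : Finset (α ⊕ Fin d), X.card < R → Ind (ext R r1) X := by
    intro X hX
    have e1 := card_toLeft_add_card_toRight (u := X)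
    have e2 : r1 X.toLeft = X.toLeft.card := hpav _ (by omega)
    unfold Ind ext
    omega
  obtain ⟨f, hf, hbad⟩ := pav_core g1 g2 hcardE hR2 c1 c2 hpavE
  have hleft : ∀ j, univ.filter (fun a => f (Sum.inl a) = j) = (cls f j).toLeft := by
    intro j
    ext a
    simp [mem_cls]
  rcases Nat.eq_zero_or_pos (bad (ext R r1) f).card with hb | hb
  · rw [card_eq_zero] at hb
    have elast : univ.filter (fun a => (f (Sum.inl a)).castSucc = Fin.last k) = ∅ := by
      ext a
      simp only [mem_filter, mem_univ, true_and, notMem_empty, iff_false]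
      exact Fin.castSucc_ne_last _
    refine ⟨fun a => (f (Sum.inl a)).castSucc, fun j => ?_, by rw [elast]; simp⟩
    rcases Fin.eq_castSucc_or_eq_last j with ⟨i, rfl⟩ | rfl
    · have e1 : univ.filter (fun a => (f (Sum.inl a)).castSucc = i.castSucc) =
          (cls f i).toLeft := by
        rw [← hleft]
        ext a
        simp
      rw [e1]
      refine ⟨ind_of_ext (R := R) h1 ?_, ind_of_ext h2 (hf i).1⟩
      by_contra hcon
      have := mem_bad.2 hcon
      rw [hb] at this
      simp at this
    · rw [elast]
      exact ⟨ind_empty h1, ind_empty h2⟩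
  · obtain ⟨i, hi⟩ := card_pos.1 hb
    have huniq : ∀ l ∈ bad (ext R r1) f, l = i := fun l hl =>
      card_le_one.1 hbad l hl i hi
    -- an element of the class which is not a new one
    have hne : (cls f i).toLeft.Nonempty := by
      rw [nonempty_iff_ne_empty]
      intro hemp
      apply mem_bad.1 hi
      have e1 := card_toLeft_add_card_toRight (u := cls f i)
      have e2 := (hf i).2
      unfold Ind ext
      rw [hemp, h1.empty] at *
      simp only [card_empty] at e1
      omega
    obtain ⟨a0, ha0⟩ := hne
    rw [mem_toLeft] at ha0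
    have hfa0 : f (Sum.inl a0) = i := mem_cls.1 ha0
    have elast : univ.filter (fun a => (if a = a0 then Fin.last k else
        (f (Sum.inl a)).castSucc) = Fin.last k) = {a0} := by
      ext a
      simp only [mem_filter, mem_univ, true_and, mem_singleton]
      by_cases h : a = a0
      · simp [h]
      · rw [if_neg h]
        constructor
        · intro h'
          exact absurd h' (Fin.castSucc_ne_last _)
        · intro h'
          exact absurd h' h
    refine ⟨fun a => if a = a0 then Fin.last k else (f (Sum.inl a)).castSucc, fun j => ?_, by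
      rw [elast]; simp⟩
    rcases Fin.eq_castSucc_or_eq_last j with ⟨l, rfl⟩ | rfl
    · have e1 : univ.filter (fun a => (if a = a0 then Fin.last k else (f (Sum.inl a)).castSucc) =
          l.castSucc) = ((cls f l).erase (Sum.inl a0)).toLeft := by
        ext a
        simp only [mem_filter, mem_univ, true_and, mem_toLeft, mem_erase, mem_cls, ne_eq,
          Sum.inl.injEq]
        by_cases h : a = a0
        · rw [if_pos h]
          constructor
          · intro h'
            exact absurd h'.symm (Fin.castSucc_ne_last _)
          · intro h'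
            exact absurd h h'.1
        · rw [if_neg h]
          simp [h]
      rw [e1]
      refine ⟨ind_of_ext (R := R) h1 ?_, ind_of_ext h2 (ind_subset g2 (hf l).1 (erase_subset _ _))⟩
      by_cases hl : l ∈ bad (ext R r1) f
      · have := huniq l hl
        subst this
        apply hpavE
        have e2 := card_erase_add_one ha0
        have e3 := (hf l).2
        omega
      · have : Ind (ext R r1) (cls f l) := by
          by_contra hcon
          exact hl (mem_bad.2 hcon)
        exact ind_subset g1 this (erase_subset _ _)
    · rw [elast]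
      have hsing : ∀ r : Finset α → ℕ, IsRF r → (∀ X : Finset α, X.card ≤ k * r X) →
          Ind r {a0} := by
        intro r hr hc
        have e2 := hc {a0}
        have e3 := card_le hr {a0}
        unfold Ind
        rw [card_singleton] at *
        have e4 : r {a0} ≠ 0 := by
          intro h0
          rw [h0] at e2
          omega
        omega
      exact ⟨hsing r1 h1 hk1, hsing r2 h2 hk2⟩

end Pool.Agent.Helper151_AB
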