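import Mathlib
import Pool.Agent.Helper151_AB.PavExt

set_option autoImplicit false

/-! A point of the common independence polytope is a convex combination of common independent
sets. -/

namespace Pool.Agent.Helper151_AB

open Finset
open Pool.Agent.H478R3.Borsuk (IsRF inter)

variable {α : Type} [DecidableEq α]

/-- The direct sum of the restriction to `X` and the contraction by `X`. -/
def split (r : Finset α → ℕ) (X Y : Finset α) : ℕ := r (Y ∩ X) + r (Y ∪ X) - r X

theorem split_isRF {r : Finset α → ℕ} (h : IsRF r) (X : Finset α) : IsRF (split r X) where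
  empty := by
    unfold split
    rw [empty_inter, empty_union, h.empty]
    omega
  mono := by
    intro A B hAB
    unfold split
    have h1 := h.mono _ _ (inter_subset_inter_right (u := X) hAB)
    have h2 := h.mono _ _ (union_subset_union_left (t := X) hAB)
    omega
  ins := by
    intro e A
    unfold split
    have h3 := h.mono _ _ (subset_union_right (s₁ := A) (s₂ := X))
    by_cases he : e ∈ X
    · have e1 : insert e A ∩ X = insert e (A ∩ X) := by
        rw [insert_inter_of_mem he]
      have e2 : insert e A ∪ X = A ∪ X := by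
        ext a
        simp only [mem_union, mem_insert]
        constructor
        · rintro ((rfl | h) | h)
          · exact Or.inr he
          · exact Or.inl h
          · exact Or.inr h
        · rintro (h | h)
          · exact Or.inl (Or.inr h)
          · exact Or.inr h
      rw [e1, e2]
      have := h.ins e (A ∩ X)
      omega
    · have e1 : insert e A ∩ X = A ∩ X := by
        rw [insert_inter_of_notMem he]
      have e2 : insert e A ∪ X = insert e (A ∪ X) := by
        rw [insert_union]
      rw [e1, e2]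
      have := h.ins e (A ∪ X)
      omega
  sub := by
    intro A B
    unfold split
    have h1 := h.sub (A ∩ X) (B ∩ X)
    have h2 := h.sub (A ∪ X) (B ∪ X)
    have e1 : A ∩ X ∪ B ∩ X = (A ∪ B) ∩ X := by rw [union_inter_distrib_right]
    have e2 : A ∩ X ∩ (B ∩ X) = (A ∩ B) ∩ X := by
      ext a; simp only [mem_inter]; tauto
    have e3 : A ∪ X ∪ (B ∪ X) = (A ∪ B) ∪ X := by
      ext a; simp only [mem_union]; tauto
    have e4 : (A ∪ X) ∩ (B ∪ X) = (A ∩ B) ∪ X := by
      ext a; simp only [mem_union, mem_inter]; tauto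
    rw [e1, e2] at h1
    rw [e3, e4] at h2
    have m1 := h.mono _ _ (subset_union_right (s₁ := A) (s₂ := X))
    have m2 := h.mono _ _ (subset_union_right (s₁ := B) (s₂ := X))
    have m3 := h.mono _ _ (subset_union_right (s₁ := A ∪ B) (s₂ := X))
    have m4 := h.mono _ _ (subset_union_right (s₁ := A ∩ B) (s₂ := X))
    omega

theorem split_le {r : Finset α → ℕ} (h : IsRF r) (X Y : Finset α) : split r X Y ≤ r Y := by
  unfold split
  have := h.sub Y X
  omega

theorem exists_min_rf [Fintype α] (x : α → ℝ) (t : ℝ) : ∀ (m : ℕ) (r : Finset α → ℕ), IsRF r →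
    (∑ X : Finset α, r X) ≤ m → (∀ Y : Finset α, ∑ a ∈ Y, x a ≤ t * r Y) →
    ∃ r' : Finset α → ℕ, IsRF r' ∧ (∀ Y, r' Y ≤ r Y) ∧
      (∀ Y : Finset α, ∑ a ∈ Y, x a ≤ t * r' Y) ∧
      ∀ X : Finset α, ∑ a ∈ X, x a = t * r' X → ∀ Y, r' (Y ∩ X) + r' (Y ∪ X) = r' Y + r' X := by
  intro m
  induction m with
  | zero =>
    intro r h hm hc
    refine ⟨r, h, fun Y => le_refl _, hc, fun X _ Y => ?_⟩
    have h0 : ∀ X : Finset α, r X = 0 := by
      intro X
      have h1 : r X ≤ ∑ X : Finset α, r X := Finset.single_le_sum (f := r) (fun _ _ => Nat.zero_le _)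
        (mem_univ X)
      omega
    simp [h0]
  | succ m ih =>
    intro r h hm hc
    by_cases hsep : ∀ X : Finset α, ∑ a ∈ X, x a = t * r X → ∀ Y, r (Y ∩ X) + r (Y ∪ X) = r Y + r X
    · exact ⟨r, h, fun Y => le_refl _, hc, hsep⟩
    · push Not at hsep
      obtain ⟨X, hX, Y, hY⟩ := hsep
      have hsub := h.sub Y X
      have hlt : split r X Y < r Y := by
        unfold split
        have := h.mono _ _ (subset_union_right (s₁ := Y) (s₂ := X))
        omega
      have hsum : ∑ Z : Finset α, split r X Z < ∑ Z : Finset α, r Z :=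
        Finset.sum_lt_sum (fun Z _ => split_le h X Z) ⟨Y, mem_univ _, hlt⟩
      obtain ⟨r', h1, h2, h3, h4⟩ := ih (split r X) (split_isRF h X) (by omega) (by
        intro Z
        have c1 := hc (Z ∩ X)
        have c2 := hc (Z ∪ X)
        have e1 : ∑ a ∈ Z ∪ X, x a + ∑ a ∈ Z ∩ X, x a = ∑ a ∈ Z, x a + ∑ a ∈ X, x a :=
          Finset.sum_union_inter
        have e2 : ((split r X Z : ℕ) : ℝ) = r (Z ∩ X) + r (Z ∪ X) - r X := by
          unfold split
          rw [Nat.cast_sub (by
            have := h.mono _ _ (subset_union_right (s₁ := Z) (s₂ := X))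
            omega)]
          push_cast
          ring
        rw [e2, mul_sub, mul_add]
        linarith)
      exact ⟨r', h1, fun Z => (h2 Z).trans (split_le h X Z), h3, h4⟩

/-- A step length. -/
theorem exists_step {ι : Type} [Fintype ι] (s ρ : ι → ℝ) (hs : ∀ c, 0 ≤ s c) (hρ : ∀ c, 0 ≤ ρ c)
    (hz : ∀ c, s c = 0 → ρ c = 0) (t : ℝ) (ht : 0 < t) :
    ∃ ε, 0 < ε ∧ ε ≤ t ∧ (∀ c, 0 ≤ s c - ε * ρ c) ∧
      (ε = t ∨ ∃ c, s c ≠ 0 ∧ s c - ε * ρ c = 0) := by
  classical
  by_cases hall : ∀ c, 0 ≤ s c - t * ρ c
  · exact ⟨t, ht, le_refl t, hall, Or.inl rfl⟩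
  · push Not at hall
    obtain ⟨c0, hc0⟩ := hall
    have hρ0 : 0 < ρ c0 := by
      rcases (hρ c0).lt_or_eq with h | h
      · exact h
      · rw [← h] at hc0
        have := hs c0
        linarith
    obtain ⟨c, hc, hmin⟩ := Finset.exists_min_image (univ.filter (fun c => 0 < ρ c))
      (fun c => s c / ρ c) ⟨c0, by simp [hρ0]⟩
    simp only [mem_filter, mem_univ, true_and] at hc hmin
    have hsc : 0 < s c := by
      rcases (hs c).lt_or_eq with h | h
      · exact h
      · have := hz c h.symm
        linarith
    refine ⟨s c / ρ c, div_pos hsc hc, ?_, ?_, Or.inr ⟨c, hsc.ne', ?_⟩⟩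
    · have h1 := hmin c0 hρ0
      have h2 : s c0 / ρ c0 ≤ t := by
        rw [div_le_iff₀ hρ0]
        linarith
      linarith
    · intro d
      rcases (hρ d).lt_or_eq with h | h
      · have h1 := hmin d h
        rw [le_div_iff₀ h] at h1
        linarith
      · rw [← h, mul_zero, sub_zero]
        exact hs d
    · rw [div_mul_cancel₀ _ hc.ne']
      ring

/-- The number of nonzero slacks. -/
noncomputable def meas [Fintype α] (x : α → ℝ) (t : ℝ) (r1 r2 : Finset α → ℕ) : ℕ :=
  haveI := Classical.decPred (fun a : α => x a ≠ 0)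
  haveI := Classical.decPred (fun X : Finset α => ∑ a ∈ X, x a ≠ t * r1 X)
  haveI := Classical.decPred (fun X : Finset α => ∑ a ∈ X, x a ≠ t * r2 X)
  (univ.filter (fun a : α => x a ≠ 0)).card +
    (univ.filter (fun X : Finset α => ∑ a ∈ X, x a ≠ t * r1 X)).card +
    (univ.filter (fun X : Finset α => ∑ a ∈ X, x a ≠ t * r2 X)).card

/-- A fractional decomposition into common independent sets. -/
def Decomp [Fintype α] (x : α → ℝ) (t : ℝ) (r1 r2 : Finset α → ℕ) : Prop :=
  ∃ w : Finset α → ℝ, (∀ I, 0 ≤ w I) ∧ (∀ I, w I ≠ 0 → Ind r1 I ∧ Ind r2 I) ∧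
    (∑ I, w I = t) ∧ ∀ a, ∑ I, (if a ∈ I then w I else 0) = x a

theorem decomp_zero [Fintype α] {x : α → ℝ} (r1 r2 : Finset α → ℕ)
    (hx : ∀ a, x a = 0) : Decomp x 0 r1 r2 :=
  ⟨fun _ => 0, fun _ => le_refl _, fun _ h => absurd rfl h, by simp, by simp [hx]⟩

theorem decomp_step [Fintype α] {r1 r2 r1' r2' : Finset α → ℕ} (h1 : IsRF r1) (h2 : IsRF r2)
    (hle1 : ∀ Y, r1' Y ≤ r1 Y) (hle2 : ∀ Y, r2' Y ≤ r2 Y) {x : α → ℝ} {t ε : ℝ} {I : Finset α}
    (hI1 : Ind r1' I) (hI2 : Ind r2' I) (hε : 0 ≤ ε)
    (hd : Decomp (fun a => x a - ε * (if a ∈ I then 1 else 0)) (t - ε) r1' r2') :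
    Decomp x t r1 r2 := by
  classical
  obtain ⟨w, hw0, hw1, hw2, hw3⟩ := hd
  have up1 : ∀ J, Ind r1' J → Ind r1 J := by
    intro J hJ
    have e1 := hle1 J
    have e2 := card_le h1 J
    unfold Ind at *
    omega
  have up2 : ∀ J, Ind r2' J → Ind r2 J := by
    intro J hJ
    have e1 := hle2 J
    have e2 := card_le h2 J
    unfold Ind at *
    omega
  refine ⟨fun J => w J + (if J = I then ε else 0), ?_, ?_, ?_, ?_⟩
  · intro J
    have := hw0 J
    show 0 ≤ w J + (if J = I then ε else 0)
    split_ifs <;> linarith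
  · intro J hJ
    by_cases hJI : J = I
    · subst hJI
      exact ⟨up1 _ hI1, up2 _ hI2⟩
    · simp only [hJI, if_false, add_zero] at hJ
      exact ⟨up1 _ (hw1 J hJ).1, up2 _ (hw1 J hJ).2⟩
  · rw [Finset.sum_add_distrib, hw2]
    simp
  · intro a
    have e1 := hw3 a
    have e2 : ∀ J : Finset α, (if a ∈ J then w J + (if J = I then ε else 0) else 0) =
        (if a ∈ J then w J else 0) + (if J = I then (if a ∈ I then ε else 0) else 0) := by
      intro J
      by_cases hJI : J = I
      · subst hJI
        split_ifs <;> simp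
      · simp [hJI]
    simp only [e2]
    rw [Finset.sum_add_distrib, e1]
    simp only [Finset.sum_ite_eq', mem_univ, if_true]
    split_ifs <;> ring

theorem decomp_tight [Fintype α] : ∀ (m : ℕ) (r1 r2 : Finset α → ℕ), IsRF r1 → IsRF r2 →
    ∀ (x : α → ℝ) (t : ℝ) (n : ℕ), (∀ a, 0 ≤ x a) → 0 ≤ t →
    (∀ X : Finset α, ∑ a ∈ X, x a ≤ t * r1 X) → (∀ X : Finset α, ∑ a ∈ X, x a ≤ t * r2 X) →
    (∑ a, x a = t * n) → r1 univ = n → r2 univ = n → meas x t r1 r2 < m →
    Decomp x t r1 r2 := by
  classical
  intro m
  induction m with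
  | zero =>
    intro r1 r2 _ _ x t n _ _ _ _ _ _ _ hm
    exact absurd hm (Nat.not_lt_zero _)
  | succ m ih =>
    intro r1 r2 h1 h2 x t n hx ht hc1 hc2 hxn hr1 hr2 hm
    rcases ht.lt_or_eq with htpos | ht0
    swap
    · subst ht0
      apply decomp_zero
      intro a
      have := hc1 {a}
      rw [sum_singleton, zero_mul] at this
      exact le_antisymm this (hx a)
    obtain ⟨r1', h1', hle1, hc1', hsep1⟩ := exists_min_rf x t _ r1 h1 (le_refl _) hc1
    obtain ⟨r2', h2', hle2, hc2', hsep2⟩ := exists_min_rf x t _ r2 h2 (le_refl _) hc2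
    set E : Finset α := univ.filter (fun a => x a ≠ 0) with hE
    have hxE : ∑ a ∈ E, x a = t * n := by
      rw [← hxn, hE, Finset.sum_filter_ne_zero]
    have hrn : ∀ r' : Finset α → ℕ, (∀ Y : Finset α, ∑ a ∈ Y, x a ≤ t * r' Y) → n ≤ r' univ := by
      intro r' hc
      have e1 := hc univ
      rw [hxn] at e1
      have e2 : (n : ℝ) ≤ r' univ := le_of_mul_le_mul_left e1 htpos
      exact_mod_cast e2
    have hr1' : r1' univ = n := le_antisymm ((hle1 _).trans hr1.le) (hrn r1' hc1')
    have hr2' : r2' univ = n := le_antisymm ((hle2 _).trans hr2.le) (hrn r2' hc2')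
    obtain ⟨I, hIE, hI1, hI2, hIn⟩ := inter _ E r1' r2' rfl h1' h2' n (by
      intro A hA
      have e1 := hc1' A
      have e2 := hc2' (E \ A)
      have e3 : ∑ a ∈ E \ A, x a + ∑ a ∈ A, x a = ∑ a ∈ E, x a := Finset.sum_sdiff hA
      have e4 : t * (n : ℝ) ≤ t * ((r1' A + r2' (E \ A) : ℕ) : ℝ) := by
        push_cast
        rw [mul_add, ← hxE]
        linarith
      have e5 := le_of_mul_le_mul_left e4 htpos
      exact_mod_cast e5)
    have hIcard : I.card = n := by
      have e1 := h1'.mono _ _ (subset_univ I)
      omega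
    have key : ∀ r' : Finset α → ℕ, IsRF r' → r' univ = n → Ind r' I →
        (∀ X : Finset α, ∑ a ∈ X, x a = t * r' X → ∀ Y, r' (Y ∩ X) + r' (Y ∪ X) = r' Y + r' X) →
        ∀ X : Finset α, ∑ a ∈ X, x a = t * r' X → (I ∩ X).card = r' X := by
      intro r' h' hn' hI' hsep X hX
      have e1 := hsep X hX (univ \ X)
      have e2 : (univ \ X) ∩ X = ∅ := by
        ext a; simp
      have e3 : (univ \ X) ∪ X = univ := by
        ext a
        simp only [mem_union, mem_sdiff, mem_univ, true_and, iff_true]
        tauto
      rw [e2, e3, h'.empty, hn'] at e1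
      have e4 : r' (I \ X) = (I \ X).card := ind_subset h' hI' sdiff_subset
      have e5 : r' (I ∩ X) = (I ∩ X).card := ind_subset h' hI' inter_subset_left
      have e6 := h'.mono _ _ (sdiff_subset_sdiff (subset_univ I) (subset_refl X))
      have e7 := h'.mono _ _ (inter_subset_right (s₁ := I) (s₂ := X))
      have e8 := card_sdiff_add_card_inter I X
      omega
    have key1 := key r1' h1' hr1' hI1 hsep1
    have key2 := key r2' h2' hr2' hI2 hsep2
    have inter_le : ∀ r' : Finset α → ℕ, IsRF r' → Ind r' I → ∀ X, (I ∩ X).card ≤ r' X := by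
      intro r' h' hI' X
      have e5 : r' (I ∩ X) = (I ∩ X).card := ind_subset h' hI' inter_subset_left
      have e7 := h'.mono _ _ (inter_subset_right (s₁ := I) (s₂ := X))
      omega
    have il1 := inter_le r1' h1' hI1
    have il2 := inter_le r2' h2' hI2
    -- the step
    obtain ⟨ε, hε0, hεt, hslack, hor⟩ := exists_step (ι := α ⊕ (Finset α ⊕ Finset α))
      (fun c => match c with
        | Sum.inl a => x a
        | Sum.inr (Sum.inl X) => t * r1' X - ∑ a ∈ X, x a
        | Sum.inr (Sum.inr X) => t * r2' X - ∑ a ∈ X, x a)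
      (fun c => match c with
        | Sum.inl a => if a ∈ I then 1 else 0
        | Sum.inr (Sum.inl X) => (r1' X : ℝ) - (I ∩ X).card
        | Sum.inr (Sum.inr X) => (r2' X : ℝ) - (I ∩ X).card)
      (by
        rintro (a | X | X)
        · exact hx a
        · exact sub_nonneg.2 (hc1' X)
        · exact sub_nonneg.2 (hc2' X))
      (by
        rintro (a | X | X)
        · show (0 : ℝ) ≤ if a ∈ I then 1 else 0
          split_ifs <;> norm_num
        · exact sub_nonneg.2 (by exact_mod_cast il1 X)
        · exact sub_nonneg.2 (by exact_mod_cast il2 X))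
      (by
        rintro (a | X | X) hz
        · show (if a ∈ I then (1 : ℝ) else 0) = 0
          rw [if_neg]
          intro haI
          have := hIE haI
          rw [hE, mem_filter] at this
          exact this.2 hz
        · show (r1' X : ℝ) - (I ∩ X).card = 0
          have hz' : t * (r1' X : ℝ) - ∑ a ∈ X, x a = 0 := hz
          rw [key1 X (by linarith)]
          ring
        · show (r2' X : ℝ) - (I ∩ X).card = 0
          have hz' : t * (r2' X : ℝ) - ∑ a ∈ X, x a = 0 := hz
          rw [key2 X (by linarith)]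
          ring)
      t htpos
    have sl0 : ∀ a, 0 ≤ x a - ε * (if a ∈ I then 1 else 0) := fun a => hslack (Sum.inl a)
    have sl1 : ∀ X : Finset α, 0 ≤ t * r1' X - ∑ a ∈ X, x a - ε * ((r1' X : ℝ) - (I ∩ X).card) :=
      fun X => hslack (Sum.inr (Sum.inl X))
    have sl2 : ∀ X : Finset α, 0 ≤ t * r2' X - ∑ a ∈ X, x a - ε * ((r2' X : ℝ) - (I ∩ X).card) :=
      fun X => hslack (Sum.inr (Sum.inr X))
    have hsum : ∀ X : Finset α, ∑ a ∈ X, (x a - ε * (if a ∈ I then 1 else 0)) =
        ∑ a ∈ X, x a - ε * (I ∩ X).card := by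
      intro X
      rw [Finset.sum_sub_distrib, ← Finset.mul_sum]
      congr 2
      rw [Finset.sum_ite_mem, inter_comm]
      simp
    have hc1'' : ∀ X : Finset α, ∑ a ∈ X, (x a - ε * (if a ∈ I then 1 else 0)) ≤
        (t - ε) * r1' X := by
      intro X
      rw [hsum]
      have := sl1 X
      linarith
    have hc2'' : ∀ X : Finset α, ∑ a ∈ X, (x a - ε * (if a ∈ I then 1 else 0)) ≤
        (t - ε) * r2' X := by
      intro X
      rw [hsum]
      have := sl2 X
      linarith
    apply decomp_step h1 h2 hle1 hle2 hI1 hI2 hε0.le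
    rcases eq_or_ne ε t with hεeq | hεne
    · rw [hεeq, sub_self]
      apply decomp_zero
      intro a
      have e1 := hc1'' {a}
      rw [sum_singleton, hεeq, sub_self, zero_mul] at e1
      have e2 := sl0 a
      rw [hεeq] at e2
      exact le_antisymm e1 e2
    · have hor' : ∃ c : α ⊕ (Finset α ⊕ Finset α), (match c with
        | Sum.inl a => x a
        | Sum.inr (Sum.inl X) => t * r1' X - ∑ a ∈ X, x a
        | Sum.inr (Sum.inr X) => t * r2' X - ∑ a ∈ X, x a) ≠ 0 ∧ (match c with
        | Sum.inl a => x a
        | Sum.inr (Sum.inl X) => t * r1' X - ∑ a ∈ X, x a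
        | Sum.inr (Sum.inr X) => t * r2' X - ∑ a ∈ X, x a) - ε * (match c with
        | Sum.inl a => if a ∈ I then 1 else 0
        | Sum.inr (Sum.inl X) => (r1' X : ℝ) - (I ∩ X).card
        | Sum.inr (Sum.inr X) => (r2' X : ℝ) - (I ∩ X).card) = 0 := by
        rcases hor with h | h
        · exact absurd h hεne
        · exact h
      apply ih r1' r2' h1' h2' _ _ n sl0 (sub_nonneg.2 hεt) hc1'' hc2'' ?_ hr1' hr2' ?_
      · rw [hsum, hxn, inter_univ, hIcard]
        ring
      · -- the measure decreases
        have s0 : (univ.filter (fun a => x a - ε * (if a ∈ I then 1 else 0) ≠ 0)) ⊆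
            (univ.filter (fun a => x a ≠ 0)) := by
          intro a ha
          simp only [mem_filter, mem_univ, true_and] at ha ⊢
          intro h0
          apply ha
          have haI : a ∉ I := by
            intro haI
            have := hIE haI
            rw [hE, mem_filter] at this
            exact this.2 h0
          rw [h0, if_neg haI]
          ring
        have s1 : (univ.filter (fun X : Finset α =>
            ∑ a ∈ X, (x a - ε * (if a ∈ I then 1 else 0)) ≠ (t - ε) * r1' X)) ⊆
            (univ.filter (fun X : Finset α => ∑ a ∈ X, x a ≠ t * r1 X)) := by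
          intro X hX
          simp only [mem_filter, mem_univ, true_and] at hX ⊢
          intro h0
          apply hX
          have e1 : (r1' X : ℝ) ≤ r1 X := by exact_mod_cast hle1 X
          have e2 := hc1' X
          have e3 : ∑ a ∈ X, x a = t * r1' X := by
            have := mul_le_mul_of_nonneg_left e1 htpos.le
            linarith
          rw [hsum, e3, key1 X e3]
          ring
        have s2 : (univ.filter (fun X : Finset α =>
            ∑ a ∈ X, (x a - ε * (if a ∈ I then 1 else 0)) ≠ (t - ε) * r2' X)) ⊆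
            (univ.filter (fun X : Finset α => ∑ a ∈ X, x a ≠ t * r2 X)) := by
          intro X hX
          simp only [mem_filter, mem_univ, true_and] at hX ⊢
          intro h0
          apply hX
          have e1 : (r2' X : ℝ) ≤ r2 X := by exact_mod_cast hle2 X
          have e2 := hc2' X
          have e3 : ∑ a ∈ X, x a = t * r2' X := by
            have := mul_le_mul_of_nonneg_left e1 htpos.le
            linarith
          rw [hsum, e3, key2 X e3]
          ring
        have c0 := card_le_card s0
        have c1 := card_le_card s1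
        have c2 := card_le_card s2
        have hstrict : (univ.filter (fun a => x a - ε * (if a ∈ I then 1 else 0) ≠ 0)).card +
            (univ.filter (fun X : Finset α =>
            ∑ a ∈ X, (x a - ε * (if a ∈ I then 1 else 0)) ≠ (t - ε) * r1' X)).card +
            (univ.filter (fun X : Finset α =>
            ∑ a ∈ X, (x a - ε * (if a ∈ I then 1 else 0)) ≠ (t - ε) * r2' X)).card <
            (univ.filter (fun a => x a ≠ 0)).card +
            (univ.filter (fun X : Finset α => ∑ a ∈ X, x a ≠ t * r1 X)).card +
            (univ.filter (fun X : Finset α => ∑ a ∈ X, x a ≠ t * r2 X)).card := by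
          obtain ⟨c, hcne, hc0⟩ := hor'
          rcases c with a | X | X
          · have hne : x a ≠ 0 := hcne
            have h0 : x a - ε * (if a ∈ I then 1 else 0) = 0 := hc0
            have := card_lt_card (s := univ.filter
              (fun a => x a - ε * (if a ∈ I then 1 else 0) ≠ 0)) ⟨s0, fun hh => by
              have := hh (show a ∈ univ.filter (fun a => x a ≠ 0) by simp [hne])
              rw [mem_filter] at this
              exact this.2 h0⟩
            omega
          · have hne : t * (r1' X : ℝ) - ∑ a ∈ X, x a ≠ 0 := hcne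
            have h0 : t * r1' X - ∑ a ∈ X, x a - ε * ((r1' X : ℝ) - (I ∩ X).card) = 0 := hc0
            have := card_lt_card (s := univ.filter (fun X : Finset α =>
              ∑ a ∈ X, (x a - ε * (if a ∈ I then 1 else 0)) ≠ (t - ε) * r1' X)) ⟨s1, fun hh => by
              have := hh (show X ∈ univ.filter (fun X : Finset α => ∑ a ∈ X, x a ≠ t * r1 X) by
                simp only [mem_filter, mem_univ, true_and]
                intro h3
                apply hne
                have e1 : (r1' X : ℝ) ≤ r1 X := by exact_mod_cast hle1 X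
                have e2 := hc1' X
                have := mul_le_mul_of_nonneg_left e1 htpos.le
                linarith)
              rw [mem_filter] at this
              apply this.2
              rw [hsum]
              linarith⟩
            omega
          · have hne : t * (r2' X : ℝ) - ∑ a ∈ X, x a ≠ 0 := hcne
            have h0 : t * r2' X - ∑ a ∈ X, x a - ε * ((r2' X : ℝ) - (I ∩ X).card) = 0 := hc0
            have := card_lt_card (s := univ.filter (fun X : Finset α =>
              ∑ a ∈ X, (x a - ε * (if a ∈ I then 1 else 0)) ≠ (t - ε) * r2' X)) ⟨s2, fun hh => by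
              have := hh (show X ∈ univ.filter (fun X : Finset α => ∑ a ∈ X, x a ≠ t * r2 X) by
                simp only [mem_filter, mem_univ, true_and]
                intro h3
                apply hne
                have e1 : (r2' X : ℝ) ≤ r2 X := by exact_mod_cast hle2 X
                have e2 := hc2' X
                have := mul_le_mul_of_nonneg_left e1 htpos.le
                linarith)
              rw [mem_filter] at this
              apply this.2
              rw [hsum]
              linarith⟩
            omega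
        have hm' : meas x t r1 r2 = (univ.filter (fun a => x a ≠ 0)).card +
            (univ.filter (fun X : Finset α => ∑ a ∈ X, x a ≠ t * r1 X)).card +
            (univ.filter (fun X : Finset α => ∑ a ∈ X, x a ≠ t * r2 X)).card := by
          unfold meas
          congr!
        have hm'' : meas (fun a => x a - ε * (if a ∈ I then 1 else 0)) (t - ε) r1' r2' =
            (univ.filter (fun a => x a - ε * (if a ∈ I then 1 else 0) ≠ 0)).card +
            (univ.filter (fun X : Finset α =>
            ∑ a ∈ X, (x a - ε * (if a ∈ I then 1 else 0)) ≠ (t - ε) * r1' X)).card +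
            (univ.filter (fun X : Finset α =>
            ∑ a ∈ X, (x a - ε * (if a ∈ I then 1 else 0)) ≠ (t - ε) * r2' X)).card := by
          unfold meas
          congr!
        omega

/-- Every point of (a multiple of) the common independence polytope is decomposable. -/
theorem decomp [Fintype α] {r1 r2 : Finset α → ℕ} (h1 : IsRF r1) (h2 : IsRF r2) (x : α → ℝ)
    (t : ℝ) (hx : ∀ a, 0 ≤ x a) (ht : 0 ≤ t) (hc1 : ∀ X : Finset α, ∑ a ∈ X, x a ≤ t * r1 X)
    (hc2 : ∀ X : Finset α, ∑ a ∈ X, x a ≤ t * r2 X) : Decomp x t r1 r2 := by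
  classical
  set n := max (r1 univ) (r2 univ) with hn
  rcases Nat.eq_zero_or_pos n with hn0 | hnpos
  · have hr : r1 univ = 0 := by omega
    have hx0 : ∀ a, x a = 0 := by
      intro a
      have e1 := hc1 univ
      rw [hr] at e1
      have e2 := Finset.single_le_sum (f := x) (fun b _ => hx b) (mem_univ a)
      have := hx a
      simp only [Nat.cast_zero, mul_zero] at e1
      linarith
    refine ⟨fun J => if J = ∅ then t else 0, ?_, ?_, ?_, ?_⟩
    · intro J
      show 0 ≤ if J = ∅ then t else 0
      split_ifs <;> linarith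
    · intro J hJ
      by_cases hJe : J = ∅
      · subst hJe
        exact ⟨ind_empty h1, ind_empty h2⟩
      · simp [hJe] at hJ
    · simp
    · intro a
      rw [hx0]
      apply Finset.sum_eq_zero
      intro J _
      by_cases hJe : J = ∅
      · subst hJe
        simp
      · simp [hJe]
  -- the extended point
  have hnR : (0 : ℝ) < n := by exact_mod_cast hnpos
  have hxu : ∑ a, x a ≤ t * n := by
    have e1 := hc1 univ
    have e2 : (r1 univ : ℝ) ≤ n := by exact_mod_cast le_max_left _ _
    have e3 := mul_le_mul_of_nonneg_left e2 ht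
    linarith
  have hxnn : 0 ≤ ∑ a, x a := Finset.sum_nonneg (fun a _ => hx a)
  set c : ℝ := (t * n - ∑ a, x a) / n with hc
  have hc0 : 0 ≤ c := div_nonneg (by linarith) hnR.le
  have hct : c ≤ t := by
    rw [hc, div_le_iff₀ hnR]
    linarith
  have hcn : c * n = t * n - ∑ a, x a := by
    rw [hc, div_mul_cancel₀ _ hnR.ne']
  set y : α ⊕ Fin n → ℝ := fun p => Sum.elim x (fun _ => c) p with hy
  have hyX : ∀ X : Finset (α ⊕ Fin n), ∑ p ∈ X, y p = ∑ a ∈ X.toLeft, x a + X.toRight.card * c := by
    intro X
    conv_lhs => rw [← toLeft_disjSum_toRight (u := X)]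
    rw [Finset.sum_disjSum]
    simp [hy]
  have hy0 : ∀ p, 0 ≤ y p := by
    rintro (a | b)
    · exact hx a
    · exact hc0
  have hyu : ∑ p, y p = t * n := by
    rw [hyX]
    have e1 : (univ : Finset (α ⊕ Fin n)).toLeft = univ := by ext; simp
    have e2 : (univ : Finset (α ⊕ Fin n)).toRight = univ := by ext; simp
    rw [e1, e2, card_univ, Fintype.card_fin]
    linarith
  have hyc : ∀ r : Finset α → ℕ, (∀ X : Finset α, ∑ a ∈ X, x a ≤ t * r X) →
      ∀ X : Finset (α ⊕ Fin n), ∑ p ∈ X, y p ≤ t * ext n r X := by
    intro r hr X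
    unfold ext
    rcases le_total n (r X.toLeft + X.toRight.card) with h | h
    · rw [min_eq_left h, ← hyu]
      exact Finset.sum_le_sum_of_subset_of_nonneg (subset_univ X) (fun p _ _ => hy0 p)
    · rw [min_eq_right h, hyX]
      push_cast
      have e1 := hr X.toLeft
      have e2 : (0 : ℝ) ≤ X.toRight.card := Nat.cast_nonneg _
      nlinarith [mul_le_mul_of_nonneg_left hct e2]
  have hru : ∀ r : Finset α → ℕ, ext n r (univ : Finset (α ⊕ Fin n)) = n := by
    intro r
    unfold ext
    have e2 : (univ : Finset (α ⊕ Fin n)).toRight = univ := by ext; simp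
    rw [e2, card_univ, Fintype.card_fin]
    omega
  obtain ⟨w, hw0, hw1, hw2, hw3⟩ := decomp_tight _ (ext n r1) (ext n r2) (ext_isRF n h1)
    (ext_isRF n h2) y t n hy0 ht (hyc r1 hc1) (hyc r2 hc2) hyu (hru r1) (hru r2)
    (Nat.lt_succ_self _)
  refine ⟨fun I => ∑ J ∈ univ.filter (fun J : Finset (α ⊕ Fin n) => J.toLeft = I), w J,
    ?_, ?_, ?_, ?_⟩
  · intro I
    exact Finset.sum_nonneg (fun J _ => hw0 J)
  · intro I hI
    obtain ⟨J, hJ, hJw⟩ := Finset.exists_ne_zero_of_sum_ne_zero hI
    rw [mem_filter] at hJ
    have := hw1 J hJw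
    rw [← hJ.2]
    exact ⟨ind_of_ext h1 this.1, ind_of_ext h2 this.2⟩
  · rw [← hw2]
    exact Finset.sum_fiberwise (univ : Finset (Finset (α ⊕ Fin n))) (fun J => J.toLeft) w
  · intro a
    have e1 := hw3 (Sum.inl a)
    have e2 : y (Sum.inl a) = x a := rfl
    rw [← e2, ← e1]
    rw [← Finset.sum_fiberwise (univ : Finset (Finset (α ⊕ Fin n))) (fun J => J.toLeft)
      (fun J => if Sum.inl a ∈ J then w J else 0)]
    apply Finset.sum_congr rfl
    intro I _
    split_ifs with haI
    · apply Finset.sum_congr rfl
      intro J hJ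
      rw [mem_filter] at hJ
      rw [if_pos]
      rw [← mem_toLeft, hJ.2]
      exact haI
    · symm
      apply Finset.sum_eq_zero
      intro J hJ
      rw [mem_filter] at hJ
      rw [if_neg]
      rw [← mem_toLeft, hJ.2]
      exact haI

end Pool.Agent.Helper151_AB
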