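import Mathlib
import Pool.Agent.Helper151_AB.Part

set_option autoImplicit false

/-! Exchange lemmas: perfect matchings in the exchange graph, and what happens if a matching does
not give an independent set. -/

namespace Pool.Agent.Helper151_AB

open Finset
open Pool.Agent.H478R3.Borsuk (IsRF inter)

variable {α : Type} [DecidableEq α]

theorem not_ind_insert {r : Finset α → ℕ} (h : IsRF r) {A : Finset α} (hA : Ind r A) {z : α}
    (hz : z ∉ A) (hn : ¬ Ind r (insert z A)) : r (insert z A) = r A := by
  rcases ins_cases h z A with h1 | h1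
  · exact h1
  · exfalso
    apply hn
    unfold Ind at *
    rw [h1, card_insert_of_notMem hz, hA]

/-- There is a perfect matching in the exchange graph. -/
theorem exists_matching {r : Finset α → ℕ} (h : IsRF r) {I J : Finset α} (hI : Ind r I)
    (hJ : Ind r J) (hc : I.card = J.card) :
    ∃ π : α → α, Set.InjOn π (J \ I : Finset α) ∧ ∀ z ∈ J \ I, π z ∈ I \ J ∧
      Ind r (insert z (I.erase (π z))) := by
  classical
  have hcard : (J \ I).card = (I \ J).card := by
    have e1 := card_sdiff_add_card_inter I J
    have e2 := card_sdiff_add_card_inter J I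
    rw [inter_comm] at e2
    omega
  have hall := (Finset.all_card_le_biUnion_card_iff_exists_injective
    (fun z : {z // z ∈ J \ I} =>
      (I \ J).filter (fun w => Ind r (insert (z : α) (I.erase w))))).1 (by
    intro A
    by_cases hfree : ∃ z ∈ A, Ind r (insert (z : α) I)
    · obtain ⟨z, hzA, hz⟩ := hfree
      have e1 : I \ J ⊆ A.biUnion (fun z => (I \ J).filter
          (fun w => Ind r (insert (z : α) (I.erase w)))) := by
        intro w hw
        rw [mem_biUnion]
        refine ⟨z, hzA, ?_⟩
        rw [mem_filter]
        exact ⟨hw, ind_subset h hz (insert_subset_insert _ (erase_subset _ _))⟩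
      have e2 := card_le_card e1
      have e3 : A.card ≤ (J \ I).card := by
        have := card_le_univ A
        rwa [Fintype.card_coe] at this
      omega
    · push Not at hfree
      set N := A.biUnion (fun z => (I \ J).filter
          (fun w => Ind r (insert (z : α) (I.erase w)))) with hN
      set V := (I \ J) \ N with hV
      have hU : ∀ z ∈ A, r (insert (z : α) (I \ V)) = r (I \ V) := by
        intro z hz
        have hzJ : (z : α) ∈ J \ I := z.2
        rw [mem_sdiff] at hzJ
        apply cl_of_subset_ind h hI (not_ind_insert h hI hzJ.2 (hfree z hz)) V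
          ((sdiff_subset.trans sdiff_subset))
        intro w hw
        rw [hV, mem_sdiff] at hw
        apply not_ind_insert h (ind_subset h hI (erase_subset _ _))
          (fun hh => hzJ.2 (mem_of_mem_erase hh))
        intro hind
        apply hw.2
        rw [hN, mem_biUnion]
        exact ⟨z, hz, by rw [mem_filter]; exact ⟨hw.1, hind⟩⟩
      have e1 := cl_union h (A := I \ V) (A.image Subtype.val) (by
        intro e he
        rw [mem_image] at he
        obtain ⟨z, hz, rfl⟩ := he
        exact hU z hz)
      have e2 : (I ∩ J) ∪ A.image Subtype.val ⊆ (I \ V) ∪ A.image Subtype.val := by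
        apply union_subset_union_left
        intro a ha
        rw [mem_inter] at ha
        rw [mem_sdiff, hV, mem_sdiff, mem_sdiff]
        tauto
      have e3 := h.mono _ _ e2
      have e4 : (I ∩ J) ∪ A.image Subtype.val ⊆ J := by
        intro a ha
        rw [mem_union] at ha
        rcases ha with ha | ha
        · exact (mem_inter.1 ha).2
        · rw [mem_image] at ha
          obtain ⟨z, hz, rfl⟩ := ha
          exact (mem_sdiff.1 z.2).1
      have e5 : r ((I ∩ J) ∪ A.image Subtype.val) =
          ((I ∩ J) ∪ A.image Subtype.val).card := ind_subset h hJ e4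
      have e6 : Disjoint (I ∩ J) (A.image Subtype.val) := by
        rw [disjoint_left]
        intro a ha ha'
        rw [mem_image] at ha'
        obtain ⟨z, hz, rfl⟩ := ha'
        exact (mem_sdiff.1 z.2).2 (mem_inter.1 ha).1
      have e7 : (A.image Subtype.val).card = A.card :=
        card_image_of_injective _ Subtype.val_injective
      rw [card_union_of_disjoint e6, e7] at e5
      have e8 : r (I \ V) = (I \ V).card := ind_subset h hI sdiff_subset
      have e9 : I \ V = (I ∩ J) ∪ N := by
        have hNs : N ⊆ I \ J := by
          rw [hN]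
          intro a ha
          rw [mem_biUnion] at ha
          obtain ⟨z, _, hz⟩ := ha
          exact (mem_filter.1 hz).1
        ext a
        have := @hNs a
        simp only [mem_sdiff, hV, mem_inter, mem_union] at *
        tauto
      have e10 : ((I ∩ J) ∪ N).card ≤ (I ∩ J).card + N.card := card_union_le _ _
      rw [e9] at e8
      rw [e9] at e1
      rw [e9] at e3
      omega)
  obtain ⟨g, hg1, hg2⟩ := hall
  refine ⟨fun z => if hz : z ∈ J \ I then g ⟨z, hz⟩ else z, ?_, ?_⟩
  · intro z hz z' hz' hzz
    rw [mem_coe] at hz hz'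
    simp only [hz, hz', dif_pos] at hzz
    have := hg1 hzz
    exact congrArg Subtype.val this
  · intro z hz
    simp only [hz, dif_pos]
    have := hg2 ⟨z, hz⟩
    rw [mem_filter] at this
    exact this

/-- If a matching in the exchange graph does not give an independent set, there is another one on
some of its vertices. -/
theorem closed_of_dep {r : Finset α → ℕ} (h : IsRF r) {I : Finset α} (hI : Ind r I)
    (Q : Finset ℕ) (z w : ℕ → α) (hz : ∀ c ∈ Q, z c ∉ I) (hzi : Set.InjOn z Q)
    (hE : ∀ c ∈ Q, w c ∈ I ∧ Ind r (insert (z c) (I.erase (w c))))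
    (hdep : ¬ Ind r ((I \ Q.image w) ∪ Q.image z)) :
    ∃ (Z : Finset ℕ) (f : ℕ → ℕ), Z ⊆ Q ∧ Z.Nonempty ∧ Z.image f = Z ∧ (∀ c ∈ Z, f c ≠ c) ∧
      ∀ c ∈ Z, Ind r (insert (z (f c)) (I.erase (w c))) := by
  classical
  obtain ⟨Q', hQ', hmin⟩ := Finset.exists_min_image
    (Q.powerset.filter (fun T => ¬ Ind r ((I \ Q.image w) ∪ T.image z))) (fun T => T.card)
    ⟨Q, by simp [hdep]⟩
  simp only [mem_filter, mem_powerset] at hQ' hmin
  obtain ⟨hQ'Q, hQ'dep⟩ := hQ'
  have hne : Q'.Nonempty := by
    rw [nonempty_iff_ne_empty]
    rintro rfl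
    apply hQ'dep
    simp only [image_empty, union_empty]
    exact ind_subset h hI sdiff_subset
  have key : ∀ c ∈ Q', ∃ d ∈ Q', d ≠ c ∧ Ind r (insert (z d) (I.erase (w c))) := by
    intro c hc
    by_contra hcon
    push Not at hcon
    have hcQ := hQ'Q hc
    have hind : Ind r ((I \ Q.image w) ∪ (Q'.erase c).image z) := by
      by_contra hn
      have := hmin (Q'.erase c) ⟨(erase_subset _ _).trans hQ'Q, hn⟩
      have h2 := card_erase_add_one hc
      omega
    have hins : (I \ Q.image w) ∪ Q'.image z =
        insert (z c) ((I \ Q.image w) ∪ (Q'.erase c).image z) := by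
      rw [← union_insert, ← image_insert, insert_erase hc]
    have hzn : z c ∉ (I \ Q.image w) ∪ (Q'.erase c).image z := by
      rw [mem_union, not_or]
      constructor
      · intro hh
        exact hz c hcQ (mem_sdiff.1 hh).1
      · intro hh
        rw [mem_image] at hh
        obtain ⟨d, hd, hdz⟩ := hh
        rw [mem_erase] at hd
        exact hd.1 (hzi (hQ'Q hd.2) hcQ hdz)
    have e1 : r (insert (z c) ((I \ Q.image w) ∪ (Q'.erase c).image z)) =
        r ((I \ Q.image w) ∪ (Q'.erase c).image z) := by
      apply not_ind_insert h hind hzn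
      rw [← hins]
      exact hQ'dep
    have hIe : Ind r (I.erase (w c)) := ind_subset h hI (erase_subset _ _)
    have e2 : r (I.erase (w c) ∪ (Q'.erase c).image z) = r (I.erase (w c)) := by
      apply cl_union h
      intro e he
      rw [mem_image] at he
      obtain ⟨d, hd, rfl⟩ := he
      rw [mem_erase] at hd
      apply not_ind_insert h hIe (fun hh => hz d (hQ'Q hd.2) (mem_of_mem_erase hh))
      exact hcon d hd.2 hd.1
    have hsub : (I \ Q.image w) ∪ (Q'.erase c).image z ⊆
        I.erase (w c) ∪ (Q'.erase c).image z := by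
      apply union_subset_union_left
      intro a ha
      rw [mem_sdiff] at ha
      rw [mem_erase]
      refine ⟨?_, ha.1⟩
      rintro rfl
      exact ha.2 (mem_image_of_mem w hcQ)
    have e3 := cl_mono h hsub e1
    have e4 := h.mono _ _ (insert_subset_insert (z c)
      (subset_union_left (s₁ := I.erase (w c)) (s₂ := (Q'.erase c).image z)))
    have e5 : r (insert (z c) (I.erase (w c))) = (insert (z c) (I.erase (w c))).card :=
      (hE c hcQ).2
    rw [card_insert_of_notMem (fun hh => hz c hcQ (mem_of_mem_erase hh))] at e5
    unfold Ind at hIe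
    omega
  choose! f hf1 hf2 hf3 using key
  obtain ⟨Z, hZ, hZmin⟩ := Finset.exists_min_image
    (Q'.powerset.filter (fun T => T.Nonempty ∧ T.image f ⊆ T)) (fun T => T.card)
    ⟨Q', by
      simp only [mem_filter, mem_powerset, subset_refl, true_and]
      refine ⟨hne, ?_⟩
      intro d hd
      rw [mem_image] at hd
      obtain ⟨c, hc, rfl⟩ := hd
      exact hf1 c hc⟩
  simp only [mem_filter, mem_powerset] at hZ hZmin
  obtain ⟨hZQ', hZne, hZcl⟩ := hZ
  refine ⟨Z, f, hZQ'.trans hQ'Q, hZne, ?_, fun c hc => hf2 c (hZQ' hc),
    fun c hc => hf3 c (hZQ' hc)⟩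
  have h1 := hZmin (Z.image f) ⟨hZcl.trans hZQ', hZne.image f, image_subset_image hZcl⟩
  exact eq_of_subset_of_card_le hZcl h1

end Pool.Agent.Helper151_AB
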