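import Mathlib
import Pool.Agent.Helper151_AB.Exch

set_option autoImplicit false

/-! Closed alternating walks of minimal length and positive weight have no closed system of
chords. -/

namespace Pool.Agent.Helper151_AB

open Finset
open Pool.Agent.H478R3.Borsuk (IsRF inter)

variable {α : Type}

/-- A closed alternating walk with `n` steps. -/
def IsAlt (E1 E2 : α → α → Prop) (n : ℕ) (z y : ℕ → α) : Prop :=
  0 < n ∧ ∀ t < n, E2 (z t) (y t) ∧ E1 (z t) (y ((t + 1) % n))

/-- Its weight. -/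
def wt (a b : α → ℝ) (n : ℕ) (z y : ℕ → α) : ℝ := ∑ t ∈ range n, (a (z t) - b (y t))

theorem psum_period {φ : ℕ → ℝ} (n : ℕ) (m : ℕ) :
    ∑ t ∈ range (m + n), φ (t % n) = ∑ t ∈ range m, φ (t % n) + ∑ t ∈ range n, φ t := by
  induction m with
  | zero =>
    rw [Nat.zero_add, range_zero, sum_empty, zero_add]
    apply Finset.sum_congr rfl
    intro t ht
    rw [Nat.mod_eq_of_lt (mem_range.1 ht)]
  | succ m ih =>
    have e1 : m + 1 + n = (m + n) + 1 := by ring
    rw [e1, sum_range_succ, ih, sum_range_succ, Nat.add_mod_right]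
    ring

theorem sum_rot {φ : ℕ → ℝ} (n s : ℕ) :
    ∑ t ∈ range n, φ ((t + s) % n) = ∑ t ∈ range n, φ t := by
  have e1 := psum_period (φ := φ) n s
  rw [Finset.sum_range_add] at e1
  have e2 : ∑ t ∈ range n, φ ((t + s) % n) = ∑ t ∈ range n, φ ((s + t) % n) := by
    apply Finset.sum_congr rfl
    intro t _
    rw [Nat.add_comm]
  rw [e2]
  linarith

theorem alt_rot {E1 E2 : α → α → Prop} {n : ℕ} {z y : ℕ → α} (h : IsAlt E1 E2 n z y) (s : ℕ) :
    IsAlt E1 E2 n (fun t => z ((t + s) % n)) (fun t => y ((t + s) % n)) := by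
  obtain ⟨hn, h⟩ := h
  refine ⟨hn, fun t _ => ?_⟩
  have h1 := h ((t + s) % n) (Nat.mod_lt _ hn)
  refine ⟨h1.1, ?_⟩
  have e1 : ((t + 1) % n + s) % n = ((t + s) % n + 1) % n := by
    rw [Nat.mod_add_mod, Nat.mod_add_mod]
    congr 1
    ring
  show E1 (z ((t + s) % n)) (y (((t + 1) % n + s) % n))
  rw [e1]
  exact h1.2

theorem wt_rot (a b : α → ℝ) (n : ℕ) (z y : ℕ → α) (s : ℕ) :
    wt a b n (fun t => z ((t + s) % n)) (fun t => y ((t + s) % n)) = wt a b n z y := by
  unfold wt
  exact sum_rot (φ := fun t => a (z t) - b (y t)) n s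

/-- A chord of the first kind. -/
theorem chord1 {E1 E2 : α → α → Prop} (a b : α → ℝ) {n : ℕ} {z y : ℕ → α}
    (h : IsAlt E1 E2 n z y) {c e : ℕ} (hce : c < e) (hen : e < c + n)
    (hE : E1 (z (e % n)) (y ((c + 1) % n))) :
    ∃ n' z' y', IsAlt E1 E2 n' z' y' ∧ n' < n ∧
      wt a b n' z' y' = ∑ t ∈ range (e + 1), (a (z (t % n)) - b (y (t % n))) -
        ∑ t ∈ range (c + 1), (a (z (t % n)) - b (y (t % n))) := by
  obtain ⟨hn, h⟩ := h
  refine ⟨e - c, fun t => z ((c + 1 + t) % n), fun t => y ((c + 1 + t) % n), ⟨by omega, ?_⟩,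
    by omega, ?_⟩
  · intro t ht
    have h1 := h ((c + 1 + t) % n) (Nat.mod_lt _ hn)
    refine ⟨h1.1, ?_⟩
    show E1 (z ((c + 1 + t) % n)) (y ((c + 1 + (t + 1) % (e - c)) % n))
    rcases Nat.lt_or_ge (t + 1) (e - c) with h2 | h2
    · rw [Nat.mod_eq_of_lt h2]
      have e1 : (c + 1 + (t + 1)) % n = ((c + 1 + t) % n + 1) % n := by
        rw [Nat.mod_add_mod]
        congr 1
      rw [e1]
      exact h1.2
    · have e2 : t + 1 = e - c := by omega
      have e3 : c + 1 + t = e := by omega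
      rw [e2, Nat.mod_self, Nat.add_zero, e3]
      exact hE
  · unfold wt
    have e1 : e + 1 = (c + 1) + (e - c) := by omega
    rw [e1, Finset.sum_range_add]
    ring

/-- A chord of the second kind. -/
theorem chord2 {E1 E2 : α → α → Prop} (a b : α → ℝ) {n : ℕ} {z y : ℕ → α}
    (h : IsAlt E1 E2 n z y) {d e : ℕ} (hde : d < e) (hen : e < d + n)
    (hE : E2 (z (d % n)) (y (e % n))) :
    ∃ n' z' y', IsAlt E1 E2 n' z' y' ∧ n' < n ∧
      wt a b n' z' y' = (∑ t ∈ range e, a (z (t % n)) - ∑ t ∈ range d, a (z (t % n))) -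
        (∑ t ∈ range (e + 1), b (y (t % n)) - ∑ t ∈ range (d + 1), b (y (t % n))) := by
  obtain ⟨hn, h⟩ := h
  refine ⟨e - d, fun t => z ((d + t) % n),
    fun t => if t = 0 then y (e % n) else y ((d + t) % n), ⟨by omega, ?_⟩, by omega, ?_⟩
  · intro t ht
    have h1 := h ((d + t) % n) (Nat.mod_lt _ hn)
    have e0 : ((d + t) % n + 1) % n = (d + t + 1) % n := by
      rw [Nat.mod_add_mod]
    rw [e0] at h1
    constructor
    · show E2 (z ((d + t) % n)) (if t = 0 then y (e % n) else y ((d + t) % n))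
      by_cases h0 : t = 0
      · subst h0
        simpa using hE
      · rw [if_neg h0]
        exact h1.1
    · show E1 (z ((d + t) % n)) (if (t + 1) % (e - d) = 0 then y (e % n) else
        y ((d + (t + 1) % (e - d)) % n))
      rcases Nat.lt_or_ge (t + 1) (e - d) with h2 | h2
      · rw [Nat.mod_eq_of_lt h2, if_neg (by omega)]
        exact h1.2
      · have e2 : t + 1 = e - d := by omega
        rw [e2, Nat.mod_self, if_pos rfl]
        have e3 : d + t + 1 = e := by omega
        rw [e3] at h1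
        exact h1.2
  · unfold wt
    rw [Finset.sum_sub_distrib]
    have e1 : ∑ t ∈ range e, a (z (t % n)) - ∑ t ∈ range d, a (z (t % n)) =
        ∑ t ∈ range (e - d), a (z ((d + t) % n)) := by
      have : e = d + (e - d) := by omega
      conv_lhs => rw [this]
      rw [Finset.sum_range_add]
      ring
    have e2 : ∑ t ∈ range (e + 1), b (y (t % n)) - ∑ t ∈ range (d + 1), b (y (t % n)) =
        ∑ t ∈ range (e - d), b (y ((d + 1 + t) % n)) := by
      have : e + 1 = d + 1 + (e - d) := by omega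
      rw [this, Finset.sum_range_add]
      ring
    rw [e1, e2]
    congr 1
    obtain ⟨m, hm⟩ : ∃ m, e - d = m + 1 := ⟨e - d - 1, by omega⟩
    rw [hm]
    have e3 : d + 1 + m = e := by omega
    have l1 : ∑ t ∈ range (m + 1), b ((fun t => if t = 0 then y (e % n) else y ((d + t) % n)) t) =
        ∑ t ∈ range m, b (y ((d + 1 + t) % n)) + b (y (e % n)) := by
      rw [Finset.sum_range_succ']
      congr 1
      apply Finset.sum_congr rfl
      intro t _
      show b (if t + 1 = 0 then y (e % n) else y ((d + (t + 1)) % n)) = _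
      rw [if_neg (Nat.succ_ne_zero t)]
      congr 3
      ring
    rw [l1, Finset.sum_range_succ, e3]

/-- No closed system of chords of the first kind. -/
theorem no_closed1 {E1 E2 : α → α → Prop} (a b : α → ℝ) {n : ℕ} {z y : ℕ → α}
    (h : IsAlt E1 E2 n z y) (hF : 0 < wt a b n z y)
    (hmin : ∀ n' z' y', IsAlt E1 E2 n' z' y' → n' < n → wt a b n' z' y' ≤ 0)
    (Z : Finset ℕ) (f : ℕ → ℕ) (hZ : Z ⊆ range n) (hne : Z.Nonempty) (hf : Z.image f = Z)
    (hfix : ∀ c ∈ Z, f c ≠ c) : ¬ ∀ c ∈ Z, E1 (z (f c)) (y ((c + 1) % n)) := by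
  intro hE
  set φ : ℕ → ℝ := fun t => a (z t) - b (y t) with hφ
  set Ψ : ℕ → ℝ := fun m => ∑ t ∈ range m, φ (t % n) with hΨ
  have hper : ∀ m, Ψ (m + n) = Ψ m + wt a b n z y := fun m => psum_period n m
  have hfZ : ∀ c ∈ Z, f c ∈ Z := fun c hc => hf ▸ mem_image_of_mem f hc
  have hfn : ∀ c ∈ Z, f c < n := fun c hc => mem_range.1 (hZ (hfZ c hc))
  have hcn : ∀ c ∈ Z, c < n := fun c hc => mem_range.1 (hZ hc)
  have key : ∀ c ∈ Z, Ψ (f c + 1) + (if f c < c then wt a b n z y else 0) ≤ Ψ (c + 1) := by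
    intro c hc
    have h1 := hfn c hc
    have h2 := hcn c hc
    have h3 := hfix c hc
    split_ifs with hlt
    · have e1 : (f c + n) % n = f c := by
        rw [Nat.add_mod_right, Nat.mod_eq_of_lt h1]
      obtain ⟨n', z', y', ha, hn', hw⟩ := chord1 a b h (c := c) (e := f c + n) (by omega)
        (by omega) (by rw [e1]; exact hE c hc)
      have h4 := hmin n' z' y' ha hn'
      have e2 : Ψ (f c + n + 1) = Ψ (f c + 1) + wt a b n z y := by
        rw [← hper]
        congr 1
        ring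
      have e3 : wt a b n' z' y' = Ψ (f c + n + 1) - Ψ (c + 1) := hw
      linarith
    · have e1 : f c % n = f c := Nat.mod_eq_of_lt h1
      obtain ⟨n', z', y', ha, hn', hw⟩ := chord1 a b h (c := c) (e := f c) (by omega)
        (by omega) (by rw [e1]; exact hE c hc)
      have h4 := hmin n' z' y' ha hn'
      have e3 : wt a b n' z' y' = Ψ (f c + 1) - Ψ (c + 1) := hw
      linarith
  have hinj : Set.InjOn f Z := by
    apply card_image_iff.1
    rw [hf]
  have hsum : ∑ c ∈ Z, Ψ (f c + 1) = ∑ c ∈ Z, Ψ (c + 1) := by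
    conv_rhs => rw [← hf]
    rw [sum_image hinj]
  have htot := Finset.sum_le_sum key
  rw [Finset.sum_add_distrib, hsum] at htot
  -- the largest element of `Z`
  have hmax := Z.max'_mem hne
  have hlt : f (Z.max' hne) < Z.max' hne := by
    have h1 := Z.le_max' _ (hfZ _ hmax)
    have h2 := hfix _ hmax
    omega
  have hpos : 0 < ∑ c ∈ Z, (if f c < c then wt a b n z y else 0) := by
    apply Finset.sum_pos'
    · intro c _
      split_ifs
      · exact hF.le
      · exact le_refl _
    · exact ⟨_, hmax, by rw [if_pos hlt]; exact hF⟩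
  linarith

/-- No closed system of chords of the second kind. -/
theorem no_closed2 {E1 E2 : α → α → Prop} (a b : α → ℝ) {n : ℕ} {z y : ℕ → α}
    (h : IsAlt E1 E2 n z y) (hF : 0 < wt a b n z y)
    (hmin : ∀ n' z' y', IsAlt E1 E2 n' z' y' → n' < n → wt a b n' z' y' ≤ 0)
    (Z : Finset ℕ) (f : ℕ → ℕ) (hZ : Z ⊆ range n) (hne : Z.Nonempty) (hf : Z.image f = Z)
    (hfix : ∀ c ∈ Z, f c ≠ c) : ¬ ∀ c ∈ Z, E2 (z (f c)) (y c) := by
  intro hE
  set A : ℕ → ℝ := fun m => ∑ t ∈ range m, a (z (t % n)) with hA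
  set B : ℕ → ℝ := fun m => ∑ t ∈ range m, b (y (t % n)) with hB
  have hperA : ∀ m, A (m + n) = A m + ∑ t ∈ range n, a (z t) := fun m =>
    psum_period (φ := fun t => a (z t)) n m
  have hperB : ∀ m, B (m + n) = B m + ∑ t ∈ range n, b (y t) := fun m =>
    psum_period (φ := fun t => b (y t)) n m
  have hw0 : wt a b n z y = ∑ t ∈ range n, a (z t) - ∑ t ∈ range n, b (y t) := by
    unfold wt
    rw [Finset.sum_sub_distrib]
  have hfZ : ∀ c ∈ Z, f c ∈ Z := fun c hc => hf ▸ mem_image_of_mem f hc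
  have hfn : ∀ c ∈ Z, f c < n := fun c hc => mem_range.1 (hZ (hfZ c hc))
  have hcn : ∀ c ∈ Z, c < n := fun c hc => mem_range.1 (hZ hc)
  have key : ∀ c ∈ Z, (A c - B (c + 1)) + (if c < f c then wt a b n z y else 0) ≤
      A (f c) - B (f c + 1) := by
    intro c hc
    have h1 := hfn c hc
    have h2 := hcn c hc
    have h3 := hfix c hc
    have e1 : f c % n = f c := Nat.mod_eq_of_lt h1
    split_ifs with hlt
    · have e2 : (c + n) % n = c := by
        rw [Nat.add_mod_right, Nat.mod_eq_of_lt h2]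
      obtain ⟨n', z', y', ha, hn', hw⟩ := chord2 a b h (d := f c) (e := c + n) (by omega)
        (by omega) (by rw [e1, e2]; exact hE c hc)
      have h4 := hmin n' z' y' ha hn'
      have e3 : wt a b n' z' y' = (A (c + n) - A (f c)) - (B (c + n + 1) - B (f c + 1)) := hw
      have e4 : B (c + n + 1) = B (c + 1) + ∑ t ∈ range n, b (y t) := by
        rw [← hperB]
        congr 1
        ring
      have e5 := hperA c
      linarith
    · have e2 : c % n = c := Nat.mod_eq_of_lt h2
      obtain ⟨n', z', y', ha, hn', hw⟩ := chord2 a b h (d := f c) (e := c) (by omega)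
        (by omega) (by rw [e1, e2]; exact hE c hc)
      have h4 := hmin n' z' y' ha hn'
      have e3 : wt a b n' z' y' = (A c - A (f c)) - (B (c + 1) - B (f c + 1)) := hw
      linarith
  have hinj : Set.InjOn f Z := by
    apply card_image_iff.1
    rw [hf]
  have hsum : ∑ c ∈ Z, (A (f c) - B (f c + 1)) = ∑ c ∈ Z, (A c - B (c + 1)) := by
    conv_rhs => rw [← hf]
    rw [sum_image hinj]
  have htot := Finset.sum_le_sum key
  rw [Finset.sum_add_distrib, hsum] at htot
  -- the smallest element of `Z`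
  have hmin' := Z.min'_mem hne
  have hlt : Z.min' hne < f (Z.min' hne) := by
    have h1 := Z.min'_le _ (hfZ _ hmin')
    have h2 := hfix _ hmin'
    omega
  have hpos : 0 < ∑ c ∈ Z, (if c < f c then wt a b n z y else 0) := by
    apply Finset.sum_pos'
    · intro c _
      split_ifs
      · exact hF.le
      · exact le_refl _
    · exact ⟨_, hmin', by rw [if_pos hlt]; exact hF⟩
  linarith

end Pool.Agent.Helper151_AB
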