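import Mathlib
import Pool.Agent.Helper151_AB.Walk

set_option autoImplicit false

/-! Weighted exchanges of bounded size between two common independent sets. -/

namespace Pool.Agent.Helper151_AB

open Finset
open Pool.Agent.H478R3.Borsuk (IsRF inter)

variable {α : Type} [DecidableEq α]

/-- The exchange relation. -/
def Edge (r : Finset α → ℕ) (I J : Finset α) (z y : α) : Prop :=
  z ∈ J \ I ∧ y ∈ I \ J ∧ Ind r (insert z (I.erase y))

theorem exists_walk {r1 r2 : Finset α → ℕ} (h1 : IsRF r1) (h2 : IsRF r2) {I J : Finset α}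
    (hI1 : Ind r1 I) (hI2 : Ind r2 I) (hJ1 : Ind r1 J) (hJ2 : Ind r2 J) (hc : I.card = J.card)
    (a b : α → ℝ) (hw : ∑ y ∈ I \ J, b y < ∑ z ∈ J \ I, a z) :
    ∃ n z y, IsAlt (Edge r1 I J) (Edge r2 I J) n z y ∧ 0 < wt a b n z y := by
  classical
  obtain ⟨π1, hπ1, hπ1'⟩ := exists_matching h1 hI1 hJ1 hc
  obtain ⟨π2, hπ2, hπ2'⟩ := exists_matching h2 hI2 hJ2 hc
  have hcard : (J \ I).card = (I \ J).card := by
    have e1 := card_sdiff_add_card_inter I J
    have e2 := card_sdiff_add_card_inter J I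
    rw [inter_comm] at e2
    omega
  have himg2 : (J \ I).image π2 = I \ J := by
    apply eq_of_subset_of_card_le
    · intro y hy
      rw [mem_image] at hy
      obtain ⟨z, hz, rfl⟩ := hy
      exact (hπ2' z hz).1
    · rw [card_image_of_injOn hπ2, hcard]
  -- the permutation
  have hg : ∀ z : {z // z ∈ J \ I}, ∃ z' : {z // z ∈ J \ I}, π2 z' = π1 z := by
    intro z
    have h3 := (hπ1' z z.2).1
    rw [← himg2, mem_image] at h3
    obtain ⟨z', hz', hzz⟩ := h3
    exact ⟨⟨z', hz'⟩, hzz⟩
  choose g hg using hg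
  have hginj : Function.Injective g := by
    intro z z' hzz
    have h3 := hg z
    rw [hzz, hg z'] at h3
    exact Subtype.ext (hπ1 z.2 z'.2 h3.symm)
  set σ : Equiv.Perm {z // z ∈ J \ I} := Equiv.ofBijective g
    (Finite.injective_iff_bijective.1 hginj) with hσ
  have hσg : ∀ z, σ z = g z := fun z => rfl
  set N := orderOf σ with hN
  have hNpos : 0 < N := orderOf_pos σ
  have hNone : σ ^ N = 1 := pow_orderOf_eq_one σ
  -- the total weight
  have htot : ∑ x : {z // z ∈ J \ I}, (a x - b (π2 x)) = ∑ z ∈ J \ I, a z - ∑ y ∈ I \ J, b y := by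
    rw [Finset.sum_sub_distrib]
    congr 1
    · exact Finset.sum_coe_sort (J \ I) a
    · rw [Finset.sum_coe_sort (J \ I) (fun z => b (π2 z)), ← himg2, Finset.sum_image hπ2]
  have hex : ∃ x : {z // z ∈ J \ I}, 0 < ∑ t ∈ range N, (a ((σ ^ t) x) - b (π2 ((σ ^ t) x))) := by
    by_contra hcon
    push Not at hcon
    have e1 : ∑ x : {z // z ∈ J \ I}, ∑ t ∈ range N, (a ((σ ^ t) x) - b (π2 ((σ ^ t) x))) ≤ 0 :=
      Finset.sum_nonpos (fun x _ => hcon x)
    rw [Finset.sum_comm] at e1
    have e2 : ∀ t ∈ range N, ∑ x : {z // z ∈ J \ I}, (a ((σ ^ t) x) - b (π2 ((σ ^ t) x))) =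
        ∑ x : {z // z ∈ J \ I}, (a x - b (π2 x)) := by
      intro t _
      exact Equiv.sum_comp (σ ^ t) (fun x : {z // z ∈ J \ I} => a x - b (π2 x))
    rw [Finset.sum_congr rfl e2, Finset.sum_const, card_range, nsmul_eq_mul, htot] at e1
    have e3 : (0 : ℝ) < N := by exact_mod_cast hNpos
    nlinarith
  obtain ⟨x, hx⟩ := hex
  have hy1 : ∀ t, π2 ((σ ^ (t + 1)) x) = π1 ((σ ^ t) x) := by
    intro t
    rw [pow_succ', Equiv.Perm.mul_apply, hσg, hg]
  refine ⟨N, fun t => ((σ ^ t) x : α), fun t => π2 ((σ ^ t) x), ⟨hNpos, fun t ht => ⟨?_, ?_⟩⟩, hx⟩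
  · exact ⟨((σ ^ t) x).2, hπ2' _ ((σ ^ t) x).2⟩
  · show Edge r1 I J ((σ ^ t) x : α) (π2 ((σ ^ ((t + 1) % N)) x))
    have e1 : π2 ((σ ^ ((t + 1) % N)) x) = π1 ((σ ^ t) x) := by
      rw [← hy1]
      rcases Nat.lt_or_ge (t + 1) N with h3 | h3
      · rw [Nat.mod_eq_of_lt h3]
      · have : t + 1 = N := by omega
        rw [this, Nat.mod_self, hNone, pow_zero]
    rw [e1]
    exact ⟨((σ ^ t) x).2, hπ1' _ ((σ ^ t) x).2⟩

/-- Facts on a walk of minimal length. -/
theorem window_ind {r1 r2 : Finset α → ℕ} (h1 : IsRF r1) (h2 : IsRF r2) {I J : Finset α}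
    (hI1 : Ind r1 I) (hI2 : Ind r2 I) (a b : α → ℝ) {n : ℕ} {z y : ℕ → α}
    (h : IsAlt (Edge r1 I J) (Edge r2 I J) n z y) (hF : 0 < wt a b n z y)
    (hmin : ∀ n' z' y', IsAlt (Edge r1 I J) (Edge r2 I J) n' z' y' → n' < n →
      wt a b n' z' y' ≤ 0) :
    Set.InjOn z (range n) ∧ Set.InjOn y (range n) ∧ ∀ m ≤ n,
      Ind r1 ((I \ (range m).image (fun c => y ((c + 1) % n))) ∪ (range m).image z) ∧
      Ind r2 ((I \ (range m).image y) ∪ (range m).image z) := by
  classical
  have hn := h.1
  have swap_img : ∀ s t : ℕ, s ≠ t → ({s, t} : Finset ℕ).image (fun c => if c = s then t else s) =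
      {s, t} := by
    intro s t hst
    ext c
    simp only [mem_image, mem_insert, mem_singleton]
    constructor
    · rintro ⟨d, hd | hd, rfl⟩
      · right; rw [if_pos hd]
      · left
        rw [if_neg (by rw [hd]; exact hst.symm)]
    · rintro (rfl | rfl)
      · exact ⟨t, Or.inr rfl, by rw [if_neg hst.symm]⟩
      · exact ⟨s, Or.inl rfl, by rw [if_pos rfl]⟩
  have swap_fix : ∀ s t : ℕ, s ≠ t → ∀ c ∈ ({s, t} : Finset ℕ),
      (if c = s then t else s) ≠ c := by
    intro s t hst c hc
    rw [mem_insert, mem_singleton] at hc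
    rcases hc with rfl | rfl
    · rw [if_pos rfl]; exact hst.symm
    · rw [if_neg hst.symm]; exact hst
  have hzinj : Set.InjOn z (range n) := by
    intro s hs t ht hst
    by_contra hne
    rw [mem_coe, mem_range] at hs ht
    apply no_closed1 a b h hF hmin {s, t} (fun c => if c = s then t else s)
      (by intro c hc; rw [mem_insert, mem_singleton] at hc; rw [mem_range]; omega)
      (by simp) (swap_img s t hne) (swap_fix s t hne)
    intro c hc
    rw [mem_insert, mem_singleton] at hc
    have e1 : z (if c = s then t else s) = z c := by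
      rcases hc with rfl | rfl
      · rw [if_pos rfl]; exact hst.symm
      · rw [if_neg (Ne.symm hne)]; exact hst
    rw [e1]
    exact (h.2 c (by omega)).2
  have hyinj : Set.InjOn y (range n) := by
    intro s hs t ht hst
    by_contra hne
    rw [mem_coe, mem_range] at hs ht
    apply no_closed2 a b h hF hmin {s, t} (fun c => if c = s then t else s)
      (by intro c hc; rw [mem_insert, mem_singleton] at hc; rw [mem_range]; omega)
      (by simp) (swap_img s t hne) (swap_fix s t hne)
    intro c hc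
    rw [mem_insert, mem_singleton] at hc
    have e1 : y c = y (if c = s then t else s) := by
      rcases hc with rfl | rfl
      · rw [if_pos rfl]; exact hst
      · rw [if_neg (Ne.symm hne)]; exact hst.symm
    rw [e1]
    apply (h.2 _ _).1
    split_ifs <;> omega
  refine ⟨hzinj, hyinj, fun m hm => ⟨?_, ?_⟩⟩
  · by_contra hdep
    obtain ⟨Z, f, hZ, hne, hf, hfix, hE⟩ := closed_of_dep h1 hI1 (range m) z
      (fun c => y ((c + 1) % n)) (by
        intro c hc
        have := (h.2 c (by rw [mem_range] at hc; omega)).1.1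
        exact (mem_sdiff.1 this).2)
      (hzinj.mono (by
        intro c hc
        rw [mem_coe, mem_range] at *
        omega)) (by
        intro c hc
        have := (h.2 c (by rw [mem_range] at hc; omega)).2
        exact ⟨(mem_sdiff.1 this.2.1).1, this.2.2⟩) hdep
    have hZn : ∀ c ∈ Z, c < n := fun c hc => by
      have := hZ hc
      rw [mem_range] at this
      omega
    apply no_closed1 a b h hF hmin Z f (fun c hc => mem_range.2 (hZn c hc)) hne hf hfix
    intro c hc
    have hfc : f c ∈ Z := hf ▸ mem_image_of_mem f hc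
    exact ⟨(h.2 (f c) (hZn _ hfc)).1.1, (h.2 c (hZn _ hc)).2.2.1, hE c hc⟩
  · by_contra hdep
    obtain ⟨Z, f, hZ, hne, hf, hfix, hE⟩ := closed_of_dep h2 hI2 (range m) z y (by
        intro c hc
        have := (h.2 c (by rw [mem_range] at hc; omega)).1.1
        exact (mem_sdiff.1 this).2)
      (hzinj.mono (by
        intro c hc
        rw [mem_coe, mem_range] at *
        omega)) (by
        intro c hc
        have := (h.2 c (by rw [mem_range] at hc; omega)).1
        exact ⟨(mem_sdiff.1 this.2.1).1, this.2.2⟩) hdep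
    have hZn : ∀ c ∈ Z, c < n := fun c hc => by
      have := hZ hc
      rw [mem_range] at this
      omega
    apply no_closed2 a b h hF hmin Z f (fun c hc => mem_range.2 (hZn c hc)) hne hf hfix
    intro c hc
    have hfc : f c ∈ Z := hf ▸ mem_image_of_mem f hc
    exact ⟨(h.2 (f c) (hZn _ hfc)).1.1, (h.2 c (hZn _ hc)).1.2.1, hE c hc⟩

theorem kstar_eq {r1 r2 : Finset α → ℕ} (h1 : IsRF r1) (h2 : IsRF r2) {I J : Finset α}
    (hI1 : Ind r1 I) (hI2 : Ind r2 I) (hJ1 : Ind r1 J) (hJ2 : Ind r2 J) (hc : I.card = J.card)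
    (p : ℕ) (hp : 0 < p) (a b : α → ℝ) (hb : ∀ y, 0 ≤ b y)
    (hw : (1 + 1 / (p : ℝ)) * ∑ y ∈ I \ J, b y < ∑ z ∈ J \ I, a z) :
    ∃ A B : Finset α, A ⊆ J \ I ∧ B ⊆ I \ J ∧ A.card + B.card ≤ 2 * p + 1 ∧
      Ind r1 ((I \ B) ∪ A) ∧ Ind r2 ((I \ B) ∪ A) ∧ ∑ y ∈ B, b y < ∑ z ∈ A, a z := by
  classical
  have hpR : (0 : ℝ) < p := by exact_mod_cast hp
  set b' : α → ℝ := fun y => (1 + 1 / (p : ℝ)) * b y with hb'
  have hex : ∃ n, ∃ z y, IsAlt (Edge r1 I J) (Edge r2 I J) n z y ∧ 0 < wt a b' n z y := by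
    obtain ⟨n, z, y, hh⟩ := exists_walk h1 h2 hI1 hI2 hJ1 hJ2 hc a b' (by
      rw [hb', ← Finset.mul_sum]
      exact hw)
    exact ⟨n, z, y, hh⟩
  set n := Nat.find hex with hn
  obtain ⟨z, y, hwalk, hF⟩ := Nat.find_spec hex
  have hmin : ∀ n' z' y', IsAlt (Edge r1 I J) (Edge r2 I J) n' z' y' → n' < n →
      wt a b' n' z' y' ≤ 0 := by
    intro n' z' y' hw' hn'
    by_contra hcon
    push Not at hcon
    exact Nat.find_min hex hn' ⟨z', y', hw', hcon⟩
  have hnpos : 0 < n := hwalk.1
  rcases Nat.lt_or_ge p n with hpn | hpn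
  · -- windows
    have hwin : ∃ s, ∑ t ∈ range (p + 1), b (y ((t + s) % n)) < ∑ t ∈ range p, a (z ((t + s) % n)) := by
      by_contra hcon
      push Not at hcon
      have e1 : ∑ s ∈ range n, ∑ t ∈ range p, a (z ((t + s) % n)) ≤
          ∑ s ∈ range n, ∑ t ∈ range (p + 1), b (y ((t + s) % n)) :=
        Finset.sum_le_sum (fun s _ => hcon s)
      rw [Finset.sum_comm, Finset.sum_comm (s := range n) (t := range (p + 1))] at e1
      have e2 : ∀ t, ∑ s ∈ range n, a (z ((t + s) % n)) = ∑ s ∈ range n, a (z s) := by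
        intro t
        rw [← sum_rot (φ := fun s => a (z s)) n t]
        apply Finset.sum_congr rfl
        intro s _
        rw [Nat.add_comm]
      have e3 : ∀ t, ∑ s ∈ range n, b (y ((t + s) % n)) = ∑ s ∈ range n, b (y s) := by
        intro t
        rw [← sum_rot (φ := fun s => b (y s)) n t]
        apply Finset.sum_congr rfl
        intro s _
        rw [Nat.add_comm]
      simp only [e2, e3, sum_const, card_range, nsmul_eq_mul] at e1
      have e4 : wt a b' n z y = ∑ s ∈ range n, a (z s) - (1 + 1 / (p : ℝ)) * ∑ s ∈ range n, b (y s) := by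
        unfold wt
        rw [Finset.sum_sub_distrib, hb', ← Finset.mul_sum]
      have hF' : 0 < wt a b' n z y := hF
      rw [e4] at hF'
      have e5 : (p : ℝ) * (∑ s ∈ range n, a (z s) - (1 + 1 / (p : ℝ)) * ∑ s ∈ range n, b (y s)) =
          p * ∑ s ∈ range n, a (z s) - (p + 1) * ∑ s ∈ range n, b (y s) := by
        field_simp
      have e6 := mul_pos hpR hF'
      rw [e5] at e6
      push_cast at e1
      linarith
    obtain ⟨s, hs⟩ := hwin
    set z' : ℕ → α := fun t => z ((t + s) % n) with hz'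
    set y' : ℕ → α := fun t => y ((t + s) % n) with hy'
    have hwalk' : IsAlt (Edge r1 I J) (Edge r2 I J) n z' y' := alt_rot hwalk s
    have hF' : 0 < wt a b' n z' y' := by
      rw [wt_rot]
      exact hF
    obtain ⟨hzi, hyi, hwi⟩ := window_ind h1 h2 hI1 hI2 a b' hwalk' hF' hmin
    have hw1 := hwi p hpn.le
    refine ⟨(range p).image z', (range (p + 1)).image y', ?_, ?_, ?_, ?_, ?_, ?_⟩
    · intro e he
      rw [mem_image] at he
      obtain ⟨t, ht, rfl⟩ := he
      rw [mem_range] at ht
      exact (hwalk'.2 t (by omega)).1.1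
    · intro e he
      rw [mem_image] at he
      obtain ⟨t, ht, rfl⟩ := he
      rw [mem_range] at ht
      exact (hwalk'.2 t (by omega)).1.2.1
    · have c1 := card_image_le (s := range p) (f := z')
      have c2 := card_image_le (s := range (p + 1)) (f := y')
      rw [card_range] at c1 c2
      omega
    · apply ind_subset h1 hw1.1
      apply union_subset_union_left
      apply sdiff_subset_sdiff (subset_refl I)
      intro e he
      rw [mem_image] at he ⊢
      obtain ⟨t, ht, rfl⟩ := he
      rw [mem_range] at ht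
      refine ⟨t + 1, by rw [mem_range]; omega, ?_⟩
      rw [Nat.mod_eq_of_lt (by omega)]
    · apply ind_subset h2 hw1.2
      apply union_subset_union_left
      apply sdiff_subset_sdiff (subset_refl I)
      apply image_subset_image
      intro t ht
      rw [mem_range] at *
      omega
    · rw [Finset.sum_image (hzi.mono (by
        intro c hc
        rw [mem_coe, mem_range] at *
        omega)), Finset.sum_image (hyi.mono (by
        intro c hc
        rw [mem_coe, mem_range] at *
        omega))]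
      exact hs
  · -- the whole walk
    obtain ⟨hzi, hyi, hwi⟩ := window_ind h1 h2 hI1 hI2 a b' hwalk hF hmin
    have hw1 := hwi n (le_refl n)
    refine ⟨(range n).image z, (range n).image y, ?_, ?_, ?_, ?_, ?_, ?_⟩
    · intro e he
      rw [mem_image] at he
      obtain ⟨t, ht, rfl⟩ := he
      rw [mem_range] at ht
      exact (hwalk.2 t ht).1.1
    · intro e he
      rw [mem_image] at he
      obtain ⟨t, ht, rfl⟩ := he
      rw [mem_range] at ht
      exact (hwalk.2 t ht).1.2.1
    · have c1 := card_image_le (s := range n) (f := z)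
      have c2 := card_image_le (s := range n) (f := y)
      rw [card_range] at c1 c2
      omega
    · apply ind_subset h1 hw1.1
      apply union_subset_union_left
      apply sdiff_subset_sdiff (subset_refl I)
      intro e he
      rw [mem_image] at he ⊢
      obtain ⟨t, ht, rfl⟩ := he
      exact ⟨(t + 1) % n, mem_range.2 (Nat.mod_lt _ hnpos), rfl⟩
    · exact hw1.2
    · rw [Finset.sum_image hzi, Finset.sum_image hyi]
      have e4 : wt a b' n z y = ∑ s ∈ range n, a (z s) - (1 + 1 / (p : ℝ)) * ∑ s ∈ range n, b (y s) := by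
        unfold wt
        rw [Finset.sum_sub_distrib, hb', ← Finset.mul_sum]
      have hF' : 0 < wt a b' n z y := hF
      rw [e4] at hF'
      have e5 : 0 ≤ ∑ s ∈ range n, b (y s) := Finset.sum_nonneg (fun s _ => hb _)
      have e6 : 0 ≤ 1 / (p : ℝ) := by positivity
      nlinarith

end Pool.Agent.Helper151_AB
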