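import Mathlib
import Pool.Agent.Helper151_AB.KStar
import Pool.Agent.Helper151_AB.PavExt

set_option autoImplicit false

/-! Weighted exchanges of bounded size, for common independent sets of any sizes. -/

namespace Pool.Agent.Helper151_AB

open Finset
open Pool.Agent.H478R3.Borsuk (IsRF inter)

variable {α : Type} [DecidableEq α]

theorem sum_elim_zero {β : Type} (a : α → ℝ) (X : Finset (α ⊕ β)) :
    ∑ p ∈ X, Sum.elim a (fun _ => (0 : ℝ)) p = ∑ x ∈ X.toLeft, a x := by
  conv_lhs => rw [← toLeft_disjSum_toRight (u := X)]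
  rw [Finset.sum_disjSum]
  simp

theorem kstar {r1 r2 : Finset α → ℕ} (h1 : IsRF r1) (h2 : IsRF r2) {I J : Finset α}
    (hI1 : Ind r1 I) (hI2 : Ind r2 I) (hJ1 : Ind r1 J) (hJ2 : Ind r2 J)
    (p : ℕ) (hp : 0 < p) (a b : α → ℝ) (hb : ∀ y, 0 ≤ b y)
    (hw : (1 + 1 / (p : ℝ)) * ∑ y ∈ I \ J, b y < ∑ z ∈ J \ I, a z) :
    ∃ A B : Finset α, A ⊆ J \ I ∧ B ⊆ I \ J ∧ A.card + B.card ≤ 2 * p + 1 ∧
      Ind r1 ((I \ B) ∪ A) ∧ Ind r2 ((I \ B) ∪ A) ∧ ∑ y ∈ B, b y < ∑ z ∈ A, a z := by
  classical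
  set D1 : Finset (Fin J.card ⊕ Fin I.card) := univ.image Sum.inl with hD1
  set D2 : Finset (Fin J.card ⊕ Fin I.card) := univ.image Sum.inr with hD2
  have cD1 : D1.card = J.card := by
    rw [hD1, card_image_of_injective _ Sum.inl_injective]
    simp
  have cD2 : D2.card = I.card := by
    rw [hD2, card_image_of_injective _ Sum.inr_injective]
    simp
  set R := I.card + J.card with hR
  have hind : ∀ (r : Finset α → ℕ) (X : Finset α) (D : Finset (Fin J.card ⊕ Fin I.card)), Ind r X →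
      X.card + D.card = R → Ind (ext R r) (X.disjSum D) := by
    intro r X D hX hXD
    unfold Ind ext at *
    rw [card_disjSum, toLeft_disjSum, toRight_disjSum]
    omega
  have hsd : ∀ (X Y : Finset α) (D D' : Finset (Fin J.card ⊕ Fin I.card)),
      ((X.disjSum D) \ (Y.disjSum D')).toLeft = X \ Y := by
    intro X Y D D'
    ext e
    simp
  obtain ⟨A, B, hA, hB, hAB, hA1, hA2, hlt⟩ := kstar_eq (ext_isRF R h1) (ext_isRF R h2)
    (I := I.disjSum D1) (J := J.disjSum D2)
    (hind r1 I D1 hI1 (by omega)) (hind r2 I D1 hI2 (by omega))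
    (hind r1 J D2 hJ1 (by omega)) (hind r2 J D2 hJ2 (by omega))
    (by rw [card_disjSum, card_disjSum]; omega) p hp
    (Sum.elim a (fun _ => 0)) (Sum.elim b (fun _ => 0))
    (by
      rintro (x | x)
      · exact hb x
      · exact le_refl _)
    (by
      rw [sum_elim_zero, sum_elim_zero, hsd, hsd]
      exact hw)
  rw [sum_elim_zero, sum_elim_zero] at hlt
  have hunion : ((I.disjSum D1 \ B) ∪ A).toLeft = (I \ B.toLeft) ∪ A.toLeft := by
    ext e
    simp
  refine ⟨A.toLeft, B.toLeft, ?_, ?_, ?_, ?_, ?_, hlt⟩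
  · rw [← hsd J I D2 D1]
    exact toLeft_subset_toLeft hA
  · rw [← hsd I J D1 D2]
    exact toLeft_subset_toLeft hB
  · have c1 := card_toLeft_add_card_toRight (u := A)
    have c2 := card_toLeft_add_card_toRight (u := B)
    omega
  · rw [← hunion]
    exact ind_of_ext h1 hA1
  · rw [← hunion]
    exact ind_of_ext h2 hA2

end Pool.Agent.Helper151_AB
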