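import Mathlib
import Pool.Agent.Helper151_AB.KGen

set_option autoImplicit false

/-! Merging two common independent sets into one, with control of an exponential potential. -/

namespace Pool.Agent.Helper151_AB

open Finset
open Pool.Agent.H478R3.Borsuk (IsRF inter)

variable {α : Type} [DecidableEq α]

section Merge

variable {κ : Type} [Fintype κ] (w : κ → ℝ) (Y : κ → Finset α) (s β : ℝ)

/-- The exponent for the test set number `j`. -/
noncomputable def expo (I J : Finset α) (j : κ) : ℝ :=
  -(s * (2 * ((I ∩ J ∩ Y j).card : ℝ) +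
    (1 - β) * ((((I \ J) ∩ Y j).card : ℝ) + (((J \ I) ∩ Y j).card : ℝ))))

/-- The potential. -/
noncomputable def pot (I J : Finset α) : ℝ := ∑ j, w j * Real.exp (expo Y s β I J j)

/-- The weight of an element. -/
noncomputable def gw (I J : Finset α) (e : α) : ℝ :=
  ∑ j, (if e ∈ Y j then w j * Real.exp (expo Y s β I J j) else 0)

theorem expo_symm (I J : Finset α) (j : κ) : expo Y s β I J j = expo Y s β J I j := by
  unfold expo
  rw [inter_comm I J]
  ring

theorem pot_symm (I J : Finset α) : pot w Y s β I J = pot w Y s β J I := by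
  unfold pot
  apply Finset.sum_congr rfl
  intro j _
  rw [expo_symm]

theorem gw_symm (I J : Finset α) (e : α) : gw w Y s β I J e = gw w Y s β J I e := by
  unfold gw
  apply Finset.sum_congr rfl
  intro j _
  rw [expo_symm]

theorem gw_nonneg (hw : ∀ j, 0 ≤ w j) (I J : Finset α) (e : α) : 0 ≤ gw w Y s β I J e := by
  unfold gw
  apply Finset.sum_nonneg
  intro j _
  split_ifs
  · exact mul_nonneg (hw j) (Real.exp_pos _).le
  · exact le_refl _

theorem sum_gw (I J A : Finset α) : ∑ e ∈ A, gw w Y s β I J e =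
    ∑ j, w j * Real.exp (expo Y s β I J j) * ((A ∩ Y j).card : ℝ) := by
  unfold gw
  rw [Finset.sum_comm]
  apply Finset.sum_congr rfl
  intro j _
  rw [← Finset.sum_filter, Finset.sum_const, nsmul_eq_mul, mul_comm]
  congr 2

variable {w Y s β}

theorem expo_step {I J A B : Finset α} (hA : A ⊆ J \ I) (hB : B ⊆ I \ J) (j : κ) :
    expo Y s β ((I \ B) ∪ A) J j = expo Y s β I J j +
      (-(s * (1 + β)) * ((A ∩ Y j).card : ℝ) + s * (1 - β) * ((B ∩ Y j).card : ℝ)) := by
  have e1 : ((I \ B) ∪ A) ∩ J ∩ Y j = (I ∩ J ∩ Y j) ∪ (A ∩ Y j) := by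
    ext e
    have hAe := @hA e
    have hBe := @hB e
    simp only [mem_inter, mem_union, mem_sdiff] at *
    tauto
  have e2 : (((I \ B) ∪ A) \ J) ∩ Y j = ((I \ J) ∩ Y j) \ (B ∩ Y j) := by
    ext e
    have hAe := @hA e
    have hBe := @hB e
    simp only [mem_inter, mem_union, mem_sdiff] at *
    tauto
  have e3 : (J \ ((I \ B) ∪ A)) ∩ Y j = ((J \ I) ∩ Y j) \ (A ∩ Y j) := by
    ext e
    have hAe := @hA e
    have hBe := @hB e
    simp only [mem_inter, mem_union, mem_sdiff] at *
    tauto
  have d1 : Disjoint (I ∩ J ∩ Y j) (A ∩ Y j) := by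
    rw [disjoint_left]
    intro e he he'
    have hAe := @hA e
    simp only [mem_inter, mem_sdiff] at *
    tauto
  have c1 := card_union_of_disjoint d1
  have c2 := card_sdiff_add_card_eq_card (show B ∩ Y j ⊆ (I \ J) ∩ Y j from
    inter_subset_inter_right hB)
  have c3 := card_sdiff_add_card_eq_card (show A ∩ Y j ⊆ (J \ I) ∩ Y j from
    inter_subset_inter_right hA)
  unfold expo
  rw [e1, e2, e3, c1, ← c2, ← c3]
  push_cast
  ring

theorem pot_step (hw : ∀ j, 0 ≤ w j) (hs : 0 ≤ s) (hβ0 : 0 ≤ β) (hβ1 : β ≤ 1) {p : ℕ}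
    (hps : (2 * p + 1) * (2 * s) ≤ 1)
    {I J A B : Finset α} (hA : A ⊆ J \ I) (hB : B ⊆ I \ J) (hAB : A.card + B.card ≤ 2 * p + 1) :
    pot w Y s β ((I \ B) ∪ A) J ≤ pot w Y s β I J -
      (∑ e ∈ A, (s * (1 + β) - 4 * (2 * p + 1) * s ^ 2) * gw w Y s β I J e -
        ∑ e ∈ B, (s * (1 - β) + 4 * (2 * p + 1) * s ^ 2) * gw w Y s β I J e) := by
  rw [← Finset.mul_sum, ← Finset.mul_sum, sum_gw, sum_gw, Finset.mul_sum, Finset.mul_sum]
  unfold pot
  rw [← Finset.sum_sub_distrib, ← Finset.sum_sub_distrib]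
  apply Finset.sum_le_sum
  intro j _
  rw [expo_step hA hB, Real.exp_add]
  set W := w j * Real.exp (expo Y s β I J j) with hW
  have hW0 : 0 ≤ W := mul_nonneg (hw j) (Real.exp_pos _).le
  set nA : ℝ := ((A ∩ Y j).card : ℝ) with hnA
  set nB : ℝ := ((B ∩ Y j).card : ℝ) with hnB
  have nA0 : 0 ≤ nA := Nat.cast_nonneg _
  have nB0 : 0 ≤ nB := Nat.cast_nonneg _
  have hn : nA + nB ≤ 2 * p + 1 := by
    have c1 := card_le_card (inter_subset_left (s₁ := A) (s₂ := Y j))
    have c2 := card_le_card (inter_subset_left (s₁ := B) (s₂ := Y j))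
    have : (A ∩ Y j).card + (B ∩ Y j).card ≤ 2 * p + 1 := by omega
    rw [hnA, hnB]
    exact_mod_cast this
  set Δ : ℝ := -(s * (1 + β)) * nA + s * (1 - β) * nB with hΔ
  have hN : 0 ≤ 2 * s * (nA + nB) := by positivity
  have hΔabs : |Δ| ≤ 2 * s * (nA + nB) := by
    rw [abs_le]
    constructor
    · rw [hΔ]
      nlinarith [mul_nonneg hs nA0, mul_nonneg hs nB0, mul_nonneg (mul_nonneg hs nA0) (sub_nonneg.2 hβ1),
        mul_nonneg (mul_nonneg hs nB0) (sub_nonneg.2 hβ1)]
    · rw [hΔ]
      nlinarith [mul_nonneg hs nA0, mul_nonneg hs nB0, mul_nonneg (mul_nonneg hs nA0) hβ0,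
        mul_nonneg (mul_nonneg hs nB0) hβ0]
  have hΔ1 : |Δ| ≤ 1 := by
    refine hΔabs.trans ?_
    have : 2 * s * (nA + nB) ≤ (2 * p + 1) * (2 * s) := by nlinarith
    linarith
  have hexp := Real.abs_exp_sub_one_sub_id_le hΔ1
  have hexp' : Real.exp Δ ≤ 1 + Δ + Δ ^ 2 := by
    have := (abs_le.1 hexp).2
    linarith
  have hsq : Δ ^ 2 ≤ 4 * (2 * p + 1) * s ^ 2 * (nA + nB) := by
    have h1 : Δ ^ 2 ≤ (2 * s * (nA + nB)) ^ 2 := by
      rw [← sq_abs]
      exact pow_le_pow_left₀ (abs_nonneg _) hΔabs 2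
    have h2 : (2 * s * (nA + nB)) ^ 2 = 4 * s ^ 2 * (nA + nB) * (nA + nB) := by ring
    have h3 : 4 * s ^ 2 * (nA + nB) * (nA + nB) ≤ 4 * s ^ 2 * (nA + nB) * (2 * p + 1) := by
      apply mul_le_mul_of_nonneg_left hn
      positivity
    linarith
  have hfin : Real.exp Δ ≤ 1 - ((s * (1 + β) - 4 * (2 * p + 1) * s ^ 2) * nA -
      (s * (1 - β) + 4 * (2 * p + 1) * s ^ 2) * nB) := by
    rw [hΔ] at hexp' hsq ⊢
    nlinarith
  have hmul := mul_le_mul_of_nonneg_left hfin hW0
  have e0 : w j * (Real.exp (expo Y s β I J j) * Real.exp Δ) = W * Real.exp Δ := by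
    rw [hW]; ring
  rw [e0]
  refine hmul.trans (le_of_eq ?_)
  ring

/-- Merging two common independent sets. -/
theorem merge {r1 r2 : Finset α → ℕ} (h1 : IsRF r1) (h2 : IsRF r2)
    (hw : ∀ j, 0 ≤ w j) (hs : 0 < s) (hβ0 : 0 ≤ β) (hβ1 : β ≤ 1) {p : ℕ} (hp : 0 < p)
    (hps : (2 * p + 1) * (2 * s) ≤ 1)
    (hβ : (1 + 1 / (p : ℝ)) * (s * (1 - β) + 4 * (2 * p + 1) * s ^ 2) <
      s * (1 + β) - 4 * (2 * p + 1) * s ^ 2) :
    ∀ (m : ℕ) (I J : Finset α), (I \ J).card + (J \ I).card < m →
      Ind r1 I → Ind r2 I → Ind r1 J → Ind r2 J →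
      ∃ K, K ⊆ I ∪ J ∧ Ind r1 K ∧ Ind r2 K ∧
        ∑ j, w j * Real.exp (-(2 * s * ((K ∩ Y j).card : ℝ))) ≤ pot w Y s β I J := by
  intro m
  induction m with
  | zero =>
    intro I J hm
    exact absurd hm (Nat.not_lt_zero _)
  | succ m ih =>
    -- the step, if the weight of `J \ I` is at least that of `I \ J`
    have hstep : ∀ I J : Finset α, (I \ J).card + (J \ I).card < m + 1 →
        Ind r1 I → Ind r2 I → Ind r1 J → Ind r2 J →
        ∑ e ∈ I \ J, gw w Y s β I J e ≤ ∑ e ∈ J \ I, gw w Y s β I J e →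
        0 < ∑ e ∈ J \ I, gw w Y s β I J e →
        ∃ K, K ⊆ I ∪ J ∧ Ind r1 K ∧ Ind r2 K ∧
          ∑ j, w j * Real.exp (-(2 * s * ((K ∩ Y j).card : ℝ))) ≤ pot w Y s β I J := by
      intro I J hm hI1 hI2 hJ1 hJ2 hG hG0
      have hζ : 0 ≤ s * (1 - β) + 4 * (2 * p + 1) * s ^ 2 := by
        have := sub_nonneg.2 hβ1
        positivity
      obtain ⟨A, B, hA, hB, hAB, hA1, hA2, hlt⟩ := kstar h1 h2 hI1 hI2 hJ1 hJ2 p hp
        (fun e => (s * (1 + β) - 4 * (2 * p + 1) * s ^ 2) * gw w Y s β I J e)
        (fun e => (s * (1 - β) + 4 * (2 * p + 1) * s ^ 2) * gw w Y s β I J e)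
        (fun e => mul_nonneg hζ (gw_nonneg w Y s β hw I J e))
        (by
          rw [← Finset.mul_sum, ← Finset.mul_sum, ← mul_assoc]
          have hp1 : 0 ≤ 1 + 1 / (p : ℝ) := by positivity
          have e1 := mul_le_mul_of_nonneg_left hG (mul_nonneg hp1 hζ)
          have e2 := mul_lt_mul_of_pos_right hβ hG0
          linarith)
      have hpot := pot_step (Y := Y) hw hs.le hβ0 hβ1 hps hA hB hAB
      have hAne : A.Nonempty := by
        rw [nonempty_iff_ne_empty]
        rintro rfl
        rw [sum_empty] at hlt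
        have : 0 ≤ ∑ y ∈ B, (s * (1 - β) + 4 * (2 * p + 1) * s ^ 2) * gw w Y s β I J y :=
          Finset.sum_nonneg (fun e _ => mul_nonneg hζ (gw_nonneg w Y s β hw I J e))
        linarith
      have hd1 : ((I \ B) ∪ A) \ J ⊆ I \ J := by
        intro e he
        have hAe := @hA e
        simp only [mem_union, mem_sdiff] at *
        tauto
      have hd2 : J \ ((I \ B) ∪ A) = (J \ I) \ A := by
        ext e
        have hBe := @hB e
        simp only [mem_union, mem_sdiff] at *
        tauto
      have c1 := card_le_card hd1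
      have c2 := card_sdiff_add_card_eq_card hA
      have c3 := hAne.card_pos
      obtain ⟨K, hK, hK1, hK2, hKle⟩ := ih ((I \ B) ∪ A) J (by rw [hd2]; omega) hA1 hA2 hJ1 hJ2
      refine ⟨K, ?_, hK1, hK2, ?_⟩
      · intro e he
        have := hK he
        have hAe := @hA e
        simp only [mem_union, mem_sdiff] at *
        tauto
      · linarith
    intro I J hm hI1 hI2 hJ1 hJ2
    rcases le_total (∑ e ∈ I \ J, gw w Y s β I J e) (∑ e ∈ J \ I, gw w Y s β I J e) with hG | hG
    · rcases (Finset.sum_nonneg (fun e (_ : e ∈ J \ I) => gw_nonneg w Y s β hw I J e)).lt_or_eq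
        with hG0 | hG0
      · exact hstep I J hm hI1 hI2 hJ1 hJ2 hG hG0
      · -- nothing to do
        have hGI : ∑ e ∈ I \ J, gw w Y s β I J e = 0 := by
          apply le_antisymm
          · rw [← hG0] at hG
            exact hG
          · exact Finset.sum_nonneg (fun e _ => gw_nonneg w Y s β hw I J e)
        refine ⟨I, subset_union_left, hI1, hI2, ?_⟩
        unfold pot
        apply Finset.sum_le_sum
        intro j _
        rcases (hw j).lt_or_eq with hwj | hwj
        · have hz : ∀ X : Finset α, ∑ e ∈ X, gw w Y s β I J e = 0 → (X ∩ Y j).card = 0 := by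
            intro X hX
            rw [sum_gw] at hX
            rw [Finset.sum_eq_zero_iff_of_nonneg (fun i _ =>
              mul_nonneg (mul_nonneg (hw i) (Real.exp_pos _).le) (Nat.cast_nonneg _))] at hX
            have h3 := hX j (mem_univ j)
            have h4 : w j * Real.exp (expo Y s β I J j) ≠ 0 :=
              (mul_pos hwj (Real.exp_pos _)).ne'
            have h5 := (mul_eq_zero.1 h3).resolve_left h4
            exact_mod_cast h5
          have z1 := hz _ hGI
          have z2 := hz _ hG0.symm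
          apply mul_le_mul_of_nonneg_left _ (hw j)
          apply Real.exp_le_exp.2
          unfold expo
          rw [z1, z2]
          have : I ∩ Y j = (I ∩ J ∩ Y j) ∪ ((I \ J) ∩ Y j) := by
            ext e
            simp only [mem_inter, mem_union, mem_sdiff]
            tauto
          have c1 := card_union_le (I ∩ J ∩ Y j) ((I \ J) ∩ Y j)
          rw [← this, z1] at c1
          have c2 : (I ∩ J ∩ Y j).card ≤ (I ∩ Y j).card := by
            rw [this]
            exact card_le_card subset_union_left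
          have c3 : (I ∩ Y j).card = (I ∩ J ∩ Y j).card := by omega
          rw [c3]
          push_cast
          apply le_of_eq
          ring
        · rw [← hwj]
          simp
    · rcases (Finset.sum_nonneg (fun e (_ : e ∈ I \ J) => gw_nonneg w Y s β hw I J e)).lt_or_eq
        with hG0 | hG0
      · have e1 : ∀ X : Finset α, ∑ e ∈ X, gw w Y s β I J e = ∑ e ∈ X, gw w Y s β J I e :=
          fun X => Finset.sum_congr rfl (fun e _ => gw_symm w Y s β I J e)
        rw [e1, e1] at hG
        rw [e1] at hG0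
        obtain ⟨K, hK, hK1, hK2, hKle⟩ := hstep J I (by omega) hJ1 hJ2 hI1 hI2 hG hG0
        refine ⟨K, by rwa [union_comm], hK1, hK2, ?_⟩
        rw [pot_symm]
        exact hKle
      · -- both weights vanish
        have hGJ : ∑ e ∈ J \ I, gw w Y s β I J e = 0 := by
          apply le_antisymm
          · rw [← hG0] at hG
            exact hG
          · exact Finset.sum_nonneg (fun e _ => gw_nonneg w Y s β hw I J e)
        refine ⟨I, subset_union_left, hI1, hI2, ?_⟩
        unfold pot
        apply Finset.sum_le_sum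
        intro j _
        rcases (hw j).lt_or_eq with hwj | hwj
        · have hz : ∀ X : Finset α, ∑ e ∈ X, gw w Y s β I J e = 0 → (X ∩ Y j).card = 0 := by
            intro X hX
            rw [sum_gw] at hX
            rw [Finset.sum_eq_zero_iff_of_nonneg (fun i _ =>
              mul_nonneg (mul_nonneg (hw i) (Real.exp_pos _).le) (Nat.cast_nonneg _))] at hX
            have h3 := hX j (mem_univ j)
            have h4 : w j * Real.exp (expo Y s β I J j) ≠ 0 :=
              (mul_pos hwj (Real.exp_pos _)).ne'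
            have h5 := (mul_eq_zero.1 h3).resolve_left h4
            exact_mod_cast h5
          have z1 := hz _ hG0.symm
          have z2 := hz _ hGJ
          apply mul_le_mul_of_nonneg_left _ (hw j)
          apply Real.exp_le_exp.2
          unfold expo
          rw [z1, z2]
          have : I ∩ Y j = (I ∩ J ∩ Y j) ∪ ((I \ J) ∩ Y j) := by
            ext e
            simp only [mem_inter, mem_union, mem_sdiff]
            tauto
          have c1 := card_union_le (I ∩ J ∩ Y j) ((I \ J) ∩ Y j)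
          rw [← this, z1] at c1
          have c2 : (I ∩ J ∩ Y j).card ≤ (I ∩ Y j).card := by
            rw [this]
            exact card_le_card subset_union_left
          have c3 : (I ∩ Y j).card = (I ∩ J ∩ Y j).card := by omega
          rw [c3]
          push_cast
          apply le_of_eq
          ring
        · rw [← hwj]
          simp

end Merge

end Pool.Agent.Helper151_AB
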