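import Mathlib
import Pool.Agent.Helper151_AB.Merge

set_option autoImplicit false

/-! Merging `2 ^ L` common independent sets into one. -/

namespace Pool.Agent.Helper151_AB

open Finset
open Pool.Agent.H478R3.Borsuk (IsRF inter)

variable {α : Type} [DecidableEq α]

theorem merge2 {κ : Type} [Fintype κ] {w : κ → ℝ} {Y : κ → Finset α} {s : ℝ}
    {r1 r2 : Finset α → ℕ} (h1 : IsRF r1) (h2 : IsRF r2)
    (hw : ∀ j, 0 ≤ w j) (hs : 0 < s) (hs1 : Real.sqrt s ≤ 1 / 11)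
    (I J : Finset α) (hI1 : Ind r1 I) (hI2 : Ind r2 I) (hJ1 : Ind r1 J) (hJ2 : Ind r2 J) :
    ∃ K, K ⊆ I ∪ J ∧ Ind r1 K ∧ Ind r2 K ∧
      ∑ j, w j * Real.exp (-(2 * s * ((K ∩ Y j).card : ℝ))) ≤
      ∑ j, w j * Real.exp (-(s * (1 - 11 * Real.sqrt s) *
        (((I ∩ Y j).card : ℝ) + ((J ∩ Y j).card : ℝ)))) := by
  set u := Real.sqrt s with hu
  have hu0 : 0 < u := Real.sqrt_pos.2 hs
  have hus : s = u ^ 2 := (Real.sq_sqrt hs.le).symm
  obtain ⟨p, hp⟩ : ∃ p : ℕ, p = ⌈1 / u⌉₊ := ⟨_, rfl⟩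
  have hp1 : 1 / u ≤ p := by
    rw [hp]
    exact Nat.le_ceil _
  have hp2 : (p : ℝ) < 1 / u + 1 := by
    rw [hp]
    exact Nat.ceil_lt_add_one (by positivity)
  have hppos : (0 : ℝ) < p := lt_of_lt_of_le (by positivity) hp1
  have hp0 : 0 < p := by exact_mod_cast hppos
  have hup : 1 ≤ p * u := by
    rw [div_le_iff₀ hu0] at hp1
    exact hp1
  have hup2 : p * u ≤ 1 + u := by
    have := mul_lt_mul_of_pos_right hp2 hu0
    rw [add_mul, div_mul_cancel₀ _ hu0.ne'] at this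
    linarith
  have hinvp : 1 / (p : ℝ) ≤ u := by
    rw [div_le_iff₀ hppos]
    linarith
  have hinvp0 : 0 ≤ 1 / (p : ℝ) := by positivity
  set ζ' : ℝ := 4 * (2 * p + 1) * s with hζ'
  have hζ : ζ' ≤ 9.2 * u := by
    rw [hζ', hus]
    nlinarith
  have hζ0 : 0 ≤ ζ' := by
    rw [hζ']
    positivity
  obtain ⟨K, hK, hK1, hK2, hKle⟩ := merge (Y := Y) (s := s) (β := 11 * u) h1 h2 hw hs
    (by positivity) (by linarith) hp0
    (by
      have : (2 * (p : ℝ) + 1) * (2 * s) = 4 * (p * u) * u + 2 * u ^ 2 := by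
        rw [hus]; ring
      rw [this]
      nlinarith)
    (by
      have e1 : (1 + 1 / (p : ℝ)) * (s * (1 - 11 * u) + 4 * (2 * p + 1) * s ^ 2) =
          s * ((1 + 1 / (p : ℝ)) * (1 - 11 * u + ζ')) := by
        rw [hζ']; ring
      have e2 : s * (1 + 11 * u) - 4 * (2 * p + 1) * s ^ 2 = s * (1 + 11 * u - ζ') := by
        rw [hζ']; ring
      rw [e1, e2]
      apply mul_lt_mul_of_pos_left _ hs
      have e3 : 1 / (p : ℝ) * (1 - 11 * u + ζ') ≤ u * 1 := by
        apply mul_le_mul hinvp _ _ hu0.le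
        · linarith
        · linarith
      nlinarith)
    _ I J (Nat.lt_succ_self _) hI1 hI2 hJ1 hJ2
  refine ⟨K, hK, hK1, hK2, hKle.trans ?_⟩
  unfold pot
  apply Finset.sum_le_sum
  intro j _
  apply mul_le_mul_of_nonneg_left _ (hw j)
  apply Real.exp_le_exp.2
  unfold expo
  have c1 : (I ∩ Y j).card = (I ∩ J ∩ Y j).card + ((I \ J) ∩ Y j).card := by
    rw [← card_union_of_disjoint]
    · congr 1
      ext e
      simp only [mem_inter, mem_union, mem_sdiff]
      tauto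
    · rw [disjoint_left]
      intro e he he'
      simp only [mem_inter, mem_sdiff] at *
      tauto
  have c2 : (J ∩ Y j).card = (I ∩ J ∩ Y j).card + ((J \ I) ∩ Y j).card := by
    rw [← card_union_of_disjoint]
    · congr 1
      ext e
      simp only [mem_inter, mem_union, mem_sdiff]
      tauto
    · rw [disjoint_left]
      intro e he he'
      simp only [mem_inter, mem_sdiff] at *
      tauto
  rw [c1, c2]
  push_cast
  have n1 : (0 : ℝ) ≤ (I ∩ J ∩ Y j).card := Nat.cast_nonneg _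
  have := mul_nonneg (mul_nonneg hs.le n1) hu0.le
  nlinarith

theorem level {κ : Type} [Fintype κ] {Y : κ → Finset α} {ψ : ℝ}
    {r1 r2 : Finset α → ℕ} (h1 : IsRF r1) (h2 : IsRF r2)
    (hψ : 0 < ψ) (hψ1 : Real.sqrt (ψ / 2) ≤ 1 / 11) (S : Finset α)
    {ι : Type} [DecidableEq ι] (F F' : ι → Finset α) (hF : ∀ a, F a ⊆ S ∧ Ind r1 (F a) ∧ Ind r2 (F a))
    (hF' : ∀ a, F' a ⊆ S ∧ Ind r1 (F' a) ∧ Ind r2 (F' a)) (T : Finset ι) :
    ∀ (w : κ → ℝ), (∀ j, 0 ≤ w j) →
    ∃ G : ι → Finset α, (∀ a, G a ⊆ S ∧ Ind r1 (G a) ∧ Ind r2 (G a)) ∧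
      ∑ j, w j * Real.exp (-(ψ * ∑ a ∈ T, ((G a ∩ Y j).card : ℝ))) ≤
      ∑ j, w j * Real.exp (-(ψ / 2 * (1 - 11 * Real.sqrt (ψ / 2)) *
        ∑ a ∈ T, (((F a ∩ Y j).card : ℝ) + ((F' a ∩ Y j).card : ℝ)))) := by
  obtain ⟨ψ', hψ'⟩ : ∃ x, x = ψ / 2 * (1 - 11 * Real.sqrt (ψ / 2)) := ⟨_, rfl⟩
  rw [← hψ']
  induction T using Finset.induction_on with
  | empty =>
    intro w _
    refine ⟨F, hF, ?_⟩
    simp
  | insert b T hb ih =>
    intro w hw
    obtain ⟨G, hG, hGle⟩ := ih (fun j => w j * Real.exp (-(ψ' *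
      (((F b ∩ Y j).card : ℝ) + ((F' b ∩ Y j).card : ℝ)))))
      (fun j => mul_nonneg (hw j) (Real.exp_pos _).le)
    obtain ⟨K, hK, hK1, hK2, hKle⟩ := merge2 (Y := Y) (s := ψ / 2)
      (w := fun j => w j * Real.exp (-(ψ * ∑ a ∈ T, ((G a ∩ Y j).card : ℝ)))) h1 h2
      (fun j => mul_nonneg (hw j) (Real.exp_pos _).le) (by positivity) hψ1 (F b) (F' b)
      (hF b).2.1 (hF b).2.2 (hF' b).2.1 (hF' b).2.2
    refine ⟨Function.update G b K, ?_, ?_⟩
    · intro a
      by_cases hab : a = b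
      · subst hab
        rw [Function.update_self]
        exact ⟨hK.trans (union_subset (hF a).1 (hF' a).1), hK1, hK2⟩
      · rw [Function.update_of_ne hab]
        exact hG a
    · have e1 : ∀ j, ∑ a ∈ insert b T, ((Function.update G b K a ∩ Y j).card : ℝ) =
          ((K ∩ Y j).card : ℝ) + ∑ a ∈ T, ((G a ∩ Y j).card : ℝ) := by
        intro j
        rw [sum_insert hb, Function.update_self]
        congr 1
        apply Finset.sum_congr rfl
        intro a ha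
        rw [Function.update_of_ne]
        rintro rfl
        exact hb ha
      have e2 : ∀ j, w j * Real.exp (-(ψ * ∑ a ∈ insert b T,
          ((Function.update G b K a ∩ Y j).card : ℝ))) =
          w j * Real.exp (-(ψ * ∑ a ∈ T, ((G a ∩ Y j).card : ℝ))) *
          Real.exp (-(2 * (ψ / 2) * ((K ∩ Y j).card : ℝ))) := by
        intro j
        rw [e1, mul_assoc (w j), ← Real.exp_add]
        congr 2
        ring
      have e3 : ∀ j, w j * Real.exp (-(ψ' * ∑ a ∈ insert b T,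
          (((F a ∩ Y j).card : ℝ) + ((F' a ∩ Y j).card : ℝ)))) =
          w j * Real.exp (-(ψ' * (((F b ∩ Y j).card : ℝ) + ((F' b ∩ Y j).card : ℝ)))) *
          Real.exp (-(ψ' * ∑ a ∈ T, (((F a ∩ Y j).card : ℝ) + ((F' a ∩ Y j).card : ℝ)))) := by
        intro j
        rw [sum_insert hb, mul_assoc (w j), ← Real.exp_add]
        congr 2
        ring
      have e4 : ∀ j, w j * Real.exp (-(ψ * ∑ a ∈ T, ((G a ∩ Y j).card : ℝ))) *
          Real.exp (-(ψ / 2 * (1 - 11 * Real.sqrt (ψ / 2)) *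
            (((F b ∩ Y j).card : ℝ) + ((F' b ∩ Y j).card : ℝ)))) =
          w j * Real.exp (-(ψ' * (((F b ∩ Y j).card : ℝ) + ((F' b ∩ Y j).card : ℝ)))) *
          Real.exp (-(ψ * ∑ a ∈ T, ((G a ∩ Y j).card : ℝ))) := by
        intro j
        rw [← hψ']
        ring
      simp only [e2, e3]
      simp only [e4] at hKle
      exact hKle.trans hGle

/-- The coefficients. -/
noncomputable def psi (θ : ℝ) : ℕ → ℝ
  | 0 => θ
  | L + 1 => psi θ L / 2 * (1 - 11 * Real.sqrt (psi θ L / 2))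

theorem psi_bounds {θ c : ℝ} (hc0 : 0 < c) (hc : c ≤ 1 / 44) (hθ : θ = 2 * c ^ 2) (L : ℕ) :
    psi θ L ≤ θ / 2 ^ L ∧ θ / 2 ^ L * (1 - 44 * c * (1 - (3 / 4) ^ L)) ≤ psi θ L ∧
      0 < psi θ L ∧ Real.sqrt (psi θ L / 2) ≤ c * (3 / 4) ^ L := by
  have hθ0 : 0 < θ := by rw [hθ]; positivity
  have hsq : ∀ L : ℕ, psi θ L ≤ θ / 2 ^ L → Real.sqrt (psi θ L / 2) ≤ c * (3 / 4) ^ L := by
    intro L hL
    apply Real.sqrt_le_iff.2
    constructor
    · positivity
    · have e1 : psi θ L / 2 ≤ c ^ 2 * (1 / 2) ^ L := by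
        have : c ^ 2 * (1 / 2) ^ L = θ / 2 ^ L / 2 := by
          rw [hθ, one_div, inv_pow]
          field_simp
        rw [this]
        linarith
      have e2 : ((1 : ℝ) / 2) ^ L ≤ ((9 : ℝ) / 16) ^ L := pow_le_pow_left₀ (by norm_num) (by norm_num) L
      have e3 : (c * (3 / 4) ^ L) ^ 2 = c ^ 2 * (9 / 16) ^ L := by
        rw [mul_pow, ← pow_mul, mul_comm L 2, pow_mul]
        norm_num
      rw [e3]
      have := mul_le_mul_of_nonneg_left e2 (sq_nonneg c)
      linarith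
  induction L with
  | zero =>
    have h0 : psi θ 0 = θ := rfl
    have e1 : psi θ 0 ≤ θ / 2 ^ 0 := by rw [h0]; simp
    refine ⟨e1, by rw [h0]; simp, by rw [h0]; exact hθ0, hsq 0 e1⟩
  | succ L ih =>
    obtain ⟨i1, i2, i3, i4⟩ := ih
    have h0 : psi θ (L + 1) = psi θ L / 2 * (1 - 11 * Real.sqrt (psi θ L / 2)) := rfl
    set q : ℝ := (3 / 4 : ℝ) ^ L with hq
    have hq0 : 0 < q := by positivity
    have hq1 : q ≤ 1 := pow_le_one₀ (by norm_num) (by norm_num)
    set v := Real.sqrt (psi θ L / 2) with hv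
    have hv0 : 0 ≤ v := Real.sqrt_nonneg _
    have hcq : c * q ≤ 1 / 44 := by nlinarith
    have hfac : 0 < 1 - 11 * v := by linarith
    have e1 : psi θ (L + 1) ≤ θ / 2 ^ (L + 1) := by
      rw [h0, pow_succ]
      have : θ / (2 ^ L * 2) = θ / 2 ^ L / 2 := by
        rw [div_div]
      rw [this]
      have h5 : psi θ L / 2 * (1 - 11 * v) ≤ psi θ L / 2 * 1 := by
        apply mul_le_mul_of_nonneg_left _ (by linarith)
        linarith
      linarith
    refine ⟨e1, ?_, ?_, hsq (L + 1) e1⟩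
    · rw [h0]
      have e2 : θ / 2 ^ (L + 1) * (1 - 44 * c * (1 - (3 / 4) ^ (L + 1))) =
          θ / 2 ^ L / 2 * (1 - 44 * c * (1 - q) - 11 * (c * q)) := by
        rw [pow_succ, pow_succ, ← hq, ← div_div]
        ring
      rw [e2]
      have hD : 0 < θ / 2 ^ L := by positivity
      have hx0 : 0 ≤ 44 * c * (1 - q) := by
        have := sub_nonneg.2 hq1
        positivity
      have hx1 : 44 * c * (1 - q) ≤ 1 := by nlinarith
      have e3 : θ / 2 ^ L / 2 * (1 - 44 * c * (1 - q) - 11 * (c * q)) ≤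
          θ / 2 ^ L / 2 * ((1 - 44 * c * (1 - q)) * (1 - 11 * v)) := by
        apply mul_le_mul_of_nonneg_left _ (by positivity)
        nlinarith [mul_nonneg hx0 hv0]
      refine e3.trans ?_
      have e4 : θ / 2 ^ L / 2 * ((1 - 44 * c * (1 - q)) * (1 - 11 * v)) =
          (θ / 2 ^ L * (1 - 44 * c * (1 - q))) / 2 * (1 - 11 * v) := by ring
      rw [e4]
      apply mul_le_mul_of_nonneg_right _ hfac.le
      linarith
    · rw [h0]
      positivity

theorem tree {κ : Type} [Fintype κ] {Y : κ → Finset α} {θ c : ℝ}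
    (hc0 : 0 < c) (hc : c ≤ 1 / 44) (hθ : θ = 2 * c ^ 2)
    {r1 r2 : Finset α → ℕ} (h1 : IsRF r1) (h2 : IsRF r2) (S : Finset α) (L : ℕ) :
    ∀ (w : κ → ℝ), (∀ j, 0 ≤ w j) → ∀ (ι : Type) [Fintype ι], Fintype.card ι = 2 ^ L →
    ∀ F : ι → Finset α, (∀ a, F a ⊆ S ∧ Ind r1 (F a) ∧ Ind r2 (F a)) →
    ∃ R, R ⊆ S ∧ Ind r1 R ∧ Ind r2 R ∧
      ∑ j, w j * Real.exp (-(θ * ((R ∩ Y j).card : ℝ))) ≤
      ∑ j, w j * Real.exp (-(psi θ L * ∑ a, ((F a ∩ Y j).card : ℝ))) := by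
  induction L with
  | zero =>
    intro w _ ι _ hι F hF
    rw [pow_zero] at hι
    obtain ⟨a, ha⟩ := Fintype.card_eq_one_iff.1 hι
    refine ⟨F a, (hF a).1, (hF a).2.1, (hF a).2.2, ?_⟩
    have : (univ : Finset ι) = {a} := by
      ext b
      simp [ha b]
    simp only [this, sum_singleton]
    exact le_refl _
  | succ L ih =>
    intro w hw ι _ hι F hF
    classical
    have hcard : Fintype.card ι = Fintype.card (Bool × Fin (2 ^ L)) := by
      rw [hι, Fintype.card_prod, Fintype.card_bool, Fintype.card_fin, pow_succ]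
      ring
    obtain ⟨e⟩ := Fintype.card_eq.1 hcard
    obtain ⟨b1, -, b3, b4⟩ := psi_bounds hc0 hc hθ L
    have hsq : Real.sqrt (psi θ L / 2) ≤ 1 / 11 := by
      refine b4.trans ?_
      have : ((3 : ℝ) / 4) ^ L ≤ 1 := pow_le_one₀ (by norm_num) (by norm_num)
      nlinarith
    obtain ⟨G, hG, hGle⟩ := level (Y := Y) h1 h2 b3 hsq S
      (fun b : Fin (2 ^ L) => F (e.symm (true, b))) (fun b => F (e.symm (false, b)))
      (fun b => hF _) (fun b => hF _) univ w hw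
    obtain ⟨R, hR, hR1, hR2, hRle⟩ := ih w hw (Fin (2 ^ L)) (by simp) G hG
    refine ⟨R, hR, hR1, hR2, hRle.trans (hGle.trans (le_of_eq ?_))⟩
    apply Finset.sum_congr rfl
    intro j _
    have hsum : ∑ a, ((F a ∩ Y j).card : ℝ) = ∑ b : Fin (2 ^ L),
        (((F (e.symm (true, b)) ∩ Y j).card : ℝ) + ((F (e.symm (false, b)) ∩ Y j).card : ℝ)) := by
      rw [← Equiv.sum_comp e.symm, Fintype.sum_prod_type, Fintype.sum_bool,
        Finset.sum_add_distrib]
    rw [hsum]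
    rfl

end Pool.Agent.Helper151_AB
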