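import Mathlib
import Pool.Agent.Helper151_AB.Tree
import Pool.Agent.Helper151_AB.FD

set_option autoImplicit false

/-! One common independent set behaving like a random one. -/

namespace Pool.Agent.Helper151_AB

open Finset
open Pool.Agent.H478R3.Borsuk (IsRF inter)

variable {α : Type} [DecidableEq α]

theorem round [Fintype α] {κ : Type} [Fintype κ] {Y : κ → Finset α} {γ t : ℝ}
    (hγ0 : 0 < γ) (hγ1 : γ ≤ 1) (ht : 0 < t)
    {r1 r2 : Finset α → ℕ} (h1 : IsRF r1) (h2 : IsRF r2) (S : Finset α)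
    (hc1 : ∀ X, ((S ∩ X).card : ℝ) ≤ t * r1 X) (hc2 : ∀ X, ((S ∩ X).card : ℝ) ≤ t * r2 X)
    (w : κ → ℝ) (hw : ∀ j, 0 ≤ w j) :
    ∃ R, R ⊆ S ∧ Ind r1 R ∧ Ind r2 R ∧
      ∑ j, w j * Real.exp (-(γ ^ 2 / 3872 * ((R ∩ Y j).card : ℝ))) ≤
      ∑ j, w j * Real.exp (-(γ ^ 2 / 3872 * (1 - γ) * (((S ∩ Y j).card : ℝ) / t))) := by
  classical
  set x : α → ℝ := fun a => if a ∈ S then 1 else 0 with hx
  have hxs : ∀ X : Finset α, ∑ a ∈ X, x a = ((S ∩ X).card : ℝ) := by
    intro X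
    rw [hx, inter_comm]
    simp only [sum_ite_mem, sum_const, nsmul_eq_mul, mul_one]
  obtain ⟨u, hu0, hui, hut, hux⟩ := decomp h1 h2 x t
    (fun a => by simp only [hx]; split_ifs <;> norm_num) ht.le
    (fun X => by rw [hxs]; exact hc1 X) (fun X => by rw [hxs]; exact hc2 X)
  have hsub : ∀ I, u I ≠ 0 → I ⊆ S := by
    intro I hI a ha
    by_contra haS
    have e1 := hux a
    rw [hx] at e1
    simp only [haS, if_false] at e1
    have e2 := (Finset.sum_eq_zero_iff_of_nonneg (fun J _ => by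
      split_ifs
      · exact hu0 J
      · exact le_refl _)).1 e1 I (mem_univ _)
    rw [if_pos ha] at e2
    exact hI e2
  have hY : ∀ Z : Finset α, ∑ I, u I * ((I ∩ Z).card : ℝ) = ((S ∩ Z).card : ℝ) := by
    intro Z
    rw [← hxs]
    have : ∀ I : Finset α, u I * ((I ∩ Z).card : ℝ) = ∑ a ∈ Z, (if a ∈ I then u I else 0) := by
      intro I
      rw [inter_comm]
      simp only [sum_ite_mem, sum_const, nsmul_eq_mul]
      ring
    simp only [this]
    rw [sum_comm]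
    apply Finset.sum_congr rfl
    intro a _
    exact hux a
  -- choose the depth of the tree
  obtain ⟨L, hL⟩ : ∃ L : ℕ, (Fintype.card (Finset α) : ℝ) * t * (2 / γ) < 2 ^ L :=
    pow_unbounded_of_one_lt _ (by norm_num)
  set n : Finset α → ℕ := fun I => ⌊2 ^ L * u I / t⌋₊ with hn
  have hn1 : ∀ I, (n I : ℝ) ≤ 2 ^ L * u I / t := by
    intro I
    apply Nat.floor_le
    have := hu0 I
    positivity
  have hn2 : ∀ I, 2 ^ L * u I / t - 1 < (n I : ℝ) := by
    intro I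
    have := Nat.lt_floor_add_one (2 ^ L * u I / t)
    linarith
  have hn0 : ∀ I, u I = 0 → n I = 0 := by
    intro I hI
    simp only [hn, hI]
    simp
  have hnsum : ∑ I, n I ≤ 2 ^ L := by
    have : ((∑ I, n I : ℕ) : ℝ) ≤ ((2 ^ L : ℕ) : ℝ) := by
      push_cast
      calc ∑ I, (n I : ℝ) ≤ ∑ I, 2 ^ L * u I / t := Finset.sum_le_sum (fun I _ => hn1 I)
        _ = 2 ^ L * (∑ I, u I) / t := by rw [Finset.mul_sum, Finset.sum_div]
        _ = 2 ^ L := by rw [hut]; field_simp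
    exact_mod_cast this
  have hcard : Fintype.card ((Σ I : Finset α, Fin (n I)) ⊕ Fin (2 ^ L - ∑ I, n I)) = 2 ^ L := by
    rw [Fintype.card_sum, Fintype.card_sigma]
    simp only [Fintype.card_fin]
    omega
  set F : ((Σ I : Finset α, Fin (n I)) ⊕ Fin (2 ^ L - ∑ I, n I)) → Finset α :=
    Sum.elim (fun p => p.1) (fun _ => ∅) with hF
  have hFind : ∀ a, F a ⊆ S ∧ Ind r1 (F a) ∧ Ind r2 (F a) := by
    rintro (⟨I, b⟩ | b)
    · simp only [hF, Sum.elim_inl]
      have hI : u I ≠ 0 := by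
        intro h0
        have := hn0 I h0
        have hb := b.2
        omega
      exact ⟨hsub I hI, (hui I hI).1, (hui I hI).2⟩
    · simp only [hF, Sum.elim_inr]
      exact ⟨empty_subset _, ind_empty h1, ind_empty h2⟩
  have hc0 : 0 < γ / 88 := by positivity
  have hc : γ / 88 ≤ 1 / 44 := by linarith
  have hθ : γ ^ 2 / 3872 = 2 * (γ / 88) ^ 2 := by ring
  obtain ⟨R, hR, hR1, hR2, hRle⟩ := tree (Y := Y) hc0 hc hθ h1 h2 S L w hw _ hcard F hFind
  refine ⟨R, hR, hR1, hR2, hRle.trans ?_⟩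
  obtain ⟨-, b2, b3, -⟩ := psi_bounds hc0 hc hθ L
  have hq : (0 : ℝ) < (3 / 4) ^ L := by positivity
  have b2' : γ ^ 2 / 3872 / 2 ^ L * (1 - γ / 2) ≤ psi (γ ^ 2 / 3872) L := by
    refine le_trans ?_ b2
    apply mul_le_mul_of_nonneg_left _ (by positivity)
    have : γ * (3 / 4 : ℝ) ^ L ≥ 0 := by positivity
    nlinarith
  apply Finset.sum_le_sum
  intro j _
  apply mul_le_mul_of_nonneg_left _ (hw j)
  apply Real.exp_le_exp.2
  apply neg_le_neg
  have hsumF : ∑ a, ((F a ∩ Y j).card : ℝ) = ∑ I, (n I : ℝ) * ((I ∩ Y j).card : ℝ) := by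
    rw [Fintype.sum_sum_type, Fintype.sum_sigma]
    simp [hF]
  have hlow : 2 ^ L / t * (1 - γ / 2) * ((S ∩ Y j).card : ℝ) ≤ ∑ a, ((F a ∩ Y j).card : ℝ) := by
    rw [hsumF]
    have hterm : ∀ I, (2 ^ L * u I / t) * ((I ∩ Y j).card : ℝ) - ((S ∩ Y j).card : ℝ) ≤
        (n I : ℝ) * ((I ∩ Y j).card : ℝ) := by
      intro I
      by_cases hI : u I = 0
      · rw [hn0 I hI, hI]
        simp
      · have c1 : ((I ∩ Y j).card : ℝ) ≤ ((S ∩ Y j).card : ℝ) := by
          exact_mod_cast card_le_card (inter_subset_inter_right (hsub I hI))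
        have c2 := hn2 I
        have c3 : (0 : ℝ) ≤ ((I ∩ Y j).card : ℝ) := Nat.cast_nonneg _
        nlinarith
    have hs := Finset.sum_le_sum (fun I (_ : I ∈ (univ : Finset (Finset α))) => hterm I)
    rw [Finset.sum_sub_distrib, sum_const, card_univ, nsmul_eq_mul] at hs
    have e1 : ∑ I, (2 ^ L * u I / t) * ((I ∩ Y j).card : ℝ) =
        2 ^ L / t * ((S ∩ Y j).card : ℝ) := by
      rw [← hY, Finset.mul_sum]
      apply Finset.sum_congr rfl
      intro I _
      ring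
    rw [e1] at hs
    refine le_trans ?_ hs
    have e2 : (Fintype.card (Finset α) : ℝ) ≤ 2 ^ L / t * (γ / 2) := by
      have e3 : (Fintype.card (Finset α) : ℝ) = (Fintype.card (Finset α) : ℝ) * t * (2 / γ) / t * (γ / 2) := by
        field_simp
      rw [e3]
      apply mul_le_mul_of_nonneg_right _ (by positivity)
      exact div_le_div_of_nonneg_right hL.le ht.le
    have e4 : (0 : ℝ) ≤ ((S ∩ Y j).card : ℝ) := Nat.cast_nonneg _
    nlinarith
  have hS0 : (0 : ℝ) ≤ ((S ∩ Y j).card : ℝ) := Nat.cast_nonneg _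
  calc γ ^ 2 / 3872 * (1 - γ) * (((S ∩ Y j).card : ℝ) / t)
      ≤ γ ^ 2 / 3872 * ((1 - γ / 2) * (1 - γ / 2)) * (((S ∩ Y j).card : ℝ) / t) := by
        apply mul_le_mul_of_nonneg_right _ (by positivity)
        apply mul_le_mul_of_nonneg_left _ (by positivity)
        nlinarith
    _ = (γ ^ 2 / 3872 / 2 ^ L * (1 - γ / 2)) *
        (2 ^ L / t * (1 - γ / 2) * ((S ∩ Y j).card : ℝ)) := by
        field_simp
    _ ≤ psi (γ ^ 2 / 3872) L * ∑ a, ((F a ∩ Y j).card : ℝ) := by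
        apply mul_le_mul b2' hlow _ b3.le
        have : 0 ≤ 1 - γ / 2 := by linarith
        positivity

end Pool.Agent.Helper151_AB
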