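import Mathlib
import Pool.Agent.Helper151_AB.Round

set_option autoImplicit false

/-! Peeling off common independent sets. -/

namespace Pool.Agent.Helper151_AB

open Finset
open Pool.Agent.H478R3.Borsuk (IsRF inter)

variable {α : Type} [DecidableEq α]

/-- `S` has a colouring with `m` colours whose classes are independent for all `r b`. -/
def Cvr (r : Bool → Finset α → ℕ) (m : ℕ) (S : Finset α) : Prop :=
  ∃ f : α → ℕ, (∀ e ∈ S, f e < m) ∧ ∀ j b, Ind (r b) (S.filter (fun e => f e = j))

theorem cvr_empty {r : Bool → Finset α → ℕ} (hr : ∀ b, IsRF (r b)) : Cvr r 0 ∅ :=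
  ⟨fun _ => 0, by simp, fun j b => by simpa using ind_empty (hr b)⟩

theorem cvr_step {r : Bool → Finset α → ℕ} {m : ℕ} {S R : Finset α}
    (hRS : R ⊆ S) (hR : ∀ b, Ind (r b) R) (h : Cvr r m (S \ R)) : Cvr r (m + 1) S := by
  obtain ⟨f, hf1, hf2⟩ := h
  refine ⟨fun e => if e ∈ R then m else f e, ?_, ?_⟩
  · intro e he
    by_cases heR : e ∈ R
    · simp [heR]
    · simp only [heR, if_false]
      exact (hf1 e (mem_sdiff.2 ⟨he, heR⟩)).trans (Nat.lt_succ_self m)
  · intro j b
    by_cases hj : j = m
    · have : S.filter (fun e => (if e ∈ R then m else f e) = j) = R := by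
        ext e
        simp only [mem_filter]
        constructor
        · rintro ⟨he, h2⟩
          by_contra heR
          rw [if_neg heR] at h2
          have := hf1 e (mem_sdiff.2 ⟨he, heR⟩)
          omega
        · intro he
          exact ⟨hRS he, by rw [if_pos he, hj]⟩
      rw [this]
      exact hR b
    · have : S.filter (fun e => (if e ∈ R then m else f e) = j) =
          (S \ R).filter (fun e => f e = j) := by
        ext e
        simp only [mem_filter, mem_sdiff]
        constructor
        · rintro ⟨he, h2⟩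
          by_cases heR : e ∈ R
          · rw [if_pos heR] at h2
            exact absurd h2.symm hj
          · rw [if_neg heR] at h2
            exact ⟨⟨he, heR⟩, h2⟩
        · rintro ⟨⟨he, heR⟩, h2⟩
          exact ⟨he, by rw [if_neg heR, h2]⟩
      rw [this]
      exact hf2 j b

/-- Coverability with a real parameter. -/
def Cov (r : Finset α → ℕ) (a : ℝ) (S : Finset α) : Prop :=
  ∀ X : Finset α, ((S ∩ X).card : ℝ) ≤ a * r X

theorem cov_subset {r : Finset α → ℕ} {a : ℝ} {S T : Finset α} (h : Cov r a S) (hTS : T ⊆ S) :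
    Cov r a T := fun X =>
  le_trans (by exact_mod_cast card_le_card (inter_subset_inter_right hTS)) (h X)

theorem cov_mono {r : Finset α → ℕ} {a b : ℝ} {S : Finset α} (h : Cov r a S) (hab : a ≤ b) :
    Cov r b S := fun X => (h X).trans (mul_le_mul_of_nonneg_right hab (Nat.cast_nonneg _))

theorem cov_one {r : Finset α → ℕ} (hr : IsRF r) {a : ℝ} {S : Finset α} (h : Cov r a S)
    (hS : S.Nonempty) : 1 ≤ a := by
  obtain ⟨e, he⟩ := hS
  have h1 := h {e}
  rw [inter_singleton_of_mem he, card_singleton] at h1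
  have h2 := card_le hr {e}
  rw [card_singleton] at h2
  have h3 : (r {e} : ℝ) ≤ 1 := by exact_mod_cast h2
  have h4 : (0 : ℝ) ≤ (r {e} : ℝ) := Nat.cast_nonneg _
  by_contra hlt
  push Not at hlt
  rcases le_or_gt a 0 with h5 | h5
  · have := mul_nonpos_of_nonpos_of_nonneg h5 h4
    push_cast at h1
    linarith
  · have : a * (r {e} : ℝ) ≤ a * 1 := mul_le_mul_of_nonneg_left h3 h5.le
    push_cast at h1
    linarith

/-- Some common independent subset has at least the average size. -/
theorem exists_big [Fintype α] {r : Bool → Finset α → ℕ} (hr : ∀ b, IsRF (r b)) {a : ℝ}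
    {S : Finset α} (ha : 0 < a) (hS : ∀ b, Cov (r b) a S) :
    ∃ R, R ⊆ S ∧ (∀ b, Ind (r b) R) ∧ (S.card : ℝ) ≤ a * R.card := by
  classical
  rcases S.eq_empty_or_nonempty with rfl | hne
  · exact ⟨∅, le_refl _, fun b => ind_empty (hr b), by simp⟩
  set x : α → ℝ := fun e => if e ∈ S then 1 else 0 with hx
  have hxs : ∀ X : Finset α, ∑ e ∈ X, x e = ((S ∩ X).card : ℝ) := by
    intro X
    rw [hx, inter_comm]
    simp only [sum_ite_mem, sum_const, nsmul_eq_mul, mul_one]
  obtain ⟨u, hu0, hui, hut, hux⟩ := decomp (hr true) (hr false) x a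
    (fun a => by simp only [hx]; split_ifs <;> norm_num) ha.le
    (fun X => by rw [hxs]; exact hS true X) (fun X => by rw [hxs]; exact hS false X)
  have hsum : ∑ I, u I * ((I ∩ S).card : ℝ) = (S.card : ℝ) := by
    have e1 : ((S ∩ S).card : ℝ) = (S.card : ℝ) := by rw [inter_self]
    rw [← e1, ← hxs]
    have : ∀ I : Finset α, u I * ((I ∩ S).card : ℝ) = ∑ a ∈ S, (if a ∈ I then u I else 0) := by
      intro I
      rw [inter_comm]
      simp only [sum_ite_mem, sum_const, nsmul_eq_mul]
      ring
    simp only [this]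
    rw [sum_comm]
    apply Finset.sum_congr rfl
    intro a _
    exact hux a
  by_contra hcon
  push Not at hcon
  have hlt : ∀ I, u I ≠ 0 → a * ((I ∩ S).card : ℝ) < (S.card : ℝ) := by
    intro I hI
    apply hcon _ inter_subset_right
    intro b
    cases b
    · exact ind_subset (hr false) (hui I hI).2 inter_subset_left
    · exact ind_subset (hr true) (hui I hI).1 inter_subset_left
  have hex : ∃ I, u I ≠ 0 := by
    by_contra h0
    push Not at h0
    rw [Finset.sum_eq_zero (fun I _ => h0 I)] at hut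
    linarith
  obtain ⟨I₀, hI₀⟩ := hex
  have h1 : ∑ I, u I * (a * ((I ∩ S).card : ℝ)) < ∑ I, u I * (S.card : ℝ) := by
    apply Finset.sum_lt_sum
    · intro I _
      by_cases hI : u I = 0
      · simp [hI]
      · exact mul_le_mul_of_nonneg_left (hlt I hI).le (hu0 I)
    · refine ⟨I₀, mem_univ _, ?_⟩
      exact mul_lt_mul_of_pos_left (hlt I₀ hI₀) (lt_of_le_of_ne (hu0 I₀) (Ne.symm hI₀))
  rw [← Finset.sum_mul, hut] at h1
  have h2 : ∑ I, u I * (a * ((I ∩ S).card : ℝ)) = a * ∑ I, u I * ((I ∩ S).card : ℝ) := by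
    rw [Finset.mul_sum]
    apply Finset.sum_congr rfl
    intro I _
    ring
  rw [h2, hsum] at h1
  exact lt_irrefl _ h1

theorem greedy_aux [Fintype α] {r : Bool → Finset α → ℕ} (hr : ∀ b, IsRF (r b)) {a : ℝ}
    (ha : 1 ≤ a) (m : ℕ) : ∀ S : Finset α, (∀ b, Cov (r b) a S) →
    (S.card : ℝ) * (1 - 1 / a) ^ m < 1 → Cvr r m S := by
  induction m with
  | zero =>
    intro S _ hlt
    rw [pow_zero, mul_one] at hlt
    have : S.card = 0 := by
      have : S.card < 1 := by exact_mod_cast hlt
      omega
    rw [card_eq_zero] at this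
    rw [this]
    exact cvr_empty hr
  | succ m ih =>
    intro S hS hlt
    obtain ⟨R, hRS, hR, hcard⟩ := exists_big hr (by linarith) hS
    apply cvr_step hRS hR
    apply ih _ (fun b => cov_subset (hS b) sdiff_subset)
    refine lt_of_le_of_lt ?_ hlt
    rw [pow_succ', ← mul_assoc]
    have h0 : 0 ≤ 1 - 1 / a := by
      have : 1 / a ≤ 1 := by
        rw [div_le_one (by linarith)]
        exact ha
      linarith
    apply mul_le_mul_of_nonneg_right _ (pow_nonneg h0 m)
    have e1 : ((S \ R).card : ℝ) = (S.card : ℝ) - R.card := by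
      rw [cast_card_sdiff hRS]
    rw [e1]
    have e2 : (S.card : ℝ) / a ≤ R.card := by
      rw [div_le_iff₀ (by linarith)]
      linarith
    have e3 : (S.card : ℝ) * (1 - 1 / a) = S.card - S.card / a := by ring
    linarith

theorem greedy [Fintype α] {r : Bool → Finset α → ℕ} (hr : ∀ b, IsRF (r b)) {a : ℝ}
    (ha : 0 ≤ a) (S : Finset α) (hS : ∀ b, Cov (r b) a S) :
    ∃ m : ℕ, Cvr r m S ∧ (m : ℝ) ≤ a * Real.log (Fintype.card α) + 1 := by
  classical
  rcases S.eq_empty_or_nonempty with rfl | hne
  · refine ⟨0, cvr_empty hr, ?_⟩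
    have := mul_nonneg ha (Real.log_natCast_nonneg (Fintype.card α))
    push_cast
    linarith
  have ha1 := cov_one (hr true) (hS true) hne
  have hn : (0 : ℝ) < (Fintype.card α : ℝ) := by
    have h1 := card_le_univ S
    have h2 := hne.card_pos
    exact_mod_cast lt_of_lt_of_le h2 h1
  have hlog := mul_nonneg ha (Real.log_natCast_nonneg (Fintype.card α))
  refine ⟨⌊a * Real.log (Fintype.card α)⌋₊ + 1, ?_, ?_⟩
  · apply greedy_aux hr ha1 _ S hS
    set m := ⌊a * Real.log (Fintype.card α)⌋₊ + 1 with hm
    have hmgt : a * Real.log (Fintype.card α) < m := by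
      rw [hm]
      push_cast
      exact Nat.lt_floor_add_one _
    have h1 : (S.card : ℝ) ≤ Fintype.card α := by exact_mod_cast card_le_univ S
    have h0 : 0 ≤ 1 - 1 / a := by
      have : 1 / a ≤ 1 := by
        rw [div_le_one (by linarith)]
        exact ha1
      linarith
    have h2 : 1 - 1 / a ≤ Real.exp (-(1 / a)) := by
      have := Real.add_one_le_exp (-(1 / a))
      linarith
    have h3 : (1 - 1 / a) ^ m ≤ Real.exp (-(m / a)) := by
      calc (1 - 1 / a) ^ m ≤ (Real.exp (-(1 / a))) ^ m := pow_le_pow_left₀ h0 h2 m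
        _ = Real.exp (-(m / a)) := by
          rw [← Real.exp_nat_mul]
          congr 1
          ring
    have h4 : Real.exp (-(m / a)) < 1 / Fintype.card α := by
      have h5 : Real.log (Fintype.card α) < m / a := by
        rw [lt_div_iff₀ (by linarith)]
        linarith
      calc Real.exp (-(m / a)) < Real.exp (-Real.log (Fintype.card α)) :=
            Real.exp_lt_exp.2 (by linarith)
        _ = 1 / Fintype.card α := by
          rw [Real.exp_neg, Real.exp_log hn, one_div]
    calc (S.card : ℝ) * (1 - 1 / a) ^ m ≤ Fintype.card α * Real.exp (-(m / a)) :=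
          mul_le_mul h1 h3 (pow_nonneg h0 m) hn.le
      _ < Fintype.card α * (1 / Fintype.card α) := mul_lt_mul_of_pos_left h4 hn
      _ = 1 := by field_simp
  · push_cast
    have := Nat.floor_le hlog
    linarith

/-- The closure. -/
def clo [Fintype α] (r : Finset α → ℕ) (A : Finset α) : Finset α :=
  univ.filter (fun e => r (insert e A) = r A)

/-- Indicator of the nonempty independent sets. -/
noncomputable def gi (r : Bool → Finset α → ℕ) (j : Bool × Finset α) : ℝ :=
  if j.2 ≠ ∅ ∧ r j.1 j.2 = j.2.card then 1 else 0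

theorem gi_nonneg (r : Bool → Finset α → ℕ) (j : Bool × Finset α) : 0 ≤ gi r j := by
  unfold gi
  split_ifs <;> norm_num

/-- The potential. -/
noncomputable def pt [Fintype α] (r : Bool → Finset α → ℕ) (θ a : ℝ) (S : Finset α) : ℝ :=
  ∑ j : Bool × Finset α, gi r j *
    Real.exp (θ * (((S ∩ clo (r j.1) j.2).card : ℝ) - a * j.2.card))

theorem cov_of_pt [Fintype α] {r : Bool → Finset α → ℕ} (hr : ∀ b, IsRF (r b)) {θ a : ℝ}
    {S : Finset α} (hθ : 0 < θ) (hl : ∀ b X, r b X = 0 → S ∩ X = ∅) (hpt : pt r θ a S < 1) :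
    ∀ b, Cov (r b) a S := by
  intro b X
  obtain ⟨A, hAX, hA, hrX, hcl⟩ := exists_basis' (hr b) X
  by_cases hA0 : A = ∅
  · rw [hA0, card_empty] at hrX
    rw [hl b X hrX, hrX]
    simp
  · have h1 : gi r (b, A) * Real.exp (θ * (((S ∩ clo (r b) A).card : ℝ) - a * A.card)) < 1 := by
      refine lt_of_le_of_lt ?_ hpt
      unfold pt
      exact Finset.single_le_sum (f := fun j : Bool × Finset α => gi r j *
        Real.exp (θ * (((S ∩ clo (r j.1) j.2).card : ℝ) - a * j.2.card)))
        (fun j _ => mul_nonneg (gi_nonneg r j) (Real.exp_pos _).le) (mem_univ (b, A))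
    have h2 : gi r (b, A) = 1 := by
      unfold gi
      rw [if_pos]
      exact ⟨hA0, hA⟩
    rw [h2, one_mul, Real.exp_lt_one_iff] at h1
    have h3 : ((S ∩ clo (r b) A).card : ℝ) - a * A.card < 0 := by
      by_contra h4
      push Not at h4
      have := mul_nonneg hθ.le h4
      linarith
    have h5 : S ∩ X ⊆ S ∩ clo (r b) A := by
      apply inter_subset_inter_left
      intro e he
      unfold clo
      rw [mem_filter]
      exact ⟨mem_univ _, hcl e he⟩
    have h6 : ((S ∩ X).card : ℝ) ≤ ((S ∩ clo (r b) A).card : ℝ) := by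
      exact_mod_cast card_le_card h5
    rw [hrX]
    linarith

theorem sum_gi [Fintype α] (r : Bool → Finset α → ℕ) {c : ℝ}
    (hc : (Fintype.card α : ℝ) * Real.exp (-c) ≤ 1) :
    ∑ j : Bool × Finset α, gi r j * Real.exp (-(c * j.2.card)) ≤
      4 * Fintype.card α * Real.exp (-c) := by
  classical
  set q := Real.exp (-c) with hq
  have hq0 : 0 < q := Real.exp_pos _
  have h1 : ∀ A : Finset α, Real.exp (-(c * A.card)) = q ^ A.card := by
    intro A
    rw [hq, ← Real.exp_nat_mul]
    congr 1
    ring
  have h2 : ∀ b : Bool, ∑ A : Finset α, gi r (b, A) * Real.exp (-(c * A.card)) ≤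
      (1 + q) ^ Fintype.card α - 1 := by
    intro b
    have h3 : (1 + q) ^ Fintype.card α = ∑ A : Finset α, q ^ A.card := by
      rw [add_comm, ← Fintype.sum_pow_mul_eq_add_pow α q 1]
      simp
    have h4 : ∑ A : Finset α, q ^ A.card = 1 + ∑ A ∈ (univ : Finset (Finset α)).erase ∅,
        q ^ A.card := by
      rw [← Finset.add_sum_erase _ _ (mem_univ (∅ : Finset α))]
      simp
    have h5 : ∑ A : Finset α, gi r (b, A) * Real.exp (-(c * A.card)) =
        ∑ A ∈ (univ : Finset (Finset α)).erase ∅, gi r (b, A) * Real.exp (-(c * A.card)) := by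
      rw [← Finset.add_sum_erase _ _ (mem_univ (∅ : Finset α))]
      have : gi r (b, (∅ : Finset α)) = 0 := by
        unfold gi
        simp
      rw [this, zero_mul, zero_add]
    rw [h5, h3, h4, add_sub_cancel_left]
    apply Finset.sum_le_sum
    intro A _
    rw [h1]
    have : gi r (b, A) ≤ 1 := by
      unfold gi
      split_ifs <;> norm_num
    have hqA : 0 ≤ q ^ A.card := by positivity
    nlinarith
  have h6 : (1 + q) ^ Fintype.card α - 1 ≤ 2 * (Fintype.card α * q) := by
    have h7 : (1 + q) ^ Fintype.card α ≤ Real.exp (Fintype.card α * q) := by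
      rw [Real.exp_nat_mul]
      apply pow_le_pow_left₀ (by linarith)
      have := Real.add_one_le_exp q
      linarith
    have hnn : 0 ≤ (Fintype.card α : ℝ) * q := by positivity
    have h8 := Real.abs_exp_sub_one_le (x := Fintype.card α * q) (by
      rw [abs_of_nonneg hnn]
      exact hc)
    rw [abs_of_nonneg hnn] at h8
    have h9 := le_abs_self (Real.exp (Fintype.card α * q) - 1)
    linarith
  rw [Fintype.sum_prod_type, Fintype.sum_bool]
  have := h2 true
  have := h2 false
  linarith

end Pool.Agent.Helper151_AB
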