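import Mathlib
import Pool.Agent.Helper151_AB.Peel

set_option autoImplicit false

/-! One phase of the peeling process. -/

namespace Pool.Agent.Helper151_AB

open Finset
open Pool.Agent.H478R3.Borsuk (IsRF inter)

variable {α : Type} [DecidableEq α]

theorem peel_step [Fintype α] {r : Bool → Finset α → ℕ} (hr : ∀ b, IsRF (r b)) {ε a a' : ℝ}
    (hε0 : 0 < ε) (hε1 : ε ≤ 1) (ha : 1 ≤ a) (S : Finset α) (hS : ∀ b, Cov (r b) a S)
    (a'' : ℝ) (ha'' : a'' = a' - (1 - ε) ^ 2) (haa : a ≤ a') :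
    ∃ R, R ⊆ S ∧ (∀ b, Ind (r b) R) ∧
      pt r (ε ^ 2 / 3872) a'' (S \ R) ≤ pt r (ε ^ 2 / 3872) a' S +
        ∑ j : Bool × Finset α, gi r j * Real.exp (-(ε ^ 2 / 3872 * ε * a * j.2.card)) := by
  set θ := ε ^ 2 / 3872 with hθ
  have hθ0 : 0 < θ := by positivity
  set Y : Bool × Finset α → Finset α := fun j => clo (r j.1) j.2 with hY
  obtain ⟨R, hRS, hR1, hR2, hR⟩ := round (Y := Y) hε0 hε1 (by linarith : 0 < a) (hr true)
    (hr false) S (hS true) (hS false)
    (fun j => gi r j * Real.exp (θ * (((S ∩ Y j).card : ℝ) - a'' * j.2.card)))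
    (fun j => mul_nonneg (gi_nonneg r j) (Real.exp_pos _).le)
  refine ⟨R, hRS, ?_, ?_⟩
  · intro b
    cases b
    · exact hR2
    · exact hR1
  have e1 : pt r θ a'' (S \ R) = ∑ j, gi r j *
      Real.exp (θ * (((S ∩ Y j).card : ℝ) - a'' * j.2.card)) *
      Real.exp (-(θ * ((R ∩ Y j).card : ℝ))) := by
    unfold pt
    apply Finset.sum_congr rfl
    intro j _
    rw [mul_assoc, ← Real.exp_add]
    congr 2
    have h1 : (S \ R) ∩ clo (r j.1) j.2 = (S ∩ Y j) \ (R ∩ Y j) := by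
      rw [hY]
      ext e
      simp only [mem_inter, mem_sdiff]
      tauto
    have h2 : R ∩ Y j ⊆ S ∩ Y j := inter_subset_inter_right hRS
    rw [h1, cast_card_sdiff h2]
    ring
  rw [e1]
  refine hR.trans ?_
  rw [pt, ← Finset.sum_add_distrib]
  apply Finset.sum_le_sum
  intro j _
  rw [mul_assoc, ← Real.exp_add, ← mul_add]
  apply mul_le_mul_of_nonneg_left _ (gi_nonneg r j)
  set s : ℝ := ((S ∩ Y j).card : ℝ) with hs
  set A : ℝ := (j.2.card : ℝ) with hA
  have hs0 : 0 ≤ s := Nat.cast_nonneg _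
  have hA0 : 0 ≤ A := Nat.cast_nonneg _
  have ha0 : 0 < a := by linarith
  have hexp : θ * (s - a'' * A) + -(θ * (1 - ε) * (s / a)) =
      θ * (s - a' * A + (1 - ε) * ((1 - ε) * A - s / a)) := by
    rw [ha'']
    ring
  rw [hexp]
  rcases le_or_gt ((1 - ε) * a * A) s with h | h
  · have h1 : (1 - ε) * A ≤ s / a := by
      rw [le_div_iff₀ ha0]
      linarith
    have h2 : θ * (s - a' * A + (1 - ε) * ((1 - ε) * A - s / a)) ≤ θ * (s - a' * A) := by
      apply mul_le_mul_of_nonneg_left _ hθ0.le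
      have := mul_nonneg (by linarith : (0 : ℝ) ≤ 1 - ε) (by linarith : 0 ≤ s / a - (1 - ε) * A)
      nlinarith
    have h3 := Real.exp_le_exp.2 h2
    have h4 := (Real.exp_pos (-(θ * ε * a * A))).le
    linarith
  · have h1 : s - a' * A + (1 - ε) * ((1 - ε) * A - s / a) ≤ -(ε * a * A) := by
      have h5 : s * (1 - (1 - ε) / a) ≤ (1 - ε) * a * A * (1 - (1 - ε) / a) := by
        apply mul_le_mul_of_nonneg_right h.le
        have : (1 - ε) / a ≤ 1 := by
          rw [div_le_one ha0]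
          linarith
        linarith
      have h6 : (1 - ε) * a * A * (1 - (1 - ε) / a) = (1 - ε) * a * A - (1 - ε) ^ 2 * A := by
        field_simp
      have h7 : s * (1 - (1 - ε) / a) = s - (1 - ε) * (s / a) := by ring
      have h8 : a * A ≤ a' * A := mul_le_mul_of_nonneg_right haa hA0
      rw [h6, h7] at h5
      nlinarith
    have h2 : θ * (s - a' * A + (1 - ε) * ((1 - ε) * A - s / a)) ≤ -(θ * ε * a * A) := by
      have := mul_le_mul_of_nonneg_left h1 hθ0.le
      linarith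
    have h3 := Real.exp_le_exp.2 h2
    have h4 := (Real.exp_pos (θ * (s - a' * A))).le
    linarith

/-- Iterating the step. -/
theorem phase_aux [Fintype α] {r : Bool → Finset α → ℕ} (hr : ∀ b, IsRF (r b)) {ε a β : ℝ}
    (hε0 : 0 < ε) (hε1 : ε ≤ 1) (hβ : 1 ≤ β) (hβa : β ≤ a) (S : Finset α)
    (hS : ∀ b, Cov (r b) a S)
    (hn : (Fintype.card α : ℝ) * Real.exp (-(ε ^ 2 / 3872 * ε * β)) ≤ 1)
    (T : ℕ)
    (hT : ((T : ℝ) + 1) * (4 * Fintype.card α * Real.exp (-(ε ^ 2 / 3872 * ε * β))) < 1) :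
    ∀ t : ℕ, t ≤ T → (∀ s : ℕ, s < t → β ≤ (1 + ε) * a - s * (1 - ε) ^ 2) →
    ∃ S', S' ⊆ S ∧ (∀ m, Cvr r m S' → Cvr r (m + t) S) ∧
      pt r (ε ^ 2 / 3872) ((1 + ε) * a - t * (1 - ε) ^ 2) S' ≤
        ((t : ℝ) + 1) * (4 * Fintype.card α * Real.exp (-(ε ^ 2 / 3872 * ε * β))) := by
  set θ := ε ^ 2 / 3872 with hθ
  have hθ0 : 0 < θ := by positivity
  set E := 4 * (Fintype.card α : ℝ) * Real.exp (-(θ * ε * β)) with hE
  have hE0 : 0 ≤ E := by positivity
  have hloop : ∀ S' : Finset α, S' ⊆ S → ∀ b X, r b X = 0 → S' ∩ X = ∅ := by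
    intro S' hS' b X hX
    have h1 := cov_subset (hS b) hS' X
    rw [hX] at h1
    have h2 : ((S' ∩ X).card : ℝ) ≤ 0 := by
      rw [Nat.cast_zero, mul_zero] at h1
      exact h1
    have h3 : (S' ∩ X).card ≤ 0 := by exact_mod_cast h2
    exact card_eq_zero.1 (by omega)
  have hbig : ∀ x : ℝ, β ≤ x →
      ∑ j : Bool × Finset α, gi r j * Real.exp (-(θ * ε * x * j.2.card)) ≤ E := by
    intro x hx
    have h1 : Real.exp (-(θ * ε * x)) ≤ Real.exp (-(θ * ε * β)) := by
      apply Real.exp_le_exp.2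
      have := mul_le_mul_of_nonneg_left hx (by positivity : (0 : ℝ) ≤ θ * ε)
      linarith
    have h2 := sum_gi r (c := θ * ε * x)
      ((mul_le_mul_of_nonneg_left h1 (Nat.cast_nonneg _)).trans hn)
    refine h2.trans ?_
    rw [hE]
    exact mul_le_mul_of_nonneg_left h1 (by positivity)
  intro t
  induction t with
  | zero =>
    intro _ _
    refine ⟨S, le_refl _, fun m h => by simpa using h, ?_⟩
    rw [Nat.cast_zero, zero_mul, sub_zero, zero_add, one_mul]
    refine le_trans ?_ (hbig a hβa)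
    unfold pt
    apply Finset.sum_le_sum
    intro j _
    by_cases hj : gi r j = 0
    · rw [hj]
      simp
    · apply mul_le_mul_of_nonneg_left _ (gi_nonneg r j)
      apply Real.exp_le_exp.2
      have h1 : r j.1 j.2 = j.2.card := by
        unfold gi at hj
        by_contra h
        apply hj
        rw [if_neg]
        tauto
      have h2 : r j.1 (clo (r j.1) j.2) = j.2.card := by
        have h3 : ∀ e ∈ clo (r j.1) j.2, r j.1 (insert e j.2) = r j.1 j.2 := by
          intro e he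
          unfold clo at he
          exact (mem_filter.1 he).2
        have h4 := cl_union (hr j.1) _ h3
        have h5 : j.2 ⊆ clo (r j.1) j.2 := by
          intro e he
          unfold clo
          rw [mem_filter, insert_eq_of_mem he]
          exact ⟨mem_univ _, rfl⟩
        rw [union_eq_right.2 h5] at h4
        rw [h4, h1]
      have h3 := hS j.1 (clo (r j.1) j.2)
      rw [h2] at h3
      have h4 : ((S ∩ clo (r j.1) j.2).card : ℝ) - (1 + ε) * a * j.2.card ≤
          -(ε * a * j.2.card) := by linarith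
      have := mul_le_mul_of_nonneg_left h4 hθ0.le
      linarith
  | succ t ih =>
    intro htT hs
    obtain ⟨S', hS', hcvr, hpt⟩ := ih (by omega) (fun s h => hs s (by omega))
    have hβt := hs t (Nat.lt_succ_self t)
    have hlt : pt r θ ((1 + ε) * a - t * (1 - ε) ^ 2) S' < 1 := by
      refine lt_of_le_of_lt hpt (lt_of_le_of_lt ?_ hT)
      apply mul_le_mul_of_nonneg_right _ hE0
      have : (t : ℝ) ≤ T := by exact_mod_cast (by omega : t ≤ T)
      linarith
    have hcov := cov_of_pt hr hθ0 (hloop S' hS') hlt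
    obtain ⟨R, hRS, hR, hle⟩ := peel_step hr hε0 hε1 (by linarith) S' hcov
      ((1 + ε) * a - ((t + 1 : ℕ) : ℝ) * (1 - ε) ^ 2) (by push_cast; ring) (le_refl _)
    refine ⟨S' \ R, sdiff_subset.trans hS', ?_, ?_⟩
    · intro m hm
      have h1 := hcvr (m + 1) (cvr_step hRS hR hm)
      have h2 : m + 1 + t = m + (t + 1) := by ring
      rw [h2] at h1
      exact h1
    · refine hle.trans ?_
      have h1 := hbig _ hβt
      push_cast
      rw [← hθ]
      linarith

/-- One phase: halving the parameter. -/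
theorem phase [Fintype α] {r : Bool → Finset α → ℕ} (hr : ∀ b, IsRF (r b)) {ε a : ℝ}
    (hε0 : 0 < ε) (hε1 : ε ≤ 1 / 4) (ha : 2 ≤ a) (han : a ≤ Fintype.card α) (S : Finset α)
    (hS : ∀ b, Cov (r b) a S)
    (hn : 7744 * Real.log (12 * (Fintype.card α : ℝ) ^ 2) < ε ^ 3 * a) :
    ∃ S', S' ⊆ S ∧ (∀ b, Cov (r b) (a / 2) S') ∧ ∃ T : ℕ, (T : ℝ) ≤ a / 2 + 4 * ε * a + 1 ∧
      ∀ m, Cvr r m S' → Cvr r (m + T) S := by
  have hnpos : (2 : ℝ) ≤ Fintype.card α := ha.trans han
  set n : ℝ := (Fintype.card α : ℝ) with hndef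
  set d : ℝ := (1 - ε) ^ 2 with hd
  have hd1 : 9 / 16 ≤ d := by rw [hd]; nlinarith
  have hd0 : 0 < d := by linarith
  set T : ℕ := ⌈(1 / 2 + ε) * a / d⌉₊ with hT
  have hT1 : (1 / 2 + ε) * a / d ≤ T := Nat.le_ceil _
  have hT2 : (T : ℝ) < (1 / 2 + ε) * a / d + 1 := Nat.ceil_lt_add_one (by positivity)
  have hTd : (1 / 2 + ε) * a ≤ T * d := by
    rw [div_le_iff₀ hd0] at hT1
    exact hT1
  have hTd2 : (T : ℝ) * d < (1 / 2 + ε) * a + d := by
    have := mul_lt_mul_of_pos_right hT2 hd0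
    rw [add_mul, div_mul_cancel₀ _ hd0.ne', one_mul] at this
    exact this
  have hinv : 1 / d ≤ 1 + 4 * ε := by
    rw [div_le_iff₀ hd0, hd]
    nlinarith [mul_nonneg (mul_nonneg hε0.le hε0.le) hε0.le, mul_nonneg hε0.le hε0.le]
  have hTle : (T : ℝ) ≤ a / 2 + 4 * ε * a + 1 := by
    have h1 : (1 / 2 + ε) * a / d ≤ (1 / 2 + ε) * a * (1 + 4 * ε) := by
      rw [div_eq_mul_one_div]
      exact mul_le_mul_of_nonneg_left hinv (by positivity)
    have h2 : (1 / 2 + ε) * a * (1 + 4 * ε) ≤ a / 2 + 4 * ε * a := by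
      have : (1 / 2 + ε) * (1 + 4 * ε) ≤ 1 / 2 + 4 * ε := by nlinarith
      nlinarith
    linarith
  have hexp : 12 * n ^ 2 * Real.exp (-(ε ^ 2 / 3872 * ε * (a / 2))) < 1 := by
    have h1 : Real.log (12 * n ^ 2) < ε ^ 2 / 3872 * ε * (a / 2) := by
      have : ε ^ 2 / 3872 * ε * (a / 2) = ε ^ 3 * a / 7744 := by ring
      rw [this, lt_div_iff₀ (by norm_num)]
      linarith
    have h2 : Real.exp (-(ε ^ 2 / 3872 * ε * (a / 2))) < Real.exp (-Real.log (12 * n ^ 2)) :=
      Real.exp_lt_exp.2 (by linarith)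
    have h3 : 0 < 12 * n ^ 2 := by positivity
    rw [Real.exp_neg (Real.log (12 * n ^ 2)), Real.exp_log h3] at h2
    calc 12 * n ^ 2 * Real.exp (-(ε ^ 2 / 3872 * ε * (a / 2))) < 12 * n ^ 2 * (12 * n ^ 2)⁻¹ :=
          mul_lt_mul_of_pos_left h2 h3
      _ = 1 := by field_simp
  have hexp0 := Real.exp_pos (-(ε ^ 2 / 3872 * ε * (a / 2)))
  obtain ⟨S', hS', hcvr, hpt⟩ := phase_aux (β := a / 2) hr hε0 (by linarith) (by linarith)
    (by linarith) S hS
    (by
      refine le_trans ?_ hexp.le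
      apply mul_le_mul_of_nonneg_right _ hexp0.le
      nlinarith) T
    (by
      refine lt_of_le_of_lt ?_ hexp
      rw [← hndef]
      have h1 : (T : ℝ) + 1 ≤ 3 * n := by
        have h2 : (1 / 2 + ε) * a / d ≤ 2 * a - 0 := by
          rw [div_le_iff₀ hd0]
          nlinarith
        have h3 : (1 / 2 + ε) * a / d ≤ 4 / 3 * a := by
          rw [div_le_iff₀ hd0]
          nlinarith
        nlinarith
      calc ((T : ℝ) + 1) * (4 * n * Real.exp (-(ε ^ 2 / 3872 * ε * (a / 2))))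
          ≤ (3 * n) * (4 * n * Real.exp (-(ε ^ 2 / 3872 * ε * (a / 2)))) := by
            apply mul_le_mul_of_nonneg_right h1
            positivity
        _ = 12 * n ^ 2 * Real.exp (-(ε ^ 2 / 3872 * ε * (a / 2))) := by ring) T (le_refl _)
    (by
      intro s hs
      have h1 : (s : ℝ) + 1 ≤ T := by exact_mod_cast hs
      have h2 := mul_le_mul_of_nonneg_right h1 hd0.le
      rw [← hd]
      nlinarith)
  refine ⟨S', hS', ?_, T, hTle, hcvr⟩
  have hlt : pt r (ε ^ 2 / 3872) ((1 + ε) * a - T * (1 - ε) ^ 2) S' < 1 := by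
    refine lt_of_le_of_lt hpt ?_
    refine lt_of_le_of_lt ?_ hexp
    rw [← hndef]
    have h1 : (T : ℝ) + 1 ≤ 3 * n := by
      have h3 : (1 / 2 + ε) * a / d ≤ 4 / 3 * a := by
        rw [div_le_iff₀ hd0]
        nlinarith
      nlinarith
    calc ((T : ℝ) + 1) * (4 * n * Real.exp (-(ε ^ 2 / 3872 * ε * (a / 2))))
        ≤ (3 * n) * (4 * n * Real.exp (-(ε ^ 2 / 3872 * ε * (a / 2)))) := by
          apply mul_le_mul_of_nonneg_right h1
          positivity
      _ = 12 * n ^ 2 * Real.exp (-(ε ^ 2 / 3872 * ε * (a / 2))) := by ring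
  have hcov := cov_of_pt hr (by positivity) (by
    intro b X hX
    have h1 := cov_subset (hS b) hS' X
    rw [hX] at h1
    have h2 : ((S' ∩ X).card : ℝ) ≤ 0 := by
      rw [Nat.cast_zero, mul_zero] at h1
      exact h1
    have h3 : (S' ∩ X).card ≤ 0 := by exact_mod_cast h2
    exact card_eq_zero.1 (by omega)) hlt
  intro b
  apply cov_mono (hcov b)
  rw [← hd]
  linarith

end Pool.Agent.Helper151_AB
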