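import Mathlib
import Pool.Agent.Helper151_AB.Phase

set_option autoImplicit false

/-! The asymptotic bound. -/

namespace Pool.Agent.Helper151_AB

open Finset
open Pool.Agent.H478R3.Borsuk (IsRF inter)

variable {α : Type} [DecidableEq α]

theorem cvr_card [Fintype α] {r : Bool → Finset α → ℕ} (hr : ∀ b, IsRF (r b)) {a : ℝ}
    {S : Finset α} (hS : ∀ b, Cov (r b) a S) : Cvr r (Fintype.card α) S := by
  refine ⟨fun e => (Fintype.equivFin α e : ℕ), fun e _ => (Fintype.equivFin α e).2, ?_⟩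
  intro j b
  obtain ⟨F, hF⟩ : ∃ F, F = S.filter (fun e => ((Fintype.equivFin α e : Fin _) : ℕ) = j) :=
    ⟨_, rfl⟩
  rw [← hF]
  have hle : F.card ≤ 1 := by
    rw [card_le_one]
    intro x hx y hy
    rw [hF] at hx hy
    simp only [mem_filter] at hx hy
    apply (Fintype.equivFin α).injective
    apply Fin.ext
    rw [hx.2, hy.2]
  rcases Nat.lt_or_ge F.card 1 with h | h
  · have : F = ∅ := card_eq_zero.1 (by omega)
    rw [this]
    exact ind_empty (hr b)
  · have h1 := hS b F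
    have hFS : F ⊆ S := by
      rw [hF]
      exact filter_subset _ _
    rw [inter_eq_right.2 hFS] at h1
    have h2 := card_le (hr b) F
    unfold Ind
    rcases Nat.eq_zero_or_pos (r b F) with h3 | h3
    · exfalso
      rw [h3, Nat.cast_zero, mul_zero] at h1
      have h4 : F.card ≤ 0 := by exact_mod_cast h1
      omega
    · omega

theorem asym_aux [Fintype α] {r : Bool → Finset α → ℕ} (hr : ∀ b, IsRF (r b)) {c Λ D h : ℝ}
    (hc0 : 0 ≤ c) (hc : c ^ 3 = Λ) (hΛ : 1 ≤ Λ)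
    (hΛn : 7744 * Real.log (12 * (Fintype.card α : ℝ) ^ 2) < Λ)
    (hD : D = 64 * Λ * Real.log (Fintype.card α) + 1) (hh0 : 0 ≤ h) (hh : h ^ 3 = 1 / 2) (j : ℕ) :
    ∀ (b : ℝ) (S : Finset α), 0 ≤ b → b ^ 3 ≤ 64 * Λ * 2 ^ j → (∀ i, Cov (r i) (b ^ 3) S) →
    ∃ m : ℕ, Cvr r m S ∧ (m : ℝ) ≤ b ^ 3 + 15 * c * b ^ 2 + D := by
  have hlogn : 0 ≤ Real.log (Fintype.card α) := Real.log_natCast_nonneg _
  have hbase : ∀ (b : ℝ) (S : Finset α), 0 ≤ b → b ^ 3 ≤ 64 * Λ → (∀ i, Cov (r i) (b ^ 3) S) →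
      ∃ m : ℕ, Cvr r m S ∧ (m : ℝ) ≤ b ^ 3 + 15 * c * b ^ 2 + D := by
    intro b S hb hle hS
    obtain ⟨m, hm, hmle⟩ := greedy hr (by positivity) S hS
    refine ⟨m, hm, ?_⟩
    have h1 : b ^ 3 * Real.log (Fintype.card α) ≤ 64 * Λ * Real.log (Fintype.card α) :=
      mul_le_mul_of_nonneg_right hle hlogn
    have h2 : 0 ≤ b ^ 3 := by positivity
    have h3 : 0 ≤ 15 * c * b ^ 2 := by positivity
    rw [hD]
    linarith
  induction j with
  | zero =>
    intro b S hb hle hS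
    rw [pow_zero, mul_one] at hle
    exact hbase b S hb hle hS
  | succ j ih =>
    intro b S hb hle hS
    rcases le_or_gt (b ^ 3) (64 * Λ) with hsmall | hlarge
    · exact hbase b S hb hsmall hS
    rcases lt_or_ge (Fintype.card α : ℝ) (b ^ 3) with hbig | han
    · refine ⟨Fintype.card α, cvr_card hr hS, ?_⟩
      have h3 : 0 ≤ 15 * c * b ^ 2 := by positivity
      have h4 : 0 ≤ D := by
        rw [hD]
        have : 0 ≤ 64 * Λ * Real.log (Fintype.card α) := by positivity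
        linarith
      linarith
    have hb1 : 1 ≤ b := by
      by_contra hlt
      push Not at hlt
      have : b ^ 3 ≤ 1 := pow_le_one₀ hb hlt.le
      linarith
    have hc1 : 1 ≤ c := by
      by_contra hlt
      push Not at hlt
      have : c ^ 3 < 1 := pow_lt_one₀ hc0 hlt (by norm_num)
      linarith
    have hb0 : 0 < b := by linarith
    have hc4 : 4 * c ≤ b := by
      by_contra hlt
      push Not at hlt
      have : b ^ 3 < (4 * c) ^ 3 := pow_lt_pow_left₀ hlt hb (by norm_num)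
      rw [mul_pow, hc] at this
      norm_num at this
      linarith
    have hε0 : 0 < c / b := by positivity
    have hε1 : c / b ≤ 1 / 4 := by
      rw [div_le_iff₀ hb0]
      linarith
    obtain ⟨S', hS', hcov, T, hT, hcvr⟩ := phase hr hε0 hε1 (by linarith) han S hS (by
      have : (c / b) ^ 3 * b ^ 3 = Λ := by
        rw [← hc]
        field_simp
      rw [this]
      exact hΛn)
    have hhle : h ≤ 4 / 5 := by
      by_contra hlt
      push Not at hlt
      have : ((4 : ℝ) / 5) ^ 3 < h ^ 3 := pow_lt_pow_left₀ hlt (by norm_num) (by norm_num)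
      rw [hh] at this
      norm_num at this
    have hbh : (b * h) ^ 3 = b ^ 3 / 2 := by
      rw [mul_pow, hh]
      ring
    obtain ⟨m, hm, hmle⟩ := ih (b * h) S' (by positivity) (by
      rw [hbh]
      have h2j : (2 : ℝ) ^ (j + 1) = 2 ^ j * 2 := pow_succ _ _
      rw [h2j] at hle
      linarith) (by rw [hbh]; exact hcov)
    refine ⟨m + T, hcvr m hm, ?_⟩
    push_cast
    rw [hbh] at hmle
    have e1 : 4 * (c / b) * b ^ 3 = 4 * c * b ^ 2 := by
      field_simp
    rw [e1] at hT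
    have e2 : (b * h) ^ 2 ≤ 2 / 3 * b ^ 2 := by
      rw [mul_pow]
      have : h ^ 2 ≤ 2 / 3 := by nlinarith
      nlinarith [sq_nonneg b]
    have e3 : 15 * c * (b * h) ^ 2 ≤ 10 * c * b ^ 2 := by
      have := mul_le_mul_of_nonneg_left e2 (by positivity : 0 ≤ 15 * c)
      linarith
    have e4 : 1 ≤ c * b ^ 2 := by
      have : 1 ≤ b ^ 2 := one_le_pow₀ hb1
      nlinarith
    linarith

theorem asym [Fintype α] {r : Bool → Finset α → ℕ} (hr : ∀ b, IsRF (r b)) (k : ℕ)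
    (hk : ∀ b (X : Finset α), X.card ≤ k * r b X) :
    ∃ m : ℕ, Cvr r m univ ∧ (m : ℝ) ≤ k +
      600 * Real.log (Fintype.card α + 1) ^ (1 / 3 : ℝ) * (k : ℝ) ^ (2 / 3 : ℝ) +
      4000000 * Real.log (Fintype.card α + 1) ^ 2 := by
  rcases Nat.eq_zero_or_pos (Fintype.card α) with hn0 | hn1
  · have := Fintype.card_eq_zero_iff.1 hn0
    refine ⟨0, ?_, ?_⟩
    · have : (univ : Finset α) = ∅ := univ_eq_empty
      rw [this]
      exact cvr_empty hr
    · rw [hn0]
      norm_num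
  have hn1' : (1 : ℝ) ≤ (Fintype.card α : ℝ) := by
    have : 1 ≤ Fintype.card α := hn1
    exact_mod_cast this
  set n : ℝ := (Fintype.card α : ℝ) with hn
  set ℓ := Real.log (n + 1) with hℓ
  have hℓ2 : Real.log 2 ≤ ℓ := Real.log_le_log (by norm_num) (by linarith)
  have hlog2 : 0.69 < Real.log 2 := by
    have := Real.log_two_gt_d9
    linarith
  have hℓ0 : 0 < ℓ := by linarith
  set Λ := 50000 * ℓ with hΛ
  have hΛ0 : 0 < Λ := by positivity
  set c := Λ ^ (1 / 3 : ℝ) with hc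
  have hc0 : 0 ≤ c := by positivity
  have hc3 : c ^ 3 = Λ := by
    rw [hc, ← Real.rpow_natCast, ← Real.rpow_mul hΛ0.le]
    norm_num
  have hΛn : 7744 * Real.log (12 * n ^ 2) < Λ := by
    have h1 : Real.log (12 * n ^ 2) ≤ 6 * ℓ := by
      have h2 : Real.log (12 * n ^ 2) ≤ Real.log (2 ^ 4 * (n + 1) ^ 2) := by
        apply Real.log_le_log (by positivity)
        nlinarith
      have h3 : Real.log (2 ^ 4 * (n + 1) ^ 2) = 4 * Real.log 2 + 2 * ℓ := by
        rw [Real.log_mul (by norm_num) (by positivity), Real.log_pow, Real.log_pow]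
        push_cast
        ring
      rw [h3] at h2
      linarith
    rw [hΛ]
    linarith
  obtain ⟨j, hj⟩ : ∃ j : ℕ, (k : ℝ) < 2 ^ j := pow_unbounded_of_one_lt _ (by norm_num)
  set b := (k : ℝ) ^ (1 / 3 : ℝ) with hb
  have hk0 : (0 : ℝ) ≤ k := Nat.cast_nonneg _
  have hb0 : 0 ≤ b := by positivity
  have hb3 : b ^ 3 = k := by
    rw [hb, ← Real.rpow_natCast, ← Real.rpow_mul hk0]
    norm_num
  have hb2 : b ^ 2 = (k : ℝ) ^ (2 / 3 : ℝ) := by
    rw [hb, ← Real.rpow_natCast, ← Real.rpow_mul hk0]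
    norm_num
  have hh0 : (0 : ℝ) ≤ (1 / 2 : ℝ) ^ (1 / 3 : ℝ) := by positivity
  have hh : ((1 / 2 : ℝ) ^ (1 / 3 : ℝ)) ^ 3 = 1 / 2 := by
    rw [← Real.rpow_natCast, ← Real.rpow_mul (by norm_num)]
    norm_num
  obtain ⟨m, hm, hmle⟩ := asym_aux hr hc0 hc3 (by linarith) hΛn rfl hh0 hh j b univ hb0
    (by
      rw [hb3]
      have : (1 : ℝ) * 2 ^ j ≤ 64 * Λ * 2 ^ j := by
        apply mul_le_mul_of_nonneg_right _ (by positivity)
        linarith
      linarith)
    (by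
      intro i X
      rw [hb3, univ_inter]
      exact_mod_cast hk i X)
  refine ⟨m, hm, hmle.trans ?_⟩
  rw [hb3, hb2]
  have h1 : c ≤ 40 * ℓ ^ (1 / 3 : ℝ) := by
    have h2 : (40 * ℓ ^ (1 / 3 : ℝ)) ^ 3 = 64000 * ℓ := by
      rw [mul_pow, ← Real.rpow_natCast (ℓ ^ (1 / 3 : ℝ)), ← Real.rpow_mul hℓ0.le]
      norm_num
    by_contra hlt
    push Not at hlt
    have h3 : (40 * ℓ ^ (1 / 3 : ℝ)) ^ 3 < c ^ 3 := pow_lt_pow_left₀ hlt (by positivity)
      (by norm_num)
    rw [h2, hc3] at h3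
    linarith
  have h2 : 15 * c * (k : ℝ) ^ (2 / 3 : ℝ) ≤ 600 * ℓ ^ (1 / 3 : ℝ) * (k : ℝ) ^ (2 / 3 : ℝ) := by
    apply mul_le_mul_of_nonneg_right _ (by positivity)
    linarith
  have h3 : Real.log n ≤ ℓ := Real.log_le_log (by linarith) (by linarith)
  have h4 : 64 * Λ * Real.log n ≤ 64 * Λ * ℓ := mul_le_mul_of_nonneg_left h3 (by positivity)
  have h5 : 64 * Λ * ℓ + 1 ≤ 4000000 * ℓ ^ 2 := by
    rw [hΛ]
    nlinarith
  linarith

end Pool.Agent.Helper151_AB
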