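import Mathlib
import Pool.Agent.Helper151_AB.Peel

set_option autoImplicit false

/-! Exact peeling of common bases: the combinatorial part. -/

namespace Pool.Agent.Helper151_AB

open Finset
open Pool.Agent.H478R3.Borsuk (IsRF inter)

variable {α : Type} [DecidableEq α]

/-- `B` meets `X` in a maximum independent subset of `X`. -/
def Zr (r : Finset α → ℕ) (B X : Finset α) : Prop := (B ∩ X).card = r X

theorem inter_le {r : Finset α → ℕ} (h : IsRF r) {B : Finset α} (hB : Ind r B) (X : Finset α) :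
    (B ∩ X).card ≤ r X := by
  have h1 := ind_subset h hB (inter_subset_left (s₂ := X))
  unfold Ind at h1
  rw [← h1]
  exact h.mono _ _ inter_subset_right

theorem zr_both {r : Finset α → ℕ} (h : IsRF r) {B : Finset α} (hB : Ind r B) {X Y : Finset α}
    (hX : Zr r B X) (hY : Zr r B Y) : Zr r B (X ∩ Y) ∧ Zr r B (X ∪ Y) := by
  unfold Zr at *
  have h1 := h.sub X Y
  have h2 := inter_le h hB (X ∩ Y)
  have h3 := inter_le h hB (X ∪ Y)
  have h4 : (B ∩ (X ∪ Y)).card + (B ∩ (X ∩ Y)).card = (B ∩ X).card + (B ∩ Y).card := by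
    rw [← card_union_add_card_inter (B ∩ X) (B ∩ Y), inter_union_distrib_left,
      inter_inter_distrib_left]
  omega

theorem zr_empty {r : Finset α → ℕ} (h : IsRF r) (B : Finset α) : Zr r B ∅ := by
  unfold Zr
  rw [inter_empty, card_empty, h.empty]

theorem mem_inf' [Fintype α] {F : Finset (Finset α)} {e : α} :
    e ∈ F.inf id ↔ ∀ Y ∈ F, e ∈ Y := by
  induction F using Finset.induction_on with
  | empty => simp
  | insert Z F _ ih =>
    rw [inf_insert, id, inf_eq_inter, mem_inter, ih]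
    constructor
    · rintro ⟨h1, h2⟩ Y hY
      rcases mem_insert.1 hY with rfl | hY
      · exact h1
      · exact h2 Y hY
    · intro h1
      exact ⟨h1 Z (mem_insert_self _ _), fun Y hY => h1 Y (mem_insert_of_mem hY)⟩

theorem zr_inf [Fintype α] {r : Finset α → ℕ} (h : IsRF r) {B : Finset α} (hB : Ind r B)
    (hU : Zr r B univ) {F : Finset (Finset α)} (hF : ∀ Y ∈ F, Zr r B Y) : Zr r B (F.inf id) := by
  induction F using Finset.induction_on with
  | empty =>
    rw [inf_empty]
    exact hU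
  | insert Z F _ ih =>
    rw [inf_insert, id, inf_eq_inter]
    exact (zr_both h hB (hF Z (mem_insert_self _ _))
      (ih (fun Y hY => hF Y (mem_insert_of_mem hY)))).1

/-- The pairs of elements of `B` compatible with all sets of the family. -/
def rel (F : Finset (Finset α)) (B : Finset α) : Finset (α × α) :=
  (B ×ˢ B).filter (fun p => ∀ Y ∈ F, p.1 ∈ Y → p.2 ∈ Y)

theorem mem_rel {F : Finset (Finset α)} {B : Finset α} {p : α × α} :
    p ∈ rel F B ↔ (p.1 ∈ B ∧ p.2 ∈ B) ∧ ∀ Y ∈ F, p.1 ∈ Y → p.2 ∈ Y := by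
  unfold rel
  rw [mem_filter, mem_product]

theorem rel_bounds (F : Finset (Finset α)) (B : Finset α) :
    B.card ≤ (rel F B).card ∧ (rel F B).card ≤ B.card * B.card := by
  constructor
  · have h1 : B.image (fun a => (a, a)) ⊆ rel F B := by
      intro p hp
      rw [mem_image] at hp
      obtain ⟨a, ha, rfl⟩ := hp
      exact mem_rel.2 ⟨⟨ha, ha⟩, fun _ _ h => h⟩
    have h2 := card_le_card h1
    rw [card_image_of_injective _ (fun a b hab => (Prod.mk.inj hab).1)] at h2
    exact h2
  · rw [← card_product]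
    exact card_le_card (filter_subset _ _)

theorem crossing [Fintype α] {r : Finset α → ℕ} (h : IsRF r) {B₀ B : Finset α}
    (hB₀ : Ind r B₀) (hB : Ind r B) (hU₀ : Zr r B₀ univ) (hU : Zr r B univ)
    {F : Finset (Finset α)} (hF₀ : ∀ Y ∈ F, Zr r B₀ Y) (hF : ∀ Y ∈ F, Zr r B Y) {X : Finset α}
    (hX : Zr r B₀ X) (hcl : ∀ e, r (insert e X) = r X → e ∈ X) :
    r X + (rel (insert X F) B₀).card ≤ (B ∩ X).card + (rel F B₀).card := by
  classical
  -- the good elements
  set A : Finset α := (B₀ ∩ X).filter (fun a => (F.filter (fun Y => a ∈ Y)).inf id ∩ B₀ ⊆ X)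
    with hA
  set W : Finset α := A.biUnion (fun a => (F.filter (fun Y => a ∈ Y)).inf id) with hW
  have hZW : ∀ C : Finset α, Ind r C → Zr r C univ → (∀ Y ∈ F, Zr r C Y) → Zr r C W := by
    intro C hC hUC hFC
    rw [hW]
    have : ∀ T : Finset α, Zr r C (T.biUnion (fun a => (F.filter (fun Y => a ∈ Y)).inf id)) := by
      intro T
      induction T using Finset.induction_on with
      | empty =>
        rw [biUnion_empty]
        exact zr_empty h C
      | insert a T _ ih =>
        rw [biUnion_insert]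
        exact (zr_both h hC (zr_inf h hC hUC (fun Y hY => hFC Y (mem_filter.1 hY).1)) ih).2
    exact this A
  have hW₀ := hZW B₀ hB₀ hU₀ hF₀
  have hWB := hZW B hB hU hF
  have hAW : A ⊆ B₀ ∩ W := by
    intro a ha
    have ha1 : a ∈ B₀ ∩ X := (mem_filter.1 ha).1
    rw [mem_inter]
    refine ⟨(mem_inter.1 ha1).1, ?_⟩
    rw [hW, mem_biUnion]
    exact ⟨a, ha, mem_inf'.2 (fun Y hY => (mem_filter.1 hY).2)⟩
  have hWX : B₀ ∩ W ⊆ X := by
    intro e he
    rw [mem_inter, hW, mem_biUnion] at he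
    obtain ⟨heB, a, ha, hea⟩ := he
    exact (mem_filter.1 ha).2 (mem_inter.2 ⟨hea, heB⟩)
  have hBW : B ∩ W ⊆ B ∩ X := by
    intro e he
    rw [mem_inter] at he ⊢
    refine ⟨he.1, hcl e ?_⟩
    apply cl_mono h hWX
    have h1 : r (B₀ ∩ W) = (B₀ ∩ W).card := ind_subset h hB₀ inter_subset_left
    have h2 := h.mono _ _ (insert_subset he.2 (inter_subset_right (s₁ := B₀) (s₂ := W)))
    have h3 := h.mono _ _ (subset_insert e (B₀ ∩ W))
    unfold Zr at hW₀
    omega
  have hAle : A.card ≤ (B ∩ X).card := by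
    have h1 := card_le_card hAW
    have h2 := card_le_card hBW
    unfold Zr at hW₀ hWB
    omega
  -- the other elements give pairs
  have hout : ((B₀ ∩ X) \ A).card ≤ (rel F B₀ \ rel (insert X F) B₀).card := by
    have h1 : (B₀ ∩ X) \ A ⊆ (rel F B₀ \ rel (insert X F) B₀).image Prod.fst := by
      intro a ha
      rw [mem_sdiff] at ha
      obtain ⟨ha1, ha2⟩ := ha
      have h2 : ¬ ((F.filter (fun Y => a ∈ Y)).inf id ∩ B₀ ⊆ X) := by
        intro h3
        exact ha2 (mem_filter.2 ⟨ha1, h3⟩)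
      rw [not_subset] at h2
      obtain ⟨a', ha', ha'X⟩ := h2
      rw [mem_inter, mem_inf'] at ha'
      rw [mem_inter] at ha1
      rw [mem_image]
      refine ⟨(a, a'), ?_, rfl⟩
      rw [mem_sdiff, mem_rel, mem_rel]
      refine ⟨⟨⟨ha1.1, ha'.2⟩, fun Y hY haY => ha'.1 Y (mem_filter.2 ⟨hY, haY⟩)⟩, ?_⟩
      rintro ⟨-, h3⟩
      exact ha'X (h3 X (mem_insert_self _ _) ha1.2)
    exact (card_le_card h1).trans card_image_le
  have hsub : rel (insert X F) B₀ ⊆ rel F B₀ := by
    intro p hp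
    rw [mem_rel] at *
    exact ⟨hp.1, fun Y hY => hp.2 Y (mem_insert_of_mem hY)⟩
  have h4 := card_sdiff_add_card_eq_card hsub
  have h5 : A ⊆ B₀ ∩ X := filter_subset _ _
  have h6 := card_sdiff_add_card_eq_card h5
  unfold Zr at hX
  omega

end Pool.Agent.Helper151_AB
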