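import Mathlib
import Pool.Agent.Helper151_AB.Zero

set_option autoImplicit false

/-! Exact peeling of common bases. -/

namespace Pool.Agent.Helper151_AB

open Finset
open Pool.Agent.H478R3.Borsuk (IsRF inter)

variable {α : Type} [DecidableEq α]

theorem exists_zero [Fintype α] {r : Bool → Finset α → ℕ} (hr : ∀ b, IsRF (r b)) {k : ℕ}
    {S : Finset α} (hc : ∀ b (X : Finset α), (S ∩ X).card ≤ k * r b X)
    (F : Bool → Finset (Finset α))
    (hF : ∑ b, ∑ Y ∈ F b, (k * r b Y - (S ∩ Y).card) < k) :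
    ∃ C, C ⊆ S ∧ (∀ b, Ind (r b) C) ∧ ∀ b, ∀ Y ∈ F b, Zr (r b) C Y := by
  classical
  have hk0 : (0 : ℝ) < k := by
    have : 0 < k := by omega
    exact_mod_cast this
  set x : α → ℝ := fun e => if e ∈ S then 1 else 0 with hx
  have hxs : ∀ X : Finset α, ∑ e ∈ X, x e = ((S ∩ X).card : ℝ) := by
    intro X
    rw [hx, inter_comm]
    simp only [sum_ite_mem, sum_const, nsmul_eq_mul, mul_one]
  obtain ⟨u, hu0, hui, hut, hux⟩ := decomp (hr true) (hr false) x (k : ℝ)
    (fun a => by simp only [hx]; split_ifs <;> norm_num) hk0.le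
    (fun X => by rw [hxs]; exact_mod_cast hc true X)
    (fun X => by rw [hxs]; exact_mod_cast hc false X)
  have hsub : ∀ I, u I ≠ 0 → I ⊆ S := by
    intro I hI a ha
    by_contra haS
    have e1 := hux a
    rw [hx] at e1
    simp only [haS, if_false] at e1
    have e2 := (Finset.sum_eq_zero_iff_of_nonneg (fun J _ => by
      split_ifs
      · exact hu0 J
      · exact le_refl _)).1 e1 I (mem_univ _)
    rw [if_pos ha] at e2
    exact hI e2
  have hY : ∀ Z : Finset α, ∑ I, u I * ((I ∩ Z).card : ℝ) = ((S ∩ Z).card : ℝ) := by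
    intro Z
    rw [← hxs]
    have : ∀ I : Finset α, u I * ((I ∩ Z).card : ℝ) = ∑ a ∈ Z, (if a ∈ I then u I else 0) := by
      intro I
      rw [inter_comm]
      simp only [sum_ite_mem, sum_const, nsmul_eq_mul]
      ring
    simp only [this]
    rw [sum_comm]
    apply Finset.sum_congr rfl
    intro a _
    exact hux a
  have hind : ∀ I, u I ≠ 0 → ∀ b, Ind (r b) I := by
    intro I hI b
    cases b
    · exact (hui I hI).2
    · exact (hui I hI).1
  by_contra hcon
  push Not at hcon
  have hge : ∀ I, u I ≠ 0 → (1 : ℝ) ≤ ∑ b, ∑ Y ∈ F b, ((r b Y : ℝ) - ((I ∩ Y).card : ℝ)) := by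
    intro I hI
    obtain ⟨b, Y, hYF, hnz⟩ := hcon I (hsub I hI) (hind I hI)
    have hnn : ∀ c Z, (0 : ℝ) ≤ (r c Z : ℝ) - ((I ∩ Z).card : ℝ) := by
      intro c Z
      have := inter_le (hr c) (hind I hI c) Z
      rw [sub_nonneg]
      exact_mod_cast this
    have h1 : (1 : ℝ) ≤ (r b Y : ℝ) - ((I ∩ Y).card : ℝ) := by
      have h2 := inter_le (hr b) (hind I hI b) Y
      have h3 : (I ∩ Y).card + 1 ≤ r b Y := by
        unfold Zr at hnz
        omega
      have h4 : ((I ∩ Y).card : ℝ) + 1 ≤ (r b Y : ℝ) := by exact_mod_cast h3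
      linarith
    have h2 : (r b Y : ℝ) - ((I ∩ Y).card : ℝ) ≤
        ∑ Z ∈ F b, ((r b Z : ℝ) - ((I ∩ Z).card : ℝ)) :=
      Finset.single_le_sum (f := fun Z => (r b Z : ℝ) - ((I ∩ Z).card : ℝ))
        (fun Z _ => hnn b Z) hYF
    have h3 : ∑ Z ∈ F b, ((r b Z : ℝ) - ((I ∩ Z).card : ℝ)) ≤
        ∑ c, ∑ Z ∈ F c, ((r c Z : ℝ) - ((I ∩ Z).card : ℝ)) :=
      Finset.single_le_sum (f := fun c => ∑ Z ∈ F c, ((r c Z : ℝ) - ((I ∩ Z).card : ℝ)))
        (fun c _ => Finset.sum_nonneg (fun Z _ => hnn c Z)) (mem_univ b)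
    linarith
  have h1 : (k : ℝ) ≤ ∑ I, u I * ∑ b, ∑ Y ∈ F b, ((r b Y : ℝ) - ((I ∩ Y).card : ℝ)) := by
    rw [← hut]
    apply Finset.sum_le_sum
    intro I _
    by_cases hI : u I = 0
    · rw [hI]
      simp
    · have := mul_le_mul_of_nonneg_left (hge I hI) (hu0 I)
      linarith
  have h2 : ∑ I, u I * ∑ b, ∑ Y ∈ F b, ((r b Y : ℝ) - ((I ∩ Y).card : ℝ)) =
      ∑ b, ∑ Y ∈ F b, ((k : ℝ) * r b Y - ((S ∩ Y).card : ℝ)) := by
    simp only [Finset.mul_sum]
    rw [sum_comm]
    apply Finset.sum_congr rfl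
    intro b _
    rw [sum_comm]
    apply Finset.sum_congr rfl
    intro Y _
    simp only [mul_sub]
    rw [Finset.sum_sub_distrib, hY, ← Finset.sum_mul, hut]
  have h3 : ∑ b, ∑ Y ∈ F b, ((k : ℝ) * r b Y - ((S ∩ Y).card : ℝ)) =
      ((∑ b, ∑ Y ∈ F b, (k * r b Y - (S ∩ Y).card) : ℕ) : ℝ) := by
    push_cast
    apply Finset.sum_congr rfl
    intro b _
    apply Finset.sum_congr rfl
    intro Y _
    rw [Nat.cast_sub (hc b Y)]
    push_cast
    ring
  rw [h2, h3] at h1
  have h4 : k ≤ ∑ b, ∑ Y ∈ F b, (k * r b Y - (S ∩ Y).card) := by exact_mod_cast h1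
  omega

/-- Insertion of a set into one of the two families. -/
def upd (F : Bool → Finset (Finset α)) (b : Bool) (X : Finset α) : Bool → Finset (Finset α) :=
  fun c => if c = b then insert X (F b) else F c

theorem sum_upd (F : Bool → Finset (Finset α)) (b : Bool) (X : Finset α)
    (g : Bool → Finset (Finset α) → ℕ) :
    ∑ c, g c (upd F b X c) + g b (F b) = ∑ c, g c (F c) + g b (insert X (F b)) := by
  rw [Fintype.sum_bool, Fintype.sum_bool]
  unfold upd
  cases b
  · simp
    omega
  · simp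
    omega

theorem peel_exact [Fintype α] {r : Bool → Finset α → ℕ} (hr : ∀ b, IsRF (r b)) {k R : ℕ}
    (hk1 : 1 ≤ k) (hk : 2 * (R * R) ≤ k + R) {S : Finset α} (hS : S.card = k * R)
    (hR : ∀ b X, r b X ≤ R) (hc : ∀ b (X : Finset α), (S ∩ X).card ≤ k * r b X) :
    ∃ C, C ⊆ S ∧ (∀ b, Ind (r b) C) ∧ C.card = R ∧
      ∀ b (X : Finset α), ((S \ C) ∩ X).card ≤ (k - 1) * r b X := by
  classical
  have hru : ∀ b, r b univ = R := by
    intro b
    have h1 := hc b univ
    rw [inter_univ, hS] at h1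
    have h2 : R ≤ r b univ := Nat.le_of_mul_le_mul_left h1 hk1
    have h3 := hR b univ
    omega
  by_contra hcon
  push Not at hcon
  set D : Bool → Finset (Finset α) → ℕ := fun b F => ∑ Y ∈ F, (k * r b Y - (S ∩ Y).card + 1)
    with hD
  have hex : ∀ F : Bool → Finset (Finset α),
      ∑ b, ∑ Y ∈ F b, (k * r b Y - (S ∩ Y).card) < k →
      ∃ C, C ⊆ S ∧ (∀ b, Ind (r b) C) ∧ C.card = R ∧ ∀ b, ∀ Y ∈ F b, Zr (r b) C Y := by
    intro F hF
    obtain ⟨C, hCS, hCi, hCz⟩ := exists_zero hr hc (fun b => insert univ (F b)) (by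
      refine lt_of_le_of_lt ?_ hF
      apply Finset.sum_le_sum
      intro b _
      by_cases hu : univ ∈ F b
      · rw [insert_eq_of_mem hu]
      · rw [sum_insert hu, hru, inter_univ, hS]
        omega)
    refine ⟨C, hCS, hCi, ?_, fun b Y hY => hCz b Y (mem_insert_of_mem hY)⟩
    have h1 := hCz true univ (mem_insert_self _ _)
    unfold Zr at h1
    rw [inter_univ, hru] at h1
    exact h1
  have hzu : ∀ C : Finset α, C.card = R → ∀ b, Zr (r b) C univ := by
    intro C hC b
    unfold Zr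
    rw [inter_univ, hru, hC]
  have key : ∀ m : ℕ, ∃ F : Bool → Finset (Finset α), m ≤ ∑ b, (F b).card ∧
      (∃ C, C ⊆ S ∧ (∀ b, Ind (r b) C) ∧ C.card = R ∧ ∀ b, ∀ Y ∈ F b, Zr (r b) C Y) ∧
      ∀ B₀, B₀ ⊆ S → (∀ b, Ind (r b) B₀) → B₀.card = R → (∀ b, ∀ Y ∈ F b, Zr (r b) B₀ Y) →
        ∑ b, (rel (F b) B₀).card + ∑ b, D b (F b) ≤ 2 * (R * R) := by
    intro m
    induction m with
    | zero =>
      refine ⟨fun _ => ∅, Nat.zero_le _, hex _ (by simp; omega), ?_⟩
      intro B₀ _ _ hB _
      have h1 := (rel_bounds (∅ : Finset (Finset α)) B₀).2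
      rw [hB] at h1
      simp only [hD, Fintype.sum_bool, sum_empty]
      omega
    | succ m ih =>
      obtain ⟨F, hm, ⟨C, hCS, hCi, hCR, hCz⟩, hprop⟩ := ih
      obtain ⟨b, X, hbad⟩ := hcon C hCS hCi hCR
      -- the closure of the violated set
      set X' := clo (r b) X with hX'
      have hmem : ∀ e, e ∈ X' ↔ r b (insert e X) = r b X := by
        intro e
        rw [hX']
        unfold clo
        rw [mem_filter]
        exact ⟨fun h => h.2, fun h => ⟨mem_univ _, h⟩⟩
      have hXX' : X ⊆ X' := by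
        intro e he
        rw [hmem, insert_eq_of_mem he]
      have hrX' : r b X' = r b X := by
        have h1 := cl_union (hr b) X' (fun e he => (hmem e).1 he)
        rwa [union_eq_right.2 hXX'] at h1
      have hcl : ∀ e, r b (insert e X') = r b X' → e ∈ X' := by
        intro e he
        rw [hmem]
        have h1 := (hr b).mono _ _ (insert_subset_insert e hXX')
        have h2 := (hr b).mono _ _ (subset_insert e X)
        omega
      have hviol : (k * r b X' - (S ∩ X').card) + 1 + (C ∩ X').card ≤ r b X' := by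
        have h1 : ((S \ C) ∩ X).card ≤ ((S \ C) ∩ X').card :=
          card_le_card (inter_subset_inter_left hXX')
        have h2 : ((S \ C) ∩ X').card + (C ∩ X').card = (S ∩ X').card := by
          have h3 : (S \ C) ∩ X' = (S ∩ X') \ (C ∩ X') := by
            ext e
            simp only [mem_inter, mem_sdiff]
            tauto
          have h4 : C ∩ X' ⊆ S ∩ X' := inter_subset_inter_right hCS
          rw [h3]
          exact card_sdiff_add_card_eq_card h4
        have h5 := hc b X'
        obtain ⟨k', rfl⟩ : ∃ k', k = k' + 1 := ⟨k - 1, by omega⟩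
        rw [Nat.add_sub_cancel] at hbad
        rw [← hrX'] at hbad
        rw [Nat.add_mul, one_mul] at h5 ⊢
        omega
      have hX'F : X' ∉ F b := by
        intro h
        have h1 := hCz b X' h
        unfold Zr at h1
        omega
      have hcard := sum_upd F b X' (fun _ G => G.card)
      have hDupd := sum_upd F b X' D
      have hD0upd := sum_upd F b X' (fun c G => ∑ Y ∈ G, (k * r c Y - (S ∩ Y).card))
      have e1 : (insert X' (F b)).card = (F b).card + 1 := card_insert_of_notMem hX'F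
      have e2 : D b (insert X' (F b)) = (k * r b X' - (S ∩ X').card + 1) + D b (F b) := by
        simp only [hD]
        rw [sum_insert hX'F]
      have e3 : ∑ Y ∈ insert X' (F b), (k * r b Y - (S ∩ Y).card) =
          (k * r b X' - (S ∩ X').card) + ∑ Y ∈ F b, (k * r b Y - (S ∩ Y).card) :=
        sum_insert hX'F
      have hmemu : ∀ c Y, Y ∈ F c → Y ∈ upd F b X' c := by
        intro c Y hY
        unfold upd
        split_ifs with h
        · subst h
          exact mem_insert_of_mem hY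
        · exact hY
      have hmemX : X' ∈ upd F b X' b := by
        unfold upd
        rw [if_pos rfl]
        exact mem_insert_self _ _
      have hCprop := hprop C hCS hCi hCR hCz
      have hrelC : 2 * R ≤ ∑ b, (rel (F b) C).card := by
        rw [Fintype.sum_bool]
        have h1 := (rel_bounds (F true) C).1
        have h2 := (rel_bounds (F false) C).1
        omega
      have hDD0 : ∑ c, ∑ Y ∈ F c, (k * r c Y - (S ∩ Y).card) ≤ ∑ c, D c (F c) := by
        apply Finset.sum_le_sum
        intro c _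
        simp only [hD]
        apply Finset.sum_le_sum
        intro Y _
        omega
      have hRX := hR b X'
      refine ⟨upd F b X', ?_, hex _ ?_, ?_⟩
      · omega
      · omega
      · intro B₀ hB₀S hB₀i hB₀R hB₀z
        have h1 := hprop B₀ hB₀S hB₀i hB₀R (fun c Y hY => hB₀z c Y (hmemu c Y hY))
        have h2 := sum_upd F b X' (fun _ G => (rel G B₀).card)
        have h3 := crossing (hr b) (hB₀i b) (hCi b) (hzu B₀ hB₀R b) (hzu C hCR b)
          (fun Y hY => hB₀z b Y (hmemu b Y hY)) (hCz b) (hB₀z b X' hmemX) hcl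
        omega
  obtain ⟨F, hm, ⟨C, hCS, hCi, hCR, hCz⟩, hprop⟩ := key (2 * (R * R) + 1)
  have h1 := hprop C hCS hCi hCR hCz
  have h2 : ∑ b, (F b).card ≤ ∑ b, D b (F b) := by
    apply Finset.sum_le_sum
    intro b _
    simp only [hD]
    rw [card_eq_sum_ones]
    apply Finset.sum_le_sum
    intro Y _
    omega
  omega

/-- Peeling until `2 R ^ 2` classes are left. -/
theorem peel_iter [Fintype α] {r : Bool → Finset α → ℕ} (hr : ∀ b, IsRF (r b)) {k R : ℕ}
    (hk1 : 1 ≤ k) (hk : 2 * (R * R) ≤ k + R) (hR : ∀ b X, r b X ≤ R) (j : ℕ) :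
    ∀ S : Finset α, S.card = (k + j) * R → (∀ b (X : Finset α), (S ∩ X).card ≤ (k + j) * r b X) →
    ∃ S', S' ⊆ S ∧ S'.card = k * R ∧ (∀ b (X : Finset α), (S' ∩ X).card ≤ k * r b X) ∧
      ∀ m, Cvr r m S' → Cvr r (m + j) S := by
  induction j with
  | zero =>
    intro S hS hc
    exact ⟨S, le_refl _, by simpa using hS, by simpa using hc, fun m h => by simpa using h⟩
  | succ j ih =>
    intro S hS hc
    obtain ⟨C, hCS, hCi, hCR, hcC⟩ := peel_exact hr (by omega) (by omega) hS hR hc
    obtain ⟨S', hS', hcard, hc', hcvr⟩ := ih (S \ C)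
      (by
        have h1 := card_sdiff_add_card_eq_card hCS
        have h2 : (k + (j + 1)) * R = (k + j) * R + R := by ring
        omega)
      (by
        intro b X
        have := hcC b X
        simpa using this)
    refine ⟨S', hS'.trans sdiff_subset, hcard, hc', fun m hm => ?_⟩
    have h1 := cvr_step hCS hCi (hcvr m hm)
    have h2 : m + j + 1 = m + (j + 1) := by ring
    rwa [h2] at h1

end Pool.Agent.Helper151_AB
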