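import Mathlib
import Pool.Agent.Helper151_AB.Phase
import Pool.Agent.Helper151_AB.Zero

set_option autoImplicit false

/-! Peeling off members of a fractional decomposition, without loss for the tight sets. -/

namespace Pool.Agent.Helper151_AB

open Finset
open Pool.Agent.H478R3.Borsuk (IsRF inter)

variable {α : Type} [DecidableEq α]

theorem exp_le_quad {x : ℝ} (h0 : 0 ≤ x) (h1 : x ≤ 1) : Real.exp x ≤ 1 + x + x ^ 2 := by
  have h2 := Real.abs_exp_sub_one_sub_id_le (x := x) (by rw [abs_of_nonneg h0]; exact h1)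
  have h3 := le_abs_self (Real.exp x - 1 - x)
  linarith

theorem rank_clo [Fintype α] {r : Finset α → ℕ} (h : IsRF r) {A : Finset α}
    (hA : r A = A.card) : r (clo r A) = A.card := by
  have h3 : ∀ e ∈ clo r A, r (insert e A) = r A := by
    intro e he
    unfold clo at he
    exact (mem_filter.1 he).2
  have h4 := cl_union h _ h3
  have h5 : A ⊆ clo r A := by
    intro e he
    unfold clo
    rw [mem_filter, insert_eq_of_mem he]
    exact ⟨mem_univ _, rfl⟩
  rw [union_eq_right.2 h5] at h4
  rw [h4, hA]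

theorem plain_step [Fintype α] {r : Bool → Finset α → ℕ} (hr : ∀ b, IsRF (r b)) {a θ θ' R : ℝ}
    (ha : 1 ≤ a) (hθ0 : 0 < θ') (hθR : θ' * R ≤ 1) (hR : ∀ b X, (r b X : ℝ) ≤ R)
    (hθ : θ ≤ θ' * (1 - (1 + θ' * R) / a)) (S : Finset α) (hS : ∀ b, Cov (r b) a S) :
    ∃ C, C ⊆ S ∧ (∀ b, Ind (r b) C) ∧ pt r θ' (a - 1) (S \ C) ≤ pt r θ a S := by
  classical
  have ha0 : 0 < a := by linarith
  set x : α → ℝ := fun e => if e ∈ S then 1 else 0 with hx
  have hxs : ∀ X : Finset α, ∑ e ∈ X, x e = ((S ∩ X).card : ℝ) := by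
    intro X
    rw [hx, inter_comm]
    simp only [sum_ite_mem, sum_const, nsmul_eq_mul, mul_one]
  obtain ⟨u, hu0, hui, hut, hux⟩ := decomp (hr true) (hr false) x a
    (fun a => by simp only [hx]; split_ifs <;> norm_num) ha0.le
    (fun X => by rw [hxs]; exact hS true X)
    (fun X => by rw [hxs]; exact hS false X)
  have hsub : ∀ I, u I ≠ 0 → I ⊆ S := by
    intro I hI a ha
    by_contra haS
    have e1 := hux a
    rw [hx] at e1
    simp only [haS, if_false] at e1
    have e2 := (Finset.sum_eq_zero_iff_of_nonneg (fun J _ => by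
      split_ifs
      · exact hu0 J
      · exact le_refl _)).1 e1 I (mem_univ _)
    rw [if_pos ha] at e2
    exact hI e2
  have hY : ∀ Z : Finset α, ∑ I, u I * ((I ∩ Z).card : ℝ) = ((S ∩ Z).card : ℝ) := by
    intro Z
    rw [← hxs]
    have : ∀ I : Finset α, u I * ((I ∩ Z).card : ℝ) = ∑ a ∈ Z, (if a ∈ I then u I else 0) := by
      intro I
      rw [inter_comm]
      simp only [sum_ite_mem, sum_const, nsmul_eq_mul]
      ring
    simp only [this]
    rw [sum_comm]
    apply Finset.sum_congr rfl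
    intro a _
    exact hux a
  have hind : ∀ I, u I ≠ 0 → ∀ b, Ind (r b) I := by
    intro I hI b
    cases b
    · exact (hui I hI).2
    · exact (hui I hI).1
  -- the average of the new potential
  have havg : ∑ I, u I * pt r θ' (a - 1) (S \ I) ≤ a * pt r θ a S := by
    unfold pt
    simp only [Finset.mul_sum]
    rw [sum_comm]
    apply Finset.sum_le_sum
    intro j _
    by_cases hj : gi r j = 0
    · simp [hj]
    have hrA : r j.1 j.2 = j.2.card := by
      unfold gi at hj
      by_contra h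
      apply hj
      rw [if_neg]
      tauto
    set Y := clo (r j.1) j.2 with hYdef
    have hrY : r j.1 Y = j.2.card := rank_clo (hr j.1) hrA
    set m : ℝ := (j.2.card : ℝ) with hm
    have hmR : m ≤ R := by
      have := hR j.1 Y
      rw [hrY] at this
      exact this
    set d : ℝ := a * m - ((S ∩ Y).card : ℝ) with hd
    have hd0 : 0 ≤ d := by
      have := hS j.1 Y
      rw [hrY] at this
      rw [hd]
      linarith
    have hterm : ∀ I, u I * (gi r j * Real.exp (θ' * ((((S \ I) ∩ Y).card : ℝ) - (a - 1) * m))) ≤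
        gi r j * Real.exp (-(θ' * d)) * (u I * (1 + θ' * (1 + θ' * R) * (m - ((I ∩ Y).card : ℝ)))) := by
      intro I
      by_cases hI : u I = 0
      · simp [hI]
      have h1 : ((I ∩ Y).card : ℝ) ≤ m := by
        have := inter_le (hr j.1) (hind I hI j.1) Y
        rw [hrY] at this
        rw [hm]
        exact_mod_cast this
      have h2 : (((S \ I) ∩ Y).card : ℝ) = ((S ∩ Y).card : ℝ) - ((I ∩ Y).card : ℝ) := by
        have h3 : (S \ I) ∩ Y = (S ∩ Y) \ (I ∩ Y) := by
          ext e
          simp only [mem_inter, mem_sdiff]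
          tauto
        have h4 : I ∩ Y ⊆ S ∩ Y := inter_subset_inter_right (hsub I hI)
        rw [h3, cast_card_sdiff h4]
      set s : ℝ := m - ((I ∩ Y).card : ℝ) with hs
      have hs0 : 0 ≤ s := by linarith
      have hsR : s ≤ R := by
        have : (0 : ℝ) ≤ ((I ∩ Y).card : ℝ) := Nat.cast_nonneg _
        linarith
      have h5 : θ' * ((((S \ I) ∩ Y).card : ℝ) - (a - 1) * m) = -(θ' * d) + θ' * s := by
        rw [h2, hd, hs]
        ring
      rw [h5, Real.exp_add]
      have hx0 : 0 ≤ θ' * s := by positivity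
      have hx1 : θ' * s ≤ 1 := by
        have := mul_le_mul_of_nonneg_left hsR hθ0.le
        linarith
      have h6 := exp_le_quad hx0 hx1
      have h7 : 1 + θ' * s + (θ' * s) ^ 2 ≤ 1 + θ' * (1 + θ' * R) * s := by
        have h8 : (θ' * s) ^ 2 ≤ θ' * s * (θ' * R) := by
          rw [pow_two]
          apply mul_le_mul_of_nonneg_left _ hx0
          exact mul_le_mul_of_nonneg_left hsR hθ0.le
        nlinarith
      have h9 : 0 ≤ u I * (gi r j * Real.exp (-(θ' * d))) :=
        mul_nonneg (hu0 I) (mul_nonneg (gi_nonneg r j) (Real.exp_pos _).le)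
      have h10 := mul_le_mul_of_nonneg_left (h6.trans h7) h9
      calc u I * (gi r j * (Real.exp (-(θ' * d)) * Real.exp (θ' * s)))
          = u I * (gi r j * Real.exp (-(θ' * d))) * Real.exp (θ' * s) := by ring
        _ ≤ u I * (gi r j * Real.exp (-(θ' * d))) * (1 + θ' * (1 + θ' * R) * s) := h10
        _ = gi r j * Real.exp (-(θ' * d)) * (u I * (1 + θ' * (1 + θ' * R) * s)) := by ring
    refine (Finset.sum_le_sum (fun I _ => hterm I)).trans ?_
    rw [← Finset.mul_sum]
    have hsum : ∑ I, u I * (1 + θ' * (1 + θ' * R) * (m - ((I ∩ Y).card : ℝ))) =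
        a + θ' * (1 + θ' * R) * d := by
      have e1 : ∀ I, u I * (1 + θ' * (1 + θ' * R) * (m - ((I ∩ Y).card : ℝ))) =
          u I * (1 + θ' * (1 + θ' * R) * m) - θ' * (1 + θ' * R) * (u I * ((I ∩ Y).card : ℝ)) := by
        intro I
        ring
      simp only [e1]
      rw [Finset.sum_sub_distrib, ← Finset.sum_mul, ← Finset.mul_sum, hut, hY, hd]
      ring
    rw [hsum]
    have h11 : a + θ' * (1 + θ' * R) * d ≤ a * Real.exp (θ' * (1 + θ' * R) * d / a) := by
      have := Real.add_one_le_exp (θ' * (1 + θ' * R) * d / a)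
      have h12 := mul_le_mul_of_nonneg_left this ha0.le
      have h13 : a * (θ' * (1 + θ' * R) * d / a + 1) = a + θ' * (1 + θ' * R) * d := by
        field_simp
        ring
      linarith
    have h14 := mul_le_mul_of_nonneg_left h11
      (mul_nonneg (gi_nonneg r j) (Real.exp_pos (-(θ' * d))).le)
    refine h14.trans ?_
    have h15 : gi r j * Real.exp (-(θ' * d)) * (a * Real.exp (θ' * (1 + θ' * R) * d / a)) =
        a * (gi r j * Real.exp (-(θ' * d) + θ' * (1 + θ' * R) * d / a)) := by
      rw [Real.exp_add]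
      ring
    rw [h15]
    apply mul_le_mul_of_nonneg_left _ ha0.le
    apply mul_le_mul_of_nonneg_left _ (gi_nonneg r j)
    apply Real.exp_le_exp.2
    have h16 : -(θ' * d) + θ' * (1 + θ' * R) * d / a = -(θ' * (1 - (1 + θ' * R) / a) * d) := by
      field_simp
      ring
    have h17 : θ * (((S ∩ Y).card : ℝ) - a * m) = -(θ * d) := by
      rw [hd]
      ring
    rw [h16, h17]
    have := mul_le_mul_of_nonneg_right hθ hd0
    linarith
  by_contra hcon
  push Not at hcon
  have hlt : ∀ I, u I ≠ 0 → pt r θ a S < pt r θ' (a - 1) (S \ I) := fun I hI =>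
    hcon I (hsub I hI) (hind I hI)
  have hex : ∃ I, u I ≠ 0 := by
    by_contra h0
    push Not at h0
    rw [Finset.sum_eq_zero (fun I _ => h0 I)] at hut
    linarith
  obtain ⟨I₀, hI₀⟩ := hex
  have h1 : ∑ I, u I * pt r θ a S < ∑ I, u I * pt r θ' (a - 1) (S \ I) := by
    apply Finset.sum_lt_sum
    · intro I _
      by_cases hI : u I = 0
      · simp [hI]
      · exact mul_le_mul_of_nonneg_left (hlt I hI).le (hu0 I)
    · refine ⟨I₀, mem_univ _, ?_⟩
      exact mul_lt_mul_of_pos_left (hlt I₀ hI₀) (lt_of_le_of_ne (hu0 I₀) (Ne.symm hI₀))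
  rw [← Finset.sum_mul, hut] at h1
  linarith

theorem theta_step {R lam a v : ℝ} (hR : 0 < R) (hv : R ≤ v) (hlam : lam ≤ v) (hlam0 : 0 < lam)
    (ha : 0 < a) (hla : lam * a = v + lam + 2 * R) :
    1 / (v + lam) ≤ 1 / v * (1 - (1 + 1 / v * R) / a) := by
  have hv0 : 0 < v := by linarith
  have h1 : 1 / v * R ≤ 1 := by
    rw [one_div, inv_mul_le_iff₀ hv0]
    linarith
  have h2 : (v + lam) * (1 + 1 / v * R) ≤ lam * a := by
    have e1 : (v + lam) * (1 + 1 / v * R) = v + lam + R + lam * (1 / v * R) := by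
      field_simp
      ring
    have e2 : lam * (1 / v * R) ≤ R := by
      have : lam * (1 / v * R) = (lam / v) * R := by ring
      rw [this]
      have : lam / v ≤ 1 := by
        rw [div_le_one hv0]
        exact hlam
      nlinarith
    rw [e1, hla]
    linarith
  have h3 : (v + lam) * ((1 + 1 / v * R) / a) ≤ lam := by
    rw [← mul_div_assoc, div_le_iff₀ ha]
    exact h2
  rw [div_le_iff₀ (by linarith)]
  have h4 : 1 / v * (1 - (1 + 1 / v * R) / a) * (v + lam) =
      1 / v * ((v + lam) - (v + lam) * ((1 + 1 / v * R) / a)) := by ring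
  rw [h4]
  have h5 : 1 / v * v ≤ 1 / v * ((v + lam) - (v + lam) * ((1 + 1 / v * R) / a)) := by
    apply mul_le_mul_of_nonneg_left _ (by positivity)
    linarith
  have h6 : 1 / v * v = 1 := by field_simp
  linarith

theorem plain_phase [Fintype α] {r : Bool → Finset α → ℕ} (hr : ∀ b, IsRF (r b)) {k e R : ℝ}
    (hR1 : 1 ≤ R) (hR : ∀ b X, (r b X : ℝ) ≤ R) (he : 0 < e) (hk : 0 ≤ k) (hke : 6 ≤ k + e)
    (hn : 4 * (Fintype.card α : ℝ) * Real.exp (-(1 / (4 * R) * e)) < 1)
    (S : Finset α) (hS : ∀ b, Cov (r b) k S) :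
    ∃ (S' : Finset α) (T : ℕ), (T : ℝ) ≤ (k + e) / 2 ∧ (k + e) / 2 < T + 1 ∧
      (∀ b, Cov (r b) (k + e - T) S') ∧ ∀ m, Cvr r m S' → Cvr r (m + T) S := by
  have hR0 : 0 < R := by linarith
  set a₀ := k + e with ha₀
  have ha0 : 0 < a₀ := by linarith
  set lam := 6 * R / a₀ with hlam
  have hlam0 : 0 < lam := by positivity
  have hlamR : lam ≤ R := by
    rw [hlam, div_le_iff₀ ha0]
    nlinarith
  have hlama : lam * a₀ = 6 * R := by
    rw [hlam]
    field_simp
  have hloop : ∀ S' : Finset α, S' ⊆ S → ∀ b X, r b X = 0 → S' ∩ X = ∅ := by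
    intro S' hS' b X hX
    have h1 := cov_subset (hS b) hS' X
    rw [hX] at h1
    have h2 : ((S' ∩ X).card : ℝ) ≤ 0 := by
      rw [Nat.cast_zero, mul_zero] at h1
      exact h1
    have h3 : (S' ∩ X).card ≤ 0 := by exact_mod_cast h2
    exact card_eq_zero.1 (by omega)
  set T := ⌊a₀ / 2⌋₊ with hT
  have hT1 : (T : ℝ) ≤ a₀ / 2 := Nat.floor_le (by positivity)
  have hT2 : a₀ / 2 < T + 1 := Nat.lt_floor_add_one _
  have key : ∀ t : ℕ, t ≤ T → ∃ S', S' ⊆ S ∧ (∀ m, Cvr r m S' → Cvr r (m + t) S) ∧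
      pt r (1 / (lam * (a₀ - t) - 2 * R)) (a₀ - t) S' < 1 := by
    intro t
    induction t with
    | zero =>
      intro _
      refine ⟨S, le_refl _, fun m h => by simpa using h, ?_⟩
      have e1 : lam * (a₀ - ((0 : ℕ) : ℝ)) - 2 * R = 4 * R := by
        rw [Nat.cast_zero, sub_zero, hlama]
        ring
      rw [e1, Nat.cast_zero, sub_zero]
      refine lt_of_le_of_lt ?_ hn
      have hn' : (Fintype.card α : ℝ) * Real.exp (-(1 / (4 * R) * e)) ≤ 1 := by
        have : 0 ≤ (Fintype.card α : ℝ) * Real.exp (-(1 / (4 * R) * e)) := by positivity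
        linarith
      refine le_trans ?_ (sum_gi r hn')
      unfold pt
      apply Finset.sum_le_sum
      intro j _
      by_cases hj : gi r j = 0
      · rw [hj]
        simp
      · apply mul_le_mul_of_nonneg_left _ (gi_nonneg r j)
        apply Real.exp_le_exp.2
        have h1 : r j.1 j.2 = j.2.card := by
          unfold gi at hj
          by_contra h
          apply hj
          rw [if_neg]
          tauto
        have h2 := rank_clo (hr j.1) h1
        have h3 := hS j.1 (clo (r j.1) j.2)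
        rw [h2] at h3
        have h4 : ((S ∩ clo (r j.1) j.2).card : ℝ) - a₀ * j.2.card ≤ -(e * j.2.card) := by
          rw [ha₀]
          linarith
        have h5 : 0 ≤ 1 / (4 * R) := by positivity
        have := mul_le_mul_of_nonneg_left h4 h5
        linarith
    | succ t ih =>
      intro htT
      obtain ⟨S', hS', hcvr, hpt⟩ := ih (by omega)
      have htT' : (t : ℝ) + 1 ≤ T := by exact_mod_cast htT
      set a := a₀ - (t : ℝ) with ha
      have ha' : a₀ / 2 + 1 ≤ a := by
        rw [ha]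
        linarith
      set v := lam * (a - 1) - 2 * R with hv
      have hvR : R ≤ v := by
        have : lam * (a₀ / 2) ≤ lam * (a - 1) := mul_le_mul_of_nonneg_left (by linarith) hlam0.le
        rw [hv]
        linarith
      have hu : lam * a - 2 * R = v + lam := by
        rw [hv]
        ring
      rw [hu] at hpt
      have hv0 : 0 < v := by linarith
      have hcov := cov_of_pt hr (by positivity : 0 < 1 / (v + lam)) (hloop S' hS') hpt
      obtain ⟨C, hCS, hC, hle⟩ := plain_step hr (a := a) (θ := 1 / (v + lam)) (θ' := 1 / v)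
        (R := R) (by linarith) (by positivity)
        (by
          rw [one_div, inv_mul_le_iff₀ (by linarith)]
          linarith) hR
        (theta_step hR0 hvR (by linarith) hlam0 (by linarith) (by rw [hv]; ring)) S' hcov
      have hcast : a₀ - ((t + 1 : ℕ) : ℝ) = a - 1 := by
        rw [ha]
        push_cast
        ring
      refine ⟨S' \ C, sdiff_subset.trans hS', ?_, ?_⟩
      · intro m hm
        have h1 := hcvr (m + 1) (cvr_step hCS hC hm)
        have h2 : m + 1 + t = m + (t + 1) := by ring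
        rw [h2] at h1
        exact h1
      · rw [hcast, ← hv]
        exact lt_of_le_of_lt hle hpt
  obtain ⟨S', hS', hcvr, hpt⟩ := key T (le_refl _)
  refine ⟨S', T, hT1, hT2, ?_, hcvr⟩
  refine cov_of_pt hr ?_ (hloop S' hS') hpt
  have : lam * (a₀ / 2) ≤ lam * (a₀ - T) := mul_le_mul_of_nonneg_left (by linarith) hlam0.le
  have h1 : 0 < lam * (a₀ - T) - 2 * R := by linarith
  positivity

/-- Iterated halving. -/
theorem plain_iter [Fintype α] {r : Bool → Finset α → ℕ} (hr : ∀ b, IsRF (r b)) {e R E : ℝ}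
    (hR1 : 1 ≤ R) (hR : ∀ b X, (r b X : ℝ) ≤ R) (he : 6 ≤ e)
    (hn : 4 * (Fintype.card α : ℝ) * Real.exp (-(1 / (4 * R) * e)) < 1)
    (hbase : ∀ (k : ℝ) (S : Finset α), 0 ≤ k → k ≤ 4 * e → (∀ b, Cov (r b) k S) →
      ∃ m : ℕ, Cvr r m S ∧ (m : ℝ) ≤ k + E) (j : ℕ) :
    ∀ (k : ℝ) (S : Finset α), 0 ≤ k → k ≤ 4 * e * (4 / 3) ^ j → (∀ b, Cov (r b) k S) →
      ∃ m : ℕ, Cvr r m S ∧ (m : ℝ) ≤ k + j * e + E := by
  induction j with
  | zero =>
    intro k S hk0 hk hS
    obtain ⟨m, hm, hle⟩ := hbase k S hk0 (by simpa using hk) hS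
    exact ⟨m, hm, by simpa using hle⟩
  | succ j ih =>
    intro k S hk0 hk hS
    rcases le_or_gt k (4 * e) with h | h
    · obtain ⟨m, hm, hle⟩ := hbase k S hk0 h hS
      refine ⟨m, hm, hle.trans ?_⟩
      have : 0 ≤ ((j + 1 : ℕ) : ℝ) * e := by positivity
      linarith
    · obtain ⟨S', T, hT1, hT2, hcov, hcvr⟩ := plain_phase hr hR1 hR (by linarith) hk0
        (by linarith) hn S hS
      obtain ⟨m, hm, hle⟩ := ih (k + e - T) S' (by linarith) (by
        have h1 : k + e - T ≤ 3 / 4 * k := by linarith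
        have h2 : (4 / 3 : ℝ) ^ (j + 1) = (4 / 3) ^ j * (4 / 3) := pow_succ _ _
        rw [h2] at hk
        linarith) hcov
      refine ⟨m + T, hcvr m hm, ?_⟩
      push_cast
      linarith

end Pool.Agent.Helper151_AB
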