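import Mathlib
import Pool.Agent.Helper151_AB.Plain
import Pool.Agent.Helper151_AB.Exact
import Pool.Agent.Helper151_AB.Asym
import Pool.Agent.Helper151_AB.PavExt

set_option autoImplicit false

/-! The bound depending on the rank. -/

namespace Pool.Agent.Helper151_AB

open Finset
open Pool.Agent.H478R3.Borsuk (IsRF inter)

variable {α : Type} [DecidableEq α]

/-- The rank function on a subset. -/
def sr (r : Finset α → ℕ) (S : Finset α) (X : Finset {x // x ∈ S}) : ℕ :=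
  r (X.map (Function.Embedding.subtype _))

theorem sr_isRF {r : Finset α → ℕ} (h : IsRF r) (S : Finset α) : IsRF (sr r S) where
  empty := by
    unfold sr
    rw [map_empty, h.empty]
  mono := fun A B hAB => h.mono _ _ (map_subset_map.2 hAB)
  ins := by
    intro e A
    unfold sr
    rw [map_insert]
    exact h.ins _ _
  sub := by
    intro A B
    unfold sr
    rw [map_union, map_inter]
    exact h.sub _ _

theorem cvr_sub {r : Bool → Finset α → ℕ} {S : Finset α} {m : ℕ}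
    (h : Cvr (fun b => sr (r b) S) m univ) : Cvr r m S := by
  obtain ⟨f, hf1, hf2⟩ := h
  refine ⟨fun e => if he : e ∈ S then f ⟨e, he⟩ else 0, ?_, ?_⟩
  · intro e he
    simp only [he, dif_pos]
    exact hf1 _ (mem_univ _)
  · intro j b
    have h1 : S.filter (fun e => (if he : e ∈ S then f ⟨e, he⟩ else 0) = j) =
        (univ.filter (fun e : {x // x ∈ S} => f e = j)).map (Function.Embedding.subtype _) := by
      ext e
      simp only [mem_filter, mem_map, mem_univ, true_and, Function.Embedding.coe_subtype]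
      constructor
      · rintro ⟨he, h2⟩
        rw [dif_pos he] at h2
        exact ⟨⟨e, he⟩, h2, rfl⟩
      · rintro ⟨⟨x, hx⟩, h2, rfl⟩
        refine ⟨hx, ?_⟩
        simp only [hx, dif_pos]
        exact h2
    rw [h1]
    have h2 : r b ((univ.filter (fun e : {x // x ∈ S} => f e = j)).map
        (Function.Embedding.subtype _)) = (univ.filter (fun e : {x // x ∈ S} => f e = j)).card :=
      hf2 j b
    unfold Ind
    rw [h2, card_map]

theorem asym_real [Fintype α] {r : Bool → Finset α → ℕ} (hr : ∀ b, IsRF (r b)) {k : ℝ}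
    (hk0 : 0 ≤ k) (S : Finset α) (hn1 : 1 ≤ Fintype.card α) (hk : ∀ b, Cov (r b) k S) :
    ∃ m : ℕ, Cvr r m S ∧ (m : ℝ) ≤ k +
      600 * Real.log (Fintype.card α + 1) ^ (1 / 3 : ℝ) * k ^ (2 / 3 : ℝ) +
      4000000 * Real.log (Fintype.card α + 1) ^ 2 := by
  have hn1' : (1 : ℝ) ≤ (Fintype.card α : ℝ) := by
    exact_mod_cast hn1
  set n : ℝ := (Fintype.card α : ℝ) with hn
  set ℓ := Real.log (n + 1) with hℓ
  have hℓ2 : Real.log 2 ≤ ℓ := Real.log_le_log (by norm_num) (by linarith)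
  have hlog2 : 0.69 < Real.log 2 := by
    have := Real.log_two_gt_d9
    linarith
  have hℓ0 : 0 < ℓ := by linarith
  set Λ := 50000 * ℓ with hΛ
  have hΛ0 : 0 < Λ := by positivity
  set c := Λ ^ (1 / 3 : ℝ) with hc
  have hc0 : 0 ≤ c := by positivity
  have hc3 : c ^ 3 = Λ := by
    rw [hc, ← Real.rpow_natCast, ← Real.rpow_mul hΛ0.le]
    norm_num
  have hΛn : 7744 * Real.log (12 * n ^ 2) < Λ := by
    have h1 : Real.log (12 * n ^ 2) ≤ 6 * ℓ := by
      have h2 : Real.log (12 * n ^ 2) ≤ Real.log (2 ^ 4 * (n + 1) ^ 2) := by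
        apply Real.log_le_log (by positivity)
        nlinarith
      have h3 : Real.log (2 ^ 4 * (n + 1) ^ 2) = 4 * Real.log 2 + 2 * ℓ := by
        rw [Real.log_mul (by norm_num) (by positivity), Real.log_pow, Real.log_pow]
        push_cast
        ring
      rw [h3] at h2
      linarith
    rw [hΛ]
    linarith
  obtain ⟨j, hj⟩ : ∃ j : ℕ, k < 2 ^ j := pow_unbounded_of_one_lt _ (by norm_num)
  set b := k ^ (1 / 3 : ℝ) with hb
  have hb0 : 0 ≤ b := by positivity
  have hb3 : b ^ 3 = k := by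
    rw [hb, ← Real.rpow_natCast, ← Real.rpow_mul hk0]
    norm_num
  have hb2 : b ^ 2 = k ^ (2 / 3 : ℝ) := by
    rw [hb, ← Real.rpow_natCast, ← Real.rpow_mul hk0]
    norm_num
  have hh0 : (0 : ℝ) ≤ (1 / 2 : ℝ) ^ (1 / 3 : ℝ) := by positivity
  have hh : ((1 / 2 : ℝ) ^ (1 / 3 : ℝ)) ^ 3 = 1 / 2 := by
    rw [← Real.rpow_natCast, ← Real.rpow_mul (by norm_num)]
    norm_num
  obtain ⟨m, hm, hmle⟩ := asym_aux hr hc0 hc3 (by linarith) hΛn rfl hh0 hh j b S hb0
    (by
      rw [hb3]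
      have : (1 : ℝ) * 2 ^ j ≤ 64 * Λ * 2 ^ j := by
        apply mul_le_mul_of_nonneg_right _ (by positivity)
        linarith
      linarith)
    (by
      intro i
      rw [hb3]
      exact hk i)
  refine ⟨m, hm, hmle.trans ?_⟩
  rw [hb3, hb2]
  have h1 : c ≤ 40 * ℓ ^ (1 / 3 : ℝ) := by
    have h2 : (40 * ℓ ^ (1 / 3 : ℝ)) ^ 3 = 64000 * ℓ := by
      rw [mul_pow, ← Real.rpow_natCast (ℓ ^ (1 / 3 : ℝ)), ← Real.rpow_mul hℓ0.le]
      norm_num
    by_contra hlt
    push Not at hlt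
    have h3 : (40 * ℓ ^ (1 / 3 : ℝ)) ^ 3 < c ^ 3 := pow_lt_pow_left₀ hlt (by positivity)
      (by norm_num)
    rw [h2, hc3] at h3
    linarith
  have h2 : 15 * c * k ^ (2 / 3 : ℝ) ≤ 600 * ℓ ^ (1 / 3 : ℝ) * k ^ (2 / 3 : ℝ) := by
    apply mul_le_mul_of_nonneg_right _ (by positivity)
    linarith
  have h3 : Real.log n ≤ ℓ := Real.log_le_log (by linarith) (by linarith)
  have h4 : 64 * Λ * Real.log n ≤ 64 * Λ * ℓ := mul_le_mul_of_nonneg_left h3 (by positivity)
  have h5 : 64 * Λ * ℓ + 1 ≤ 4000000 * ℓ ^ 2 := by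
    rw [hΛ]
    nlinarith
  linarith

theorem log_bound {n R : ℕ} (hn : n ≤ 2 * (R * R * R)) (hR1 : 1 ≤ R) :
    Real.log ((n : ℝ) + 1) ≤ 4 * Real.log ((R : ℝ) + 1) := by
  have h1 : (1 : ℝ) ≤ R := by exact_mod_cast hR1
  have h2 : (n : ℝ) ≤ 2 * (R * R * R) := by exact_mod_cast hn
  have h3 : (4 : ℝ) * Real.log ((R : ℝ) + 1) = Real.log (((R : ℝ) + 1) ^ 4) := by
    rw [Real.log_pow]
    norm_num
  rw [h3]
  apply Real.log_le_log (by positivity)
  nlinarith [mul_pos (show (0 : ℝ) < R by linarith) (show (0 : ℝ) < R by linarith),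
    pow_pos (show (0 : ℝ) < R by linarith) 3, pow_pos (show (0 : ℝ) < R by linarith) 4]

theorem core_AB [Fintype α] {r : Bool → Finset α → ℕ} (hr : ∀ b, IsRF (r b)) {k R : ℕ}
    (hR1 : 1 ≤ R) (hkR : k ≤ 2 * (R * R)) (hn : Fintype.card α ≤ 2 * (R * R * R))
    (hn1 : 1 ≤ Fintype.card α) (hR : ∀ b X, r b X ≤ R) (hk : ∀ b, Cov (r b) k univ) :
    (∃ m : ℕ, Cvr r m univ ∧ (m : ℝ) ≤ k +
      (1000 * (k : ℝ) ^ (2 / 3 : ℝ) * Real.log (R + 1) ^ (1 / 3 : ℝ) +
        100000000 * Real.log (R + 1) ^ 2)) ∧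
    (∃ m : ℕ, Cvr r m univ ∧ (m : ℝ) ≤ k + 100000000 * R * Real.log (R + 1) ^ 2) := by
  have hR1' : (1 : ℝ) ≤ R := by exact_mod_cast hR1
  have hn1' : (1 : ℝ) ≤ (Fintype.card α : ℝ) := by exact_mod_cast hn1
  have hlog := log_bound hn hR1
  have hn' : (Fintype.card α : ℝ) ≤ 2 * (R * R * R) := by exact_mod_cast hn
  have hkR' : (k : ℝ) ≤ 2 * (R * R) := by exact_mod_cast hkR
  have hR' : ∀ b X, (r b X : ℝ) ≤ (R : ℝ) := fun b X => by exact_mod_cast hR b X
  set n : ℝ := (Fintype.card α : ℝ) with hndef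
  set L := Real.log ((R : ℝ) + 1) with hL
  have hlog2 : 0.69 < Real.log 2 := by
    have := Real.log_two_gt_d9
    linarith
  have hL2 : Real.log 2 ≤ L := Real.log_le_log (by norm_num) (by linarith)
  have hL0 : 0 < L := by linarith
  set ℓ := Real.log (n + 1) with hℓ
  have hℓ0 : 0 ≤ ℓ := Real.log_nonneg (by linarith)
  have h4 : (4 * L) ^ (1 / 3 : ℝ) ≤ 5 / 3 * L ^ (1 / 3 : ℝ) := by
    rw [Real.mul_rpow (by norm_num) hL0.le]
    apply mul_le_mul_of_nonneg_right _ (by positivity)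
    have h5 : (4 : ℝ) ^ (1 / 3 : ℝ) ≤ ((5 / 3 : ℝ) ^ (3 : ℝ)) ^ (1 / 3 : ℝ) := by
      apply Real.rpow_le_rpow (by norm_num) _ (by norm_num)
      norm_num
    rw [← Real.rpow_mul (by norm_num)] at h5
    norm_num at h5
    norm_num
    exact h5
  have hsq : ℓ ^ 2 ≤ 16 * L ^ 2 := by
    nlinarith
  have hreal : ∀ (k' : ℝ) (S : Finset α), 0 ≤ k' → (∀ b, Cov (r b) k' S) →
      ∃ m : ℕ, Cvr r m S ∧ (m : ℝ) ≤ k' + 1000 * k' ^ (2 / 3 : ℝ) * L ^ (1 / 3 : ℝ) +
        64000000 * L ^ 2 := by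
    intro k' S hk' hS
    obtain ⟨m, hm, hle⟩ := asym_real hr hk' S hn1 hS
    refine ⟨m, hm, hle.trans ?_⟩
    rw [← hndef, ← hℓ]
    have h5 : ℓ ^ (1 / 3 : ℝ) ≤ 5 / 3 * L ^ (1 / 3 : ℝ) :=
      (Real.rpow_le_rpow hℓ0 hlog (by norm_num)).trans h4
    have h6 : 600 * ℓ ^ (1 / 3 : ℝ) * k' ^ (2 / 3 : ℝ) ≤
        1000 * k' ^ (2 / 3 : ℝ) * L ^ (1 / 3 : ℝ) := by
      have := mul_le_mul_of_nonneg_right h5 (by positivity : 0 ≤ 600 * k' ^ (2 / 3 : ℝ))
      linarith
    linarith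
  constructor
  · obtain ⟨m, hm, hle⟩ := hreal k univ (Nat.cast_nonneg _) hk
    refine ⟨m, hm, hle.trans ?_⟩
    have := sq_nonneg L
    linarith
  · set e : ℝ := 40 * (R * L) with he
    have hRL : 0.69 ≤ R * L := by nlinarith
    have he6 : 6 ≤ e := by
      rw [he]
      linarith
    have hnexp : 4 * n * Real.exp (-(1 / (4 * (R : ℝ)) * e)) < 1 := by
      have e1 : -(1 / (4 * (R : ℝ)) * e) = -Real.log (((R : ℝ) + 1) ^ 10) := by
        rw [Real.log_pow, he]
        field_simp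
        rw [hL]
        norm_num
      rw [e1, Real.exp_neg, Real.exp_log (by positivity), ← div_eq_mul_inv,
        div_lt_one (by positivity)]
      have e2 : (R : ℝ) + 1 ≥ 2 := by linarith
      have e3 : ((R : ℝ) + 1) ^ 10 = ((R : ℝ) + 1) ^ 3 * ((R : ℝ) + 1) ^ 7 := by ring
      have e4 : (2 : ℝ) ^ 7 ≤ ((R : ℝ) + 1) ^ 7 := pow_le_pow_left₀ (by norm_num) e2 7
      have e5 : (R : ℝ) ^ 3 ≤ ((R : ℝ) + 1) ^ 3 := pow_le_pow_left₀ (by linarith) (by linarith) 3
      have e6 : (R : ℝ) ^ 3 * 2 ^ 7 ≤ ((R : ℝ) + 1) ^ 3 * ((R : ℝ) + 1) ^ 7 :=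
        mul_le_mul e5 e4 (by norm_num) (by positivity)
      have e7 : (1 : ℝ) ≤ (R : ℝ) ^ 3 := one_le_pow₀ hR1'
      rw [e3]
      nlinarith
    obtain ⟨E, hE⟩ : ∃ E : ℝ, E = 64200000 * ((R : ℝ) * L ^ 2) := ⟨_, rfl⟩
    have hbase : ∀ (k' : ℝ) (S : Finset α), 0 ≤ k' → k' ≤ 4 * e → (∀ b, Cov (r b) k' S) →
        ∃ m : ℕ, Cvr r m S ∧ (m : ℝ) ≤ k' + E := by
      intro k' S hk' hke hS
      obtain ⟨m, hm, hle⟩ := hreal k' S hk' hS
      refine ⟨m, hm, hle.trans ?_⟩
      rw [hE]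
      have h5 : k' ^ (2 / 3 : ℝ) * L ^ (1 / 3 : ℝ) ≤ 2 / 3 * k' + 1 / 3 * L :=
        Real.geom_mean_le_arith_mean2_weighted (by norm_num) (by norm_num) hk' hL0.le
          (by norm_num)
      have h6 : L ≤ R * L := by nlinarith
      have h7 : R * L ≤ 1.45 * (R * L ^ 2) := by nlinarith
      have h8 : L ^ 2 ≤ R * L ^ 2 := by nlinarith [sq_nonneg L]
      rw [he] at hke
      nlinarith
    obtain ⟨j, hj⟩ : ∃ j, j = ⌈4 * L⌉₊ := ⟨_, rfl⟩
    have hj1 : 4 * L ≤ j := by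
      rw [hj]
      exact Nat.le_ceil _
    have hj2 : (j : ℝ) ≤ 4 * L + 1 := by
      rw [hj]
      exact (Nat.ceil_lt_add_one (by positivity)).le
    have hpow : (R : ℝ) + 1 ≤ (4 / 3) ^ j := by
      have h5 : (1 : ℝ) / 4 ≤ Real.log (4 / 3) := by
        have := Real.one_sub_inv_le_log_of_pos (show (0 : ℝ) < 4 / 3 by norm_num)
        norm_num at this ⊢
        linarith
      have h6 : L ≤ Real.log ((4 / 3) ^ j) := by
        rw [Real.log_pow]
        nlinarith
      rw [hL] at h6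
      exact (Real.log_le_log_iff (by positivity) (by positivity)).1 h6
    have hk4 : (k : ℝ) ≤ 4 * e * (4 / 3) ^ j := by
      have h5 : 4 * e * ((R : ℝ) + 1) ≤ 4 * e * (4 / 3) ^ j :=
        mul_le_mul_of_nonneg_left hpow (by positivity)
      refine le_trans ?_ h5
      rw [he]
      nlinarith
    have hk00 : (0 : ℝ) ≤ (k : ℝ) := Nat.cast_nonneg _
    obtain ⟨m, hm, hle⟩ := plain_iter hr hR1' hR' he6 hnexp hbase j (k : ℝ) univ hk00 hk4 hk
    refine ⟨m, hm, hle.trans ?_⟩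
    rw [hE]
    have h5 : (j : ℝ) * e ≤ (4 * L + 1) * e := mul_le_mul_of_nonneg_right hj2 (by positivity)
    have h6 : (4 * L + 1) * e ≤ 300 * (R * L ^ 2) := by
      have h7 : 1 ≤ 1.45 * L := by linarith
      have h8 : (4 * L + 1) * e ≤ (5.45 * L) * e := by
        apply mul_le_mul_of_nonneg_right _ (by positivity)
        linarith
      have h9 : (5.45 * L) * e = 218 * (R * L ^ 2) := by
        rw [he]
        ring
      have h10 : 0 ≤ R * L ^ 2 := by positivity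
      linarith
    have h11 : 0 ≤ R * L ^ 2 := by positivity
    linarith

theorem cov_cast {r : Finset α → ℕ} {k : ℕ} {S : Finset α}
    (h : ∀ X : Finset α, (S ∩ X).card ≤ k * r X) : Cov r (k : ℝ) S := by
  intro X
  exact_mod_cast h X

theorem combined [Fintype α] {r : Bool → Finset α → ℕ} (hr : ∀ b, IsRF (r b)) {k R : ℕ}
    (hn : Fintype.card α ≤ k * R) (hk : ∀ b (X : Finset α), X.card ≤ k * r b X) :
    ∃ m : ℕ, Cvr r m univ ∧ (m : ℝ) ≤ k + min
      (1000 * (k : ℝ) ^ (2 / 3 : ℝ) * Real.log (R + 1) ^ (1 / 3 : ℝ) +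
        100000000 * Real.log (R + 1) ^ 2)
      (100000000 * R * Real.log (R + 1) ^ 2) := by
  classical
  rcases Nat.eq_zero_or_pos (Fintype.card α) with hn0 | hn1
  · have := Fintype.card_eq_zero_iff.1 hn0
    refine ⟨0, ?_, ?_⟩
    · have : (univ : Finset α) = ∅ := univ_eq_empty
      rw [this]
      exact cvr_empty hr
    · have h1 : (0 : ℝ) ≤ Real.log ((R : ℝ) + 1) := Real.log_nonneg (by
        have : (0 : ℝ) ≤ (R : ℝ) := Nat.cast_nonneg _
        linarith)
      have h2 : (0 : ℝ) ≤ (k : ℝ) := Nat.cast_nonneg _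
      rw [Nat.cast_zero]
      apply add_nonneg h2
      apply le_min <;> positivity
  have hk1 : 1 ≤ k := by
    rcases Nat.eq_zero_or_pos k with h | h
    · rw [h] at hn
      omega
    · exact h
  have hR1 : 1 ≤ R := by
    rcases Nat.eq_zero_or_pos R with h | h
    · rw [h] at hn
      omega
    · exact h
  obtain ⟨d, hd⟩ : ∃ d, Fintype.card α + d = k * R := ⟨k * R - Fintype.card α, by omega⟩
  have hcardE : Fintype.card (α ⊕ Fin d) = k * R := by
    rw [Fintype.card_sum, Fintype.card_fin, hd]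
  have hle : ∀ X : Finset (α ⊕ Fin d), X.card ≤ k * R := by
    intro X
    rw [← hcardE]
    exact card_le_univ X
  set q : Bool → Finset (α ⊕ Fin d) → ℕ := fun b => ext R (r b) with hq
  have hqr : ∀ b, IsRF (q b) := fun b => ext_isRF (β := Fin d) R (hr b)
  have hqR : ∀ b X, q b X ≤ R := fun b X => min_le_left _ _
  have hqk : ∀ b (X : Finset (α ⊕ Fin d)), X.card ≤ k * q b X := fun b X =>
    ext_cover (hk b) X (hle X)
  -- back to the original ground set
  have hback : ∀ m, Cvr q m univ → Cvr r m univ := by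
    rintro m ⟨f, hf1, hf2⟩
    refine ⟨fun a => f (Sum.inl a), fun e _ => hf1 _ (mem_univ _), fun j b => ?_⟩
    have h1 : univ.filter (fun a => f (Sum.inl a) = j) =
        (univ.filter (fun x => f x = j)).toLeft := by
      ext a
      simp
    rw [h1]
    exact ind_of_ext (hr b) (hf2 j b)
  have main : (∃ m : ℕ, Cvr q m univ ∧ (m : ℝ) ≤ k +
      (1000 * (k : ℝ) ^ (2 / 3 : ℝ) * Real.log (R + 1) ^ (1 / 3 : ℝ) +
        100000000 * Real.log (R + 1) ^ 2)) ∧
      (∃ m : ℕ, Cvr q m univ ∧ (m : ℝ) ≤ k + 100000000 * R * Real.log (R + 1) ^ 2) := by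
    rcases Nat.lt_or_ge (2 * (R * R)) k with hbig | hsmall
    · obtain ⟨j, rfl⟩ : ∃ j, k = 2 * (R * R) + j := ⟨k - 2 * (R * R), by omega⟩
      have hRR : 1 ≤ R * R := Nat.mul_pos hR1 hR1
      obtain ⟨S', hS', hcard, hc', hcvr⟩ := peel_iter hqr (k := 2 * (R * R)) (by omega) (by omega)
        hqR j univ (by rw [card_univ, hcardE]) (fun b X => by
          rw [univ_inter]
          exact hqk b X)
      have hcS : Fintype.card {x // x ∈ S'} = 2 * (R * R) * R := by
        rw [Fintype.card_coe, hcard]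
      have hRRR : 1 ≤ 2 * (R * R) * R := by
        have := Nat.mul_pos hRR hR1
        rw [Nat.mul_assoc]
        omega
      obtain ⟨⟨m₁, hm₁, hle₁⟩, ⟨m₂, hm₂, hle₂⟩⟩ := core_AB
        (r := fun b => sr (q b) S') (fun b => sr_isRF (hqr b) S') hR1 (le_refl _)
        (by rw [hcS, Nat.mul_assoc]) (by omega) (fun b X => hqR b _)
        (fun b => cov_cast (fun X => by
          rw [univ_inter]
          have h1 := hc' b (X.map (Function.Embedding.subtype _))
          have h2 : X.map (Function.Embedding.subtype _) ⊆ S' := by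
            intro e he
            rw [mem_map] at he
            obtain ⟨⟨x, hx⟩, _, rfl⟩ := he
            exact hx
          rw [inter_eq_right.2 h2, card_map] at h1
          exact h1))
      refine ⟨⟨m₁ + j, hcvr _ (cvr_sub hm₁), ?_⟩, ⟨m₂ + j, hcvr _ (cvr_sub hm₂), ?_⟩⟩
      · push_cast at hle₁ ⊢
        have h1 : (2 * ((R : ℝ) * R)) ^ (2 / 3 : ℝ) ≤ (2 * ((R : ℝ) * R) + j) ^ (2 / 3 : ℝ) := by
          apply Real.rpow_le_rpow (by positivity) _ (by norm_num)
          have : (0 : ℝ) ≤ (j : ℝ) := Nat.cast_nonneg _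
          linarith
        have h2 : 0 ≤ Real.log ((R : ℝ) + 1) := Real.log_nonneg (by
          have : (0 : ℝ) ≤ (R : ℝ) := Nat.cast_nonneg _
          linarith)
        have h3 : (0 : ℝ) ≤ Real.log ((R : ℝ) + 1) ^ (1 / 3 : ℝ) := by positivity
        have h4 := mul_le_mul_of_nonneg_right h1 h3
        linarith
      · push_cast at hle₂ ⊢
        linarith
    · exact core_AB hqr hR1 hsmall (by
        rw [hcardE]
        calc k * R ≤ 2 * (R * R) * R := Nat.mul_le_mul_right R hsmall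
          _ = 2 * (R * R * R) := by ring) (by
        rw [hcardE]
        exact Nat.mul_pos hk1 hR1) hqR (fun b => cov_cast (fun X => by
          rw [univ_inter]
          exact hqk b X))
  obtain ⟨⟨m₁, hm₁, hle₁⟩, ⟨m₂, hm₂, hle₂⟩⟩ := main
  rcases le_total (1000 * (k : ℝ) ^ (2 / 3 : ℝ) * Real.log (R + 1) ^ (1 / 3 : ℝ) +
        100000000 * Real.log (R + 1) ^ 2) (100000000 * R * Real.log (R + 1) ^ 2) with h | h
  · rw [min_eq_left h]
    exact ⟨m₁, hback _ hm₁, hle₁⟩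
  · rw [min_eq_right h]
    exact ⟨m₂, hback _ hm₂, hle₂⟩

end Pool.Agent.Helper151_AB
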