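import Mathlib
import Pool.Agent.Helper151_AB.Exch

set_option autoImplicit false

/-! Partitions of a matroid into independent sets that are optimal for a weight function on pairs
of class numbers: there is no closed exchange walk of positive weight, and therefore the
antidiagonal classes are independent. -/

namespace Pool.Agent.Helper151_AB

open Finset
open Pool.Agent.H478R3.Borsuk (IsRF inter)

variable {α : Type}

/-- A closed walk with `n` steps, against the direction of `E`. -/
def Clw (E : α → α → Prop) (n : ℕ) (u : ℕ → α) : Prop :=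
  0 < n ∧ (∀ t, u (t + n) = u t) ∧ ∀ t, E (u (t + 1)) (u t)

/-- Its weight. -/
def wgt (G : α → α → ℤ) (n : ℕ) (u : ℕ → α) : ℤ := ∑ t ∈ range n, G (u (t + 1)) (u t)

theorem clw_sub {E : α → α → Prop} (G : α → α → ℤ) {n : ℕ} {u : ℕ → α} (h : Clw E n u)
    (s m : ℕ) (hE : E (u s) (u (s + m))) :
    Clw E (m + 1) (fun t => u (s + t % (m + 1))) ∧
      wgt G (m + 1) (fun t => u (s + t % (m + 1))) =
        ∑ t ∈ range m, G (u (s + t + 1)) (u (s + t)) + G (u s) (u (s + m)) := by
  obtain ⟨_, _, h3⟩ := h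
  refine ⟨⟨Nat.succ_pos m, fun t => ?_, fun t => ?_⟩, ?_⟩
  · show u (s + (t + (m + 1)) % (m + 1)) = u (s + t % (m + 1))
    rw [Nat.add_mod_right]
  · show E (u (s + (t + 1) % (m + 1))) (u (s + t % (m + 1)))
    have hlt : t % (m + 1) < m + 1 := Nat.mod_lt t (by omega)
    have e0 : (t + 1) % (m + 1) = (t % (m + 1) + 1) % (m + 1) := by
      rw [Nat.mod_add_mod]
    rw [e0]
    rcases Nat.lt_or_ge (t % (m + 1) + 1) (m + 1) with h4 | h4
    · rw [Nat.mod_eq_of_lt h4]
      exact h3 _
    · have e1 : t % (m + 1) = m := by omega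
      rw [e1, Nat.mod_self, Nat.add_zero]
      exact hE
  · unfold wgt
    rw [Finset.sum_range_succ]
    congr 1
    · apply Finset.sum_congr rfl
      intro t ht
      rw [mem_range] at ht
      show G (u (s + (t + 1) % (m + 1))) (u (s + t % (m + 1))) = _
      rw [Nat.mod_eq_of_lt (show t + 1 < m + 1 by omega),
        Nat.mod_eq_of_lt (show t < m + 1 by omega), Nat.add_assoc]
    · show G (u (s + (m + 1) % (m + 1))) (u (s + m % (m + 1))) = _
      rw [Nat.mod_self, Nat.mod_eq_of_lt (show m < m + 1 by omega), Nat.add_zero]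

theorem psum_per {G : α → α → ℤ} {n : ℕ} {u : ℕ → α} (hp : ∀ t, u (t + n) = u t) (m : ℕ) :
    ∑ t ∈ range (m + n), G (u (t + 1)) (u t) =
      ∑ t ∈ range m, G (u (t + 1)) (u t) + wgt G n u := by
  unfold wgt
  induction m with
  | zero => simp
  | succ m ih =>
    have e1 : m + 1 + n = (m + n) + 1 := by ring
    have e2 : m + n + 1 = (m + 1) + n := by ring
    rw [e1, sum_range_succ, ih, sum_range_succ, e2, hp (m + 1), hp m]
    ring

theorem sum_shift (φ : ℕ → ℤ) (s m : ℕ) :
    ∑ t ∈ range m, φ (s + t) = ∑ t ∈ range (s + m), φ t - ∑ t ∈ range s, φ t := by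
  rw [Finset.sum_range_add]
  ring

/-- A minimal closed walk of positive weight visits different vertices. -/
theorem clw_inj {E : α → α → Prop} (G : α → α → ℤ) {n : ℕ} {u : ℕ → α} (h : Clw E n u)
    (hW : 0 < wgt G n u) (hmin : ∀ n' u', Clw E n' u' → n' < n → wgt G n' u' ≤ 0)
    {s t : ℕ} (hst : s < t) (htn : t < s + n) : u s ≠ u t := by
  intro heq
  have hn := h.1
  have hp := h.2.1
  have hE := h.2.2
  set φ : ℕ → ℤ := fun t => G (u (t + 1)) (u t) with hφ
  -- first part
  obtain ⟨m, hm⟩ : ∃ m, t = s + m + 1 := ⟨t - s - 1, by omega⟩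
  have hE1 : E (u s) (u (s + m)) := by
    rw [heq, hm]
    exact hE _
  obtain ⟨c1, w1⟩ := clw_sub G h s m hE1
  have l1 := hmin _ _ c1 (by omega)
  have e1 : G (u s) (u (s + m)) = φ (s + m) := by
    rw [heq, hm]
  have e2 : ∑ t ∈ range m, G (u (s + t + 1)) (u (s + t)) = ∑ t ∈ range m, φ (s + t) := rfl
  rw [w1, e1, e2] at l1
  have e3 : ∑ t ∈ range m, φ (s + t) + φ (s + m) = ∑ t ∈ range (m + 1), φ (s + t) := by
    rw [Finset.sum_range_succ]
  rw [e3, sum_shift] at l1
  -- second part
  obtain ⟨m', hm'⟩ : ∃ m', s + n = t + m' + 1 := ⟨s + n - t - 1, by omega⟩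
  have hE2 : E (u t) (u (t + m')) := by
    rw [← heq, ← hp s, hm']
    exact hE _
  obtain ⟨c2, w2⟩ := clw_sub G h t m' hE2
  have l2 := hmin _ _ c2 (by omega)
  have f1 : G (u t) (u (t + m')) = φ (t + m') := by
    rw [← heq, ← hp s, hm']
  have f2 : ∑ t' ∈ range m', G (u (t + t' + 1)) (u (t + t')) = ∑ t' ∈ range m', φ (t + t') := rfl
  rw [w2, f1, f2] at l2
  have f3 : ∑ t' ∈ range m', φ (t + t') + φ (t + m') = ∑ t' ∈ range (m' + 1), φ (t + t') := by
    rw [Finset.sum_range_succ]
  rw [f3, sum_shift] at l2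
  have g1 := psum_per (G := G) hp s
  have g2 : t + (m' + 1) = s + n := by omega
  have g3 : s + (m + 1) = t := by omega
  rw [g2] at l2
  rw [g3] at l1
  have g4 : ∑ t ∈ range (s + n), φ t = ∑ t ∈ range s, φ t + wgt G n u := g1
  linarith

/-- A minimal closed walk of positive weight has no closed system of chords. -/
theorem no_chords {E : α → α → Prop} (G : α → α → ℤ) {n : ℕ} {u : ℕ → α} (h : Clw E n u)
    (hW : 0 < wgt G n u) (hmin : ∀ n' u', Clw E n' u' → n' < n → wgt G n' u' ≤ 0)
    (Z : Finset ℕ) (f : ℕ → ℕ) (hZ : Z ⊆ range n) (hne : Z.Nonempty) (hf : Z.image f = Z)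
    (hfix : ∀ c ∈ Z, f c ≠ c) (hch : ∀ c ∈ Z, E (u (f c + 1)) (u c))
    (hG : ∀ c ∈ Z, G (u (f c + 1)) (u c) = G (u (f c + 1)) (u (f c))) : False := by
  have hp := h.2.1
  set φ : ℕ → ℤ := fun t => G (u (t + 1)) (u t) with hφ
  set Ψ : ℕ → ℤ := fun m => ∑ t ∈ range m, φ t with hΨ
  have hper : ∀ m, Ψ (m + n) = Ψ m + wgt G n u := fun m => psum_per hp m
  have hfZ : ∀ c ∈ Z, f c ∈ Z := fun c hc => hf ▸ mem_image_of_mem f hc
  have hfn : ∀ c ∈ Z, f c < n := fun c hc => mem_range.1 (hZ (hfZ c hc))
  have hcn : ∀ c ∈ Z, c < n := fun c hc => mem_range.1 (hZ hc)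
  have step : ∀ e c, e < c → c < e + n → E (u (e + 1)) (u c) →
      G (u (e + 1)) (u c) = G (u (e + 1)) (u e) → Ψ c ≤ Ψ e := by
    intro e c hec hcn hE hGe
    obtain ⟨m, hm⟩ : ∃ m, c = e + 1 + m := ⟨c - e - 1, by omega⟩
    obtain ⟨c1, w1⟩ := clw_sub G h (e + 1) m (by rw [← hm]; exact hE)
    have l1 := hmin _ _ c1 (by omega)
    rw [w1, ← hm, hGe] at l1
    have e2 : ∑ t ∈ range m, G (u (e + 1 + t + 1)) (u (e + 1 + t)) =
        ∑ t ∈ range m, φ (e + 1 + t) := rfl
    rw [e2, sum_shift, ← hm] at l1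
    have e3 : ∑ t ∈ range (e + 1), φ t = ∑ t ∈ range e, φ t + G (u (e + 1)) (u e) := by
      rw [Finset.sum_range_succ]
    show ∑ t ∈ range c, φ t ≤ ∑ t ∈ range e, φ t
    linarith
  have key : ∀ c ∈ Z, Ψ c + (if c < f c then wgt G n u else 0) ≤ Ψ (f c) := by
    intro c hc
    have h1 := hfn c hc
    have h2 := hcn c hc
    have h3 := hfix c hc
    split_ifs with hlt
    · have := step (f c) (c + n) (by omega) (by omega) (by rw [hp]; exact hch c hc)
        (by rw [hp]; exact hG c hc)
      rw [hper] at this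
      exact this
    · have := step (f c) c (by omega) (by omega) (hch c hc) (hG c hc)
      linarith
  have hinj : Set.InjOn f Z := by
    apply card_image_iff.1
    rw [hf]
  have hsum : ∑ c ∈ Z, Ψ (f c) = ∑ c ∈ Z, Ψ c := by
    conv_rhs => rw [← hf]
    rw [sum_image hinj]
  have htot := Finset.sum_le_sum key
  rw [Finset.sum_add_distrib, hsum] at htot
  have hmin' := Z.min'_mem hne
  have hlt : Z.min' hne < f (Z.min' hne) := by
    have h1 := Z.min'_le _ (hfZ _ hmin')
    have h2 := hfix _ hmin'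
    omega
  have hpos : 0 < ∑ c ∈ Z, (if c < f c then wgt G n u else 0) := by
    apply Finset.sum_pos'
    · intro c _
      split_ifs
      · exact hW.le
      · exact le_refl _
    · exact ⟨_, hmin', by rw [if_pos hlt]; exact hW⟩
  linarith


section Opt

variable [DecidableEq α] [Fintype α]

/-- The exchange relation of a partition: `e` can replace `c` in the class of `c`. -/
def Exg {k : ℕ} (r : Finset α → ℕ) (f : α → Fin k) (e c : α) : Prop :=
  f e ≠ f c ∧ Ind r (insert e ((univ.filter (fun a => f a = f c)).erase c))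

/-- The gain of an exchange. -/
def gain {k : ℕ} (f : α → Fin k) (g : α → ℤ) (e c : α) : ℤ :=
  (((f c : ℕ) : ℤ) - ((f e : ℕ) : ℤ)) * g e

/-- The partition is optimal. -/
def Opt {k : ℕ} (r : Finset α → ℕ) (f : α → Fin k) (g : α → ℤ) : Prop :=
  (∀ i, Ind r (univ.filter (fun a => f a = i))) ∧
    ∀ f' : α → Fin k, (∀ i, Ind r (univ.filter (fun a => f' a = i))) →
      ∑ e, ((f' e : ℕ) : ℤ) * g e ≤ ∑ e, ((f e : ℕ) : ℤ) * g e

/-- No closed exchange walk has positive weight. -/
theorem opt_walk {k : ℕ} {r : Finset α → ℕ} (h : IsRF r) {f : α → Fin k} {g : α → ℤ}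
    (hopt : Opt r f g) : ∀ n u, Clw (Exg r f) n u → wgt (gain f g) n u ≤ 0 := by
  classical
  by_contra hcon
  push Not at hcon
  have hex : ∃ n, ∃ u, Clw (Exg r f) n u ∧ 0 < wgt (gain f g) n u := hcon
  obtain ⟨u, hu, hW⟩ := Nat.find_spec hex
  set n := Nat.find hex with hn
  have hmin : ∀ n' u', Clw (Exg r f) n' u' → n' < n → wgt (gain f g) n' u' ≤ 0 := by
    intro n' u' h1 h2
    by_contra h3
    exact Nat.find_min hex h2 ⟨u', h1, not_le.1 h3⟩
  have hinj : ∀ {s t : ℕ}, s < t → t < s + n → u s ≠ u t := fun h1 h2 =>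
    clw_inj (gain f g) hu hW hmin h1 h2
  have hn0 := hu.1
  have hp := hu.2.1
  have hE := hu.2.2
  set f' : α → Fin k := fun x => if hx : ∃ t, t < n ∧ u (t + 1) = x then
    f (u hx.choose) else f x with hf'
  have hval : ∀ t, t < n → f' (u (t + 1)) = f (u t) := by
    intro t ht
    have hx : ∃ t', t' < n ∧ u (t' + 1) = u (t + 1) := ⟨t, ht, rfl⟩
    simp only [hf', hx, dif_pos]
    have h1 := hx.choose_spec
    have h2 : hx.choose = t := by
      by_contra hne
      rcases Nat.lt_or_gt_of_ne hne with h3 | h3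
      · exact hinj (s := hx.choose + 1) (t := t + 1) (by omega) (by omega) h1.2
      · exact hinj (s := t + 1) (t := hx.choose + 1) (by omega) (by omega) h1.2.symm
    rw [h2]
  have hoff : ∀ x, (¬ ∃ t, t < n ∧ u (t + 1) = x) → f' x = f x := by
    intro x hx
    simp only [hf', hx, dif_neg, not_false_eq_true]
  have hcyc : ∀ t, t < n → ∃ t', t' < n ∧ u (t' + 1) = u t := by
    intro t ht
    rcases Nat.eq_zero_or_pos t with h0 | h0
    · refine ⟨n - 1, by omega, ?_⟩
      rw [h0, ← hp 0]
      congr 1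
      omega
    · refine ⟨t - 1, by omega, ?_⟩
      congr 1
      omega
  have hcyc' : ∀ t, t < n → ∃ t', t' < n ∧ u t' = u (t + 1) := by
    intro t ht
    rcases Nat.lt_or_ge (t + 1) n with h0 | h0
    · exact ⟨t + 1, h0, rfl⟩
    · refine ⟨0, hn0, ?_⟩
      rw [← hp 0]
      congr 1
      omega
  -- the new classes are independent
  have hnew : ∀ i, Ind r (univ.filter (fun a => f' a = i)) := by
    intro i
    set I := univ.filter (fun a => f a = i) with hI
    set Q := (range n).filter (fun t => f (u t) = i) with hQ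
    have hset : univ.filter (fun a => f' a = i) = (I \ Q.image u) ∪ Q.image (fun t => u (t + 1)) := by
      ext x
      simp only [mem_filter, mem_univ, true_and, mem_union, mem_sdiff, mem_image, hI, hQ, mem_range]
      constructor
      · intro hx
        by_cases hw : ∃ t, t < n ∧ u (t + 1) = x
        · obtain ⟨t, ht, rfl⟩ := hw
          rw [hval t ht] at hx
          exact Or.inr ⟨t, ⟨ht, hx⟩, rfl⟩
        · left
          rw [hoff x hw] at hx
          refine ⟨hx, ?_⟩
          rintro ⟨t, ⟨ht, _⟩, rfl⟩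
          exact hw (hcyc t ht)
      · rintro (⟨hx, hnot⟩ | ⟨t, ⟨ht, hi⟩, rfl⟩)
        · by_cases hw : ∃ t, t < n ∧ u (t + 1) = x
          · exfalso
            obtain ⟨t, ht, rfl⟩ := hw
            obtain ⟨t', ht', he⟩ := hcyc' t ht
            exact hnot ⟨t', ⟨ht', by rw [he]; exact hx⟩, he⟩
          · rw [hoff x hw]
            exact hx
        · rw [hval t ht]
          exact hi
    rw [hset]
    by_contra hdep
    obtain ⟨Z, φ, hZQ, hZne, hZf, hfix, hch⟩ := closed_of_dep h (hopt.1 i) Q
      (fun t => u (t + 1)) u (by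
        intro c hc
        rw [hQ, mem_filter] at hc
        rw [mem_filter]
        intro hh
        exact (hE c).1 (by rw [hh.2, hc.2])) (by
        intro s hs t ht hst
        rw [mem_coe, hQ, mem_filter, mem_range] at hs ht
        by_contra hne
        rcases Nat.lt_or_gt_of_ne hne with h3 | h3
        · exact hinj (s := s + 1) (t := t + 1) (by omega) (by omega) hst
        · exact hinj (s := t + 1) (t := s + 1) (by omega) (by omega) hst.symm) (by
        intro c hc
        rw [hQ, mem_filter] at hc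
        refine ⟨by rw [mem_filter]; exact ⟨mem_univ _, hc.2⟩, ?_⟩
        have := (hE c).2
        rw [hc.2] at this
        exact this) hdep
    have hZQ' : ∀ c ∈ Z, c < n ∧ f (u c) = i := by
      intro c hc
      have := hZQ hc
      rw [hQ, mem_filter, mem_range] at this
      exact this
    have hφZ : ∀ c ∈ Z, φ c ∈ Z := fun c hc => hZf ▸ mem_image_of_mem φ hc
    refine no_chords (gain f g) hu hW hmin Z φ (fun c hc => mem_range.2 (hZQ' c hc).1) hZne hZf
      hfix ?_ ?_
    · intro c hc
      refine ⟨?_, ?_⟩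
      · have h1 := (hE (φ c)).1
        rw [(hZQ' _ (hφZ c hc)).2] at h1
        rw [(hZQ' c hc).2]
        exact h1
      · rw [(hZQ' c hc).2]
        exact hch c hc
    · intro c hc
      unfold gain
      rw [(hZQ' c hc).2, (hZQ' _ (hφZ c hc)).2]
  -- the value of the new partition
  have hle := hopt.2 f' hnew
  have hsum : ∑ e, ((f' e : ℕ) : ℤ) * g e - ∑ e, ((f e : ℕ) : ℤ) * g e = wgt (gain f g) n u := by
    rw [← Finset.sum_sub_distrib]
    have hinjOn : Set.InjOn (fun t => u (t + 1)) (range n : Finset ℕ) := by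
      intro s hs t ht hst
      rw [mem_coe, mem_range] at hs ht
      by_contra hne
      rcases Nat.lt_or_gt_of_ne hne with h3 | h3
      · exact hinj (s := s + 1) (t := t + 1) (by omega) (by omega) hst
      · exact hinj (s := t + 1) (t := s + 1) (by omega) (by omega) hst.symm
    have h1 : ∑ e, (((f' e : ℕ) : ℤ) * g e - ((f e : ℕ) : ℤ) * g e) =
        ∑ e ∈ (range n).image (fun t => u (t + 1)),
          (((f' e : ℕ) : ℤ) * g e - ((f e : ℕ) : ℤ) * g e) := by
      symm
      apply Finset.sum_subset (subset_univ _)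
      intro x _ hx
      rw [hoff x (by
        rintro ⟨t, ht, rfl⟩
        exact hx (mem_image_of_mem (fun t => u (t + 1)) (mem_range.2 ht)))]
      ring
    rw [h1, Finset.sum_image hinjOn]
    unfold wgt gain
    apply Finset.sum_congr rfl
    intro t ht
    rw [hval t (mem_range.1 ht)]
    ring
  linarith

/-- The antidiagonal classes of an optimal partition are independent. -/
theorem anti_ind {k : ℕ} {r : Finset α → ℕ} (h : IsRF r) {f : α → Fin k} {g : α → ℤ}
    (hopt : Opt r f g) (c : ℤ) : Ind r (univ.filter (fun e => ((f e : ℕ) : ℤ) + g e = c)) := by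
  classical
  by_contra hdep
  obtain ⟨K, hK, hmin⟩ := Finset.exists_min_image
    ((univ.filter (fun e => ((f e : ℕ) : ℤ) + g e = c)).powerset.filter (fun T => ¬ Ind r T))
    (fun T => T.card) ⟨_, by rw [mem_filter]; exact ⟨mem_powerset_self _, hdep⟩⟩
  simp only [mem_filter, mem_powerset] at hK hmin
  obtain ⟨hKC, hKdep⟩ := hK
  have hKv : ∀ x ∈ K, ((f x : ℕ) : ℤ) + g x = c := by
    intro x hx
    exact (mem_filter.1 (hKC hx)).2
  have hKe : ∀ y ∈ K, Ind r (K.erase y) := by
    intro y hy
    by_contra hn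
    have := hmin (K.erase y) ⟨(erase_subset _ _).trans hKC, hn⟩
    have h2 := card_erase_add_one hy
    omega
  have hne : K.Nonempty := by
    rw [nonempty_iff_ne_empty]
    rintro rfl
    exact hKdep (ind_empty h)
  have key : ∀ y ∈ K, ∃ x ∈ K, Exg r f x y := by
    intro y hy
    by_contra hcon
    push Not at hcon
    set I := univ.filter (fun a => f a = f y) with hI
    have hII : Ind r I := hopt.1 (f y)
    have hyI : y ∈ I := by rw [hI, mem_filter]; exact ⟨mem_univ _, rfl⟩
    have hIe : Ind r (I.erase y) := ind_subset h hII (erase_subset _ _)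
    have e2 : r (I.erase y ∪ K.erase y) = r (I.erase y) := by
      apply cl_union h
      intro x hx
      rw [mem_erase] at hx
      by_cases hfx : f x = f y
      · rw [insert_eq_of_mem]
        rw [mem_erase, hI, mem_filter]
        exact ⟨hx.1, mem_univ _, hfx⟩
      · apply not_ind_insert h hIe
        · intro hh
          have := mem_of_mem_erase hh
          rw [hI, mem_filter] at this
          exact hfx this.2
        · intro hind
          exact hcon x hx.2 ⟨hfx, hind⟩
    have e1 : r (insert y (K.erase y)) = r (K.erase y) := by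
      apply not_ind_insert h (hKe y hy) (notMem_erase y K)
      rw [insert_erase hy]
      exact hKdep
    have e3 := cl_mono h (subset_union_right (s₁ := I.erase y) (s₂ := K.erase y)) e1
    have e4 := h.mono _ _ (insert_subset_insert y
      (subset_union_left (s₁ := I.erase y) (s₂ := K.erase y)))
    rw [insert_erase hyI] at e4
    have e5 := card_erase_add_one hyI
    unfold Ind at hII hIe
    omega
  choose! π hπK hπE using key
  obtain ⟨y0, hy0⟩ := hne
  have hit : ∀ t, π^[t] y0 ∈ K := by
    intro t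
    induction t with
    | zero => exact hy0
    | succ t ih =>
      rw [Function.iterate_succ_apply']
      exact hπK _ ih
  obtain ⟨s, t, hst, heq⟩ := Finite.exists_ne_map_eq_of_infinite (fun t : ℕ => π^[t] y0)
  wlog hlt : s < t generalizing s t with H
  · exact H t s hst.symm heq.symm (by omega)
  change π^[s] y0 = π^[t] y0 at heq
  set n := t - s with hn
  set u : ℕ → α := fun m => π^[s + m] y0 with hu
  have huK : ∀ m, u m ∈ K := fun m => hit _
  have hclw : Clw (Exg r f) n u := by
    refine ⟨by omega, fun m => ?_, fun m => ?_⟩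
    · show π^[s + (m + n)] y0 = π^[s + m] y0
      have e1 : s + (m + n) = m + t := by omega
      have e2 : s + m = m + s := by omega
      rw [e1, e2, Function.iterate_add_apply, Function.iterate_add_apply, heq]
    · show Exg r f (π^[s + (m + 1)] y0) (π^[s + m] y0)
      rw [← Nat.add_assoc, Function.iterate_succ_apply']
      exact hπE _ (huK m)
  have hle := opt_walk h hopt n u hclw
  have hper := hclw.2.1
  set F : ℕ → ℤ := fun m => ((f (u m) : ℕ) : ℤ) with hF
  have hg : ∀ m, g (u m) = c - F m := by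
    intro m
    have := hKv _ (huK m)
    show g (u m) = c - ((f (u m) : ℕ) : ℤ)
    linarith
  have hw : 2 * wgt (gain f g) n u = ∑ m ∈ range n, (F m - F (m + 1)) ^ 2 := by
    have e1 : ∑ m ∈ range n, (F (m + 1) ^ 2 - F m ^ 2) = F n ^ 2 - F 0 ^ 2 :=
      Finset.sum_range_sub (fun m => F m ^ 2) n
    have e2 : ∑ m ∈ range n, (F (m + 1) - F m) = F n - F 0 :=
      Finset.sum_range_sub F n
    have e3 : F n = F 0 := by
      have := hper 0
      rw [Nat.zero_add] at this
      show ((f (u n) : ℕ) : ℤ) = ((f (u 0) : ℕ) : ℤ)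
      rw [this]
    have e4 : 2 * wgt (gain f g) n u = ∑ m ∈ range n, (F m - F (m + 1)) ^ 2 +
        ∑ m ∈ range n, (F (m + 1) ^ 2 - F m ^ 2) - 2 * c * ∑ m ∈ range n, (F (m + 1) - F m) := by
      unfold wgt gain
      rw [Finset.mul_sum, Finset.mul_sum, ← Finset.sum_add_distrib, ← Finset.sum_sub_distrib]
      apply Finset.sum_congr rfl
      intro m _
      rw [hg (m + 1)]
      show 2 * ((F m - F (m + 1)) * (c - F (m + 1))) = _
      ring
    rw [e4, e1, e2, e3]
    ring
  have hpos : 0 < ∑ m ∈ range n, (F m - F (m + 1)) ^ 2 := by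
    apply Finset.sum_pos
    · intro m _
      have h1 := (hclw.2.2 m).1
      have h2 : F m - F (m + 1) ≠ 0 := by
        intro h3
        apply h1
        apply Fin.ext
        have h4 : ((f (u m) : ℕ) : ℤ) - ((f (u (m + 1)) : ℕ) : ℤ) = 0 := h3
        omega
      positivity
    · rw [nonempty_range_iff]
      omega
  linarith

/-- Two matroids, the first `k`-coverable and the second `l`-coverable, have a partition into
`k + l - 1` common independent sets. -/
theorem two_part {r1 r2 : Finset α → ℕ} (h1 : IsRF r1) (h2 : IsRF r2) {k l : ℕ}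
    (hk : ∀ X : Finset α, X.card ≤ k * r1 X) (hl : ∀ X : Finset α, X.card ≤ l * r2 X) :
    ∃ c : α → ℕ, (∀ e, c e < k + l - 1) ∧ ∀ j, Ind r1 (univ.filter (fun e => c e = j)) ∧
      Ind r2 (univ.filter (fun e => c e = j)) := by
  classical
  obtain ⟨f0, hf0⟩ := partition_thm h1 k hk
  obtain ⟨g0, hg0⟩ := partition_thm h2 l hl
  obtain ⟨⟨f, g⟩, hfg, hmax⟩ := Finset.exists_max_image
    ((univ : Finset ((α → Fin k) × (α → Fin l))).filter (fun p =>
      (∀ i, Ind r1 (univ.filter (fun a => p.1 a = i))) ∧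
        ∀ i, Ind r2 (univ.filter (fun a => p.2 a = i))))
    (fun p => ∑ e, ((p.1 e : ℕ) : ℤ) * ((p.2 e : ℕ) : ℤ))
    ⟨(f0, g0), by rw [mem_filter]; exact ⟨mem_univ _, hf0, hg0⟩⟩
  simp only [mem_filter, mem_univ, true_and, Prod.forall, and_imp] at hfg hmax
  have o1 : Opt r1 f (fun e => ((g e : ℕ) : ℤ)) := ⟨hfg.1, fun f' hf' => hmax f' g hf' hfg.2⟩
  have o2 : Opt r2 g (fun e => ((f e : ℕ) : ℤ)) := by
    refine ⟨hfg.2, fun g' hg' => ?_⟩
    have := hmax f g' hfg.1 hg'
    have e1 : ∀ q : α → Fin l, ∑ e, ((q e : ℕ) : ℤ) * ((f e : ℕ) : ℤ) =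
        ∑ e, ((f e : ℕ) : ℤ) * ((q e : ℕ) : ℤ) := fun q =>
      Finset.sum_congr rfl (fun e _ => mul_comm _ _)
    rw [e1, e1]
    exact this
  refine ⟨fun e => (f e : ℕ) + (g e : ℕ), fun e => ?_, fun j => ⟨?_, ?_⟩⟩
  · have h3 := (f e).2
    have h4 := (g e).2
    show (f e : ℕ) + (g e : ℕ) < k + l - 1
    omega
  · have h3 := anti_ind h1 o1 (j : ℤ)
    have h4 : univ.filter (fun e => ((f e : ℕ) : ℤ) + ((g e : ℕ) : ℤ) = (j : ℤ)) =
        univ.filter (fun e => (f e : ℕ) + (g e : ℕ) = j) := by
      ext e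
      simp only [mem_filter, mem_univ, true_and]
      omega
    rw [h4] at h3
    exact h3
  · have h3 := anti_ind h2 o2 (j : ℤ)
    have h4 : univ.filter (fun e => ((g e : ℕ) : ℤ) + ((f e : ℕ) : ℤ) = (j : ℤ)) =
        univ.filter (fun e => (f e : ℕ) + (g e : ℕ) = j) := by
      ext e
      simp only [mem_filter, mem_univ, true_and]
      omega
    rw [h4] at h3
    exact h3

end Opt

end Pool.Agent.Helper151_AB
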