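import Mathlib
import Pool.Agent.Helper151_AB.Combine
import Pool.Agent.Helper151_AB.Opt

set_option autoImplicit false

/-! The bounds for large `k`, with the sum bound for the last part. -/

namespace Pool.Agent.Helper151_AB

open Finset
open Pool.Agent.H478R3.Borsuk (IsRF inter)

variable {α : Type} [DecidableEq α]

theorem two_cov [Fintype α] {r : Bool → Finset α → ℕ} (hr : ∀ b, IsRF (r b)) {a : ℝ}
    (ha : 0 ≤ a) (S : Finset α) (hS : ∀ b, Cov (r b) a S) :
    ∃ m : ℕ, Cvr r m S ∧ (m : ℝ) ≤ 2 * a + 1 := by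
  classical
  set k := ⌈a⌉₊ with hk
  have hk1 : a ≤ k := Nat.le_ceil a
  have hk2 : (k : ℝ) < a + 1 := Nat.ceil_lt_add_one ha
  have hc : ∀ b (X : Finset {x // x ∈ S}), X.card ≤ k * sr (r b) S X := by
    intro b X
    have h1 := hS b (X.map (Function.Embedding.subtype _))
    have h2 : X.map (Function.Embedding.subtype _) ⊆ S := by
      intro e he
      rw [mem_map] at he
      obtain ⟨⟨x, hx⟩, _, rfl⟩ := he
      exact hx
    rw [inter_eq_right.2 h2, card_map] at h1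
    have h3 : (X.card : ℝ) ≤ k * (r b (X.map (Function.Embedding.subtype _)) : ℝ) :=
      h1.trans (mul_le_mul_of_nonneg_right hk1 (Nat.cast_nonneg _))
    exact_mod_cast h3
  obtain ⟨c, hc1, hc2⟩ := two_part (sr_isRF (hr true) S) (sr_isRF (hr false) S) (hc true)
    (hc false)
  refine ⟨k + k - 1, cvr_sub ⟨c, fun e _ => hc1 e, fun j b => ?_⟩, ?_⟩
  · cases b
    · exact (hc2 j).2
    · exact (hc2 j).1
  · rcases Nat.eq_zero_or_pos k with h | h
    · rw [h]
      norm_num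
      linarith
    · have : ((k + k - 1 : ℕ) : ℝ) = k + k - 1 := by
        rw [Nat.cast_sub (by omega)]
        push_cast
        ring
      rw [this]
      linarith

theorem asym_aux2 [Fintype α] {r : Bool → Finset α → ℕ} (hr : ∀ b, IsRF (r b)) {c Λ D h : ℝ}
    (hc0 : 0 ≤ c) (hc : c ^ 3 = Λ) (hΛ : 1 ≤ Λ)
    (hΛn : 7744 * Real.log (12 * (Fintype.card α : ℝ) ^ 2) < Λ)
    (hD : D = 64 * Λ + 1) (hh0 : 0 ≤ h) (hh : h ^ 3 = 1 / 2) (j : ℕ) :
    ∀ (b : ℝ) (S : Finset α), 0 ≤ b → b ^ 3 ≤ 64 * Λ * 2 ^ j → (∀ i, Cov (r i) (b ^ 3) S) →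
    ∃ m : ℕ, Cvr r m S ∧ (m : ℝ) ≤ b ^ 3 + 15 * c * b ^ 2 + D := by
  have hbase : ∀ (b : ℝ) (S : Finset α), 0 ≤ b → b ^ 3 ≤ 64 * Λ → (∀ i, Cov (r i) (b ^ 3) S) →
      ∃ m : ℕ, Cvr r m S ∧ (m : ℝ) ≤ b ^ 3 + 15 * c * b ^ 2 + D := by
    intro b S hb hle hS
    obtain ⟨m, hm, hmle⟩ := two_cov hr (by positivity) S hS
    refine ⟨m, hm, ?_⟩
    have h3 : 0 ≤ 15 * c * b ^ 2 := by positivity
    rw [hD]
    linarith
  induction j with
  | zero =>
    intro b S hb hle hS
    rw [pow_zero, mul_one] at hle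
    exact hbase b S hb hle hS
  | succ j ih =>
    intro b S hb hle hS
    rcases le_or_gt (b ^ 3) (64 * Λ) with hsmall | hlarge
    · exact hbase b S hb hsmall hS
    rcases lt_or_ge (Fintype.card α : ℝ) (b ^ 3) with hbig | han
    · refine ⟨Fintype.card α, cvr_card hr hS, ?_⟩
      have h3 : 0 ≤ 15 * c * b ^ 2 := by positivity
      have h4 : 0 ≤ D := by
        rw [hD]
        linarith
      linarith
    have hb1 : 1 ≤ b := by
      by_contra hlt
      push Not at hlt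
      have : b ^ 3 ≤ 1 := pow_le_one₀ hb hlt.le
      linarith
    have hc1 : 1 ≤ c := by
      by_contra hlt
      push Not at hlt
      have : c ^ 3 < 1 := pow_lt_one₀ hc0 hlt (by norm_num)
      linarith
    have hb0 : 0 < b := by linarith
    have hc4 : 4 * c ≤ b := by
      by_contra hlt
      push Not at hlt
      have : b ^ 3 < (4 * c) ^ 3 := pow_lt_pow_left₀ hlt hb (by norm_num)
      rw [mul_pow, hc] at this
      norm_num at this
      linarith
    have hε0 : 0 < c / b := by positivity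
    have hε1 : c / b ≤ 1 / 4 := by
      rw [div_le_iff₀ hb0]
      linarith
    obtain ⟨S', hS', hcov, T, hT, hcvr⟩ := phase hr hε0 hε1 (by linarith) han S hS (by
      have : (c / b) ^ 3 * b ^ 3 = Λ := by
        rw [← hc]
        field_simp
      rw [this]
      exact hΛn)
    have hhle : h ≤ 4 / 5 := by
      by_contra hlt
      push Not at hlt
      have : ((4 : ℝ) / 5) ^ 3 < h ^ 3 := pow_lt_pow_left₀ hlt (by norm_num) (by norm_num)
      rw [hh] at this
      norm_num at this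
    have hbh : (b * h) ^ 3 = b ^ 3 / 2 := by
      rw [mul_pow, hh]
      ring
    obtain ⟨m, hm, hmle⟩ := ih (b * h) S' (by positivity) (by
      rw [hbh]
      have h2j : (2 : ℝ) ^ (j + 1) = 2 ^ j * 2 := pow_succ _ _
      rw [h2j] at hle
      linarith) (by rw [hbh]; exact hcov)
    refine ⟨m + T, hcvr m hm, ?_⟩
    push_cast
    rw [hbh] at hmle
    have e1 : 4 * (c / b) * b ^ 3 = 4 * c * b ^ 2 := by
      field_simp
    rw [e1] at hT
    have e2 : (b * h) ^ 2 ≤ 2 / 3 * b ^ 2 := by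
      rw [mul_pow]
      have : h ^ 2 ≤ 2 / 3 := by nlinarith
      nlinarith [sq_nonneg b]
    have e3 : 15 * c * (b * h) ^ 2 ≤ 10 * c * b ^ 2 := by
      have := mul_le_mul_of_nonneg_left e2 (by positivity : 0 ≤ 15 * c)
      linarith
    have e4 : 1 ≤ c * b ^ 2 := by
      have : 1 ≤ b ^ 2 := one_le_pow₀ hb1
      nlinarith
    linarith

theorem asym_real2 [Fintype α] {r : Bool → Finset α → ℕ} (hr : ∀ b, IsRF (r b)) {k : ℝ}
    (hk0 : 0 ≤ k) (S : Finset α) (hn1 : 1 ≤ Fintype.card α) (hk : ∀ b, Cov (r b) k S) :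
    ∃ m : ℕ, Cvr r m S ∧ (m : ℝ) ≤ k +
      600 * Real.log (Fintype.card α + 1) ^ (1 / 3 : ℝ) * k ^ (2 / 3 : ℝ) +
      3300000 * Real.log (Fintype.card α + 1) := by
  have hn1' : (1 : ℝ) ≤ (Fintype.card α : ℝ) := by
    exact_mod_cast hn1
  set n : ℝ := (Fintype.card α : ℝ) with hn
  set ℓ := Real.log (n + 1) with hℓ
  have hℓ2 : Real.log 2 ≤ ℓ := Real.log_le_log (by norm_num) (by linarith)
  have hlog2 : 0.69 < Real.log 2 := by
    have := Real.log_two_gt_d9
    linarith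
  have hℓ0 : 0 < ℓ := by linarith
  set Λ := 50000 * ℓ with hΛ
  have hΛ0 : 0 < Λ := by positivity
  set c := Λ ^ (1 / 3 : ℝ) with hc
  have hc0 : 0 ≤ c := by positivity
  have hc3 : c ^ 3 = Λ := by
    rw [hc, ← Real.rpow_natCast, ← Real.rpow_mul hΛ0.le]
    norm_num
  have hΛn : 7744 * Real.log (12 * n ^ 2) < Λ := by
    have h1 : Real.log (12 * n ^ 2) ≤ 6 * ℓ := by
      have h2 : Real.log (12 * n ^ 2) ≤ Real.log (2 ^ 4 * (n + 1) ^ 2) := by
        apply Real.log_le_log (by positivity)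
        nlinarith
      have h3 : Real.log (2 ^ 4 * (n + 1) ^ 2) = 4 * Real.log 2 + 2 * ℓ := by
        rw [Real.log_mul (by norm_num) (by positivity), Real.log_pow, Real.log_pow]
        push_cast
        ring
      rw [h3] at h2
      linarith
    rw [hΛ]
    linarith
  obtain ⟨j, hj⟩ : ∃ j : ℕ, k < 2 ^ j := pow_unbounded_of_one_lt _ (by norm_num)
  set b := k ^ (1 / 3 : ℝ) with hb
  have hb0 : 0 ≤ b := by positivity
  have hb3 : b ^ 3 = k := by
    rw [hb, ← Real.rpow_natCast, ← Real.rpow_mul hk0]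
    norm_num
  have hb2 : b ^ 2 = k ^ (2 / 3 : ℝ) := by
    rw [hb, ← Real.rpow_natCast, ← Real.rpow_mul hk0]
    norm_num
  have hh0 : (0 : ℝ) ≤ (1 / 2 : ℝ) ^ (1 / 3 : ℝ) := by positivity
  have hh : ((1 / 2 : ℝ) ^ (1 / 3 : ℝ)) ^ 3 = 1 / 2 := by
    rw [← Real.rpow_natCast, ← Real.rpow_mul (by norm_num)]
    norm_num
  obtain ⟨m, hm, hmle⟩ := asym_aux2 hr hc0 hc3 (by linarith) hΛn rfl hh0 hh j b S hb0
    (by
      rw [hb3]
      have : (1 : ℝ) * 2 ^ j ≤ 64 * Λ * 2 ^ j := by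
        apply mul_le_mul_of_nonneg_right _ (by positivity)
        linarith
      linarith)
    (by
      intro i
      rw [hb3]
      exact hk i)
  refine ⟨m, hm, hmle.trans ?_⟩
  rw [hb3, hb2]
  have h1 : c ≤ 40 * ℓ ^ (1 / 3 : ℝ) := by
    have h2 : (40 * ℓ ^ (1 / 3 : ℝ)) ^ 3 = 64000 * ℓ := by
      rw [mul_pow, ← Real.rpow_natCast (ℓ ^ (1 / 3 : ℝ)), ← Real.rpow_mul hℓ0.le]
      norm_num
    by_contra hlt
    push Not at hlt
    have h3 : (40 * ℓ ^ (1 / 3 : ℝ)) ^ 3 < c ^ 3 := pow_lt_pow_left₀ hlt (by positivity)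
      (by norm_num)
    rw [h2, hc3] at h3
    linarith
  have h2 : 15 * c * k ^ (2 / 3 : ℝ) ≤ 600 * ℓ ^ (1 / 3 : ℝ) * k ^ (2 / 3 : ℝ) := by
    apply mul_le_mul_of_nonneg_right _ (by positivity)
    linarith
  have h5 : 64 * Λ + 1 ≤ 3300000 * ℓ := by
    rw [hΛ]
    linarith
  linarith

theorem core2 [Fintype α] {r : Bool → Finset α → ℕ} (hr : ∀ b, IsRF (r b)) {k R : ℕ}
    (hR1 : 1 ≤ R) (hk1 : 1 ≤ k) (hkR : k ≤ 2 * (R * R)) (hn : Fintype.card α ≤ 2 * (R * R * R))
    (hn1 : 1 ≤ Fintype.card α) (hR : ∀ b X, r b X ≤ R) (hk : ∀ b, Cov (r b) k univ) :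
    (∃ m : ℕ, Cvr r m univ ∧ (m : ℝ) ≤ k +
      1100 * (k : ℝ) ^ (2 / 3 : ℝ) * Real.log (R + 1) ^ (1 / 3 : ℝ)) ∧
    (∃ m : ℕ, Cvr r m univ ∧ (m : ℝ) ≤ k + 500 * R * Real.log (R + 1) ^ 2) := by
  have hR1' : (1 : ℝ) ≤ R := by exact_mod_cast hR1
  have hk1' : (1 : ℝ) ≤ k := by exact_mod_cast hk1
  have hn1' : (1 : ℝ) ≤ (Fintype.card α : ℝ) := by exact_mod_cast hn1
  have hlog := log_bound hn hR1
  have hn' : (Fintype.card α : ℝ) ≤ 2 * (R * R * R) := by exact_mod_cast hn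
  have hkR' : (k : ℝ) ≤ 2 * (R * R) := by exact_mod_cast hkR
  have hR' : ∀ b X, (r b X : ℝ) ≤ (R : ℝ) := fun b X => by exact_mod_cast hR b X
  have hk00 : (0 : ℝ) ≤ (k : ℝ) := Nat.cast_nonneg _
  set n : ℝ := (Fintype.card α : ℝ) with hndef
  set L := Real.log ((R : ℝ) + 1) with hL
  have hlog2 : 0.69 < Real.log 2 := by
    have := Real.log_two_gt_d9
    linarith
  have hL2 : Real.log 2 ≤ L := Real.log_le_log (by norm_num) (by linarith)
  have hL0 : 0 < L := by linarith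
  set ℓ := Real.log (n + 1) with hℓ
  have hℓ0 : 0 ≤ ℓ := Real.log_nonneg (by linarith)
  constructor
  · set x := (k : ℝ) ^ (1 / 3 : ℝ) with hx
    set y := L ^ (1 / 3 : ℝ) with hy
    have hx0 : 0 ≤ x := by positivity
    have hy0 : 0 ≤ y := by positivity
    have hx3 : x ^ 3 = k := by
      rw [hx, ← Real.rpow_natCast, ← Real.rpow_mul hk00]
      norm_num
    have hx2 : (k : ℝ) ^ (2 / 3 : ℝ) = x ^ 2 := by
      rw [hx, ← Real.rpow_natCast, ← Real.rpow_mul hk00]
      norm_num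
    have hy3 : y ^ 3 = L := by
      rw [hy, ← Real.rpow_natCast, ← Real.rpow_mul hL0.le]
      norm_num
    rw [hx2]
    rcases le_or_gt (464 * y) x with hcase | hcase
    · obtain ⟨m, hm, hle⟩ := asym_real2 hr hk00 univ hn1 hk
      refine ⟨m, hm, hle.trans ?_⟩
      rw [← hndef, ← hℓ, hx2]
      have h4 : (4 * L) ^ (1 / 3 : ℝ) ≤ 5 / 3 * y := by
        rw [Real.mul_rpow (by norm_num) hL0.le]
        apply mul_le_mul_of_nonneg_right _ (by positivity)
        have h5 : (4 : ℝ) ^ (1 / 3 : ℝ) ≤ ((5 / 3 : ℝ) ^ (3 : ℝ)) ^ (1 / 3 : ℝ) := by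
          apply Real.rpow_le_rpow (by norm_num) _ (by norm_num)
          norm_num
        rw [← Real.rpow_mul (by norm_num)] at h5
        norm_num at h5
        norm_num
        exact h5
      have h5 : ℓ ^ (1 / 3 : ℝ) ≤ 5 / 3 * y :=
        (Real.rpow_le_rpow hℓ0 hlog (by norm_num)).trans h4
      have h6 : 600 * ℓ ^ (1 / 3 : ℝ) * x ^ 2 ≤ 1000 * x ^ 2 * y := by
        have := mul_le_mul_of_nonneg_right h5 (by positivity : 0 ≤ 600 * x ^ 2)
        linarith
      have h7 : 3300000 * ℓ ≤ 13200000 * L := by linarith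
      have h8 : 13200000 * L ≤ 100 * (x ^ 2 * y) := by
        rw [← hy3]
        have h9 : (464 * y) ^ 2 ≤ x ^ 2 := pow_le_pow_left₀ (by positivity) hcase 2
        have h10 : (464 * y) ^ 2 * y ≤ x ^ 2 * y := mul_le_mul_of_nonneg_right h9 hy0
        have h11 : 0 ≤ y ^ 3 := by positivity
        have h12 : (464 * y) ^ 2 * y = 215296 * y ^ 3 := by ring
        linarith
      linarith
    · obtain ⟨m, hm, hle⟩ := two_cov hr hk00 univ hk
      refine ⟨m, hm, hle.trans ?_⟩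
      have h1 : (k : ℝ) ≤ 464 * (x ^ 2 * y) := by
        rw [← hx3]
        have : x ^ 2 * x ≤ x ^ 2 * (464 * y) := mul_le_mul_of_nonneg_left hcase.le (by positivity)
        calc x ^ 3 = x ^ 2 * x := by ring
          _ ≤ x ^ 2 * (464 * y) := this
          _ = 464 * (x ^ 2 * y) := by ring
      have h2 : 0 ≤ x ^ 2 * y := by positivity
      linarith
  · set e : ℝ := 40 * (R * L) with he
    have hRL : 0.69 ≤ R * L := by nlinarith
    have he6 : 6 ≤ e := by
      rw [he]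
      linarith
    have hnexp : 4 * n * Real.exp (-(1 / (4 * (R : ℝ)) * e)) < 1 := by
      have e1 : -(1 / (4 * (R : ℝ)) * e) = -Real.log (((R : ℝ) + 1) ^ 10) := by
        rw [Real.log_pow, he]
        field_simp
        rw [hL]
        norm_num
      rw [e1, Real.exp_neg, Real.exp_log (by positivity), ← div_eq_mul_inv,
        div_lt_one (by positivity)]
      have e2 : (R : ℝ) + 1 ≥ 2 := by linarith
      have e3 : ((R : ℝ) + 1) ^ 10 = ((R : ℝ) + 1) ^ 3 * ((R : ℝ) + 1) ^ 7 := by ring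
      have e4 : (2 : ℝ) ^ 7 ≤ ((R : ℝ) + 1) ^ 7 := pow_le_pow_left₀ (by norm_num) e2 7
      have e5 : (R : ℝ) ^ 3 ≤ ((R : ℝ) + 1) ^ 3 := pow_le_pow_left₀ (by linarith) (by linarith) 3
      have e6 : (R : ℝ) ^ 3 * 2 ^ 7 ≤ ((R : ℝ) + 1) ^ 3 * ((R : ℝ) + 1) ^ 7 :=
        mul_le_mul e5 e4 (by norm_num) (by positivity)
      have e7 : (1 : ℝ) ≤ (R : ℝ) ^ 3 := one_le_pow₀ hR1'
      rw [e3]
      nlinarith
    have hbase : ∀ (k' : ℝ) (S : Finset α), 0 ≤ k' → k' ≤ 4 * e → (∀ b, Cov (r b) k' S) →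
        ∃ m : ℕ, Cvr r m S ∧ (m : ℝ) ≤ k' + (4 * e + 1) := by
      intro k' S hk' hke hS
      obtain ⟨m, hm, hle⟩ := two_cov hr hk' S hS
      exact ⟨m, hm, hle.trans (by linarith)⟩
    obtain ⟨j, hj⟩ : ∃ j, j = ⌈4 * L⌉₊ := ⟨_, rfl⟩
    have hj1 : 4 * L ≤ j := by
      rw [hj]
      exact Nat.le_ceil _
    have hj2 : (j : ℝ) ≤ 4 * L + 1 := by
      rw [hj]
      exact (Nat.ceil_lt_add_one (by positivity)).le
    have hpow : (R : ℝ) + 1 ≤ (4 / 3) ^ j := by
      have h5 : (1 : ℝ) / 4 ≤ Real.log (4 / 3) := by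
        have := Real.one_sub_inv_le_log_of_pos (show (0 : ℝ) < 4 / 3 by norm_num)
        norm_num at this ⊢
        linarith
      have h6 : L ≤ Real.log ((4 / 3) ^ j) := by
        rw [Real.log_pow]
        nlinarith
      rw [hL] at h6
      exact (Real.log_le_log_iff (by positivity) (by positivity)).1 h6
    have hk4 : (k : ℝ) ≤ 4 * e * (4 / 3) ^ j := by
      have h5 : 4 * e * ((R : ℝ) + 1) ≤ 4 * e * (4 / 3) ^ j :=
        mul_le_mul_of_nonneg_left hpow (by positivity)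
      refine le_trans ?_ h5
      rw [he]
      nlinarith
    obtain ⟨m, hm, hle⟩ := plain_iter hr hR1' hR' he6 hnexp hbase j (k : ℝ) univ hk00 hk4 hk
    refine ⟨m, hm, hle.trans ?_⟩
    have h5 : (j : ℝ) * e ≤ (4 * L + 1) * e := mul_le_mul_of_nonneg_right hj2 (by positivity)
    have h7 : 1 ≤ 1.45 * L := by linarith
    have h8 : (4 * L + 5) * e ≤ (11.25 * L) * e := by
      apply mul_le_mul_of_nonneg_right _ (by positivity)
      linarith
    have h9 : (11.25 * L) * e = 450 * (R * L ^ 2) := by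
      rw [he]
      ring
    have h10 : 0.69 * 0.69 ≤ R * L ^ 2 := by
      have h11 : (0.69 : ℝ) ≤ L := by linarith
      have h12 : R * L ^ 2 = (R * L) * L := by ring
      rw [h12]
      exact mul_le_mul hRL h11 (by norm_num) (by linarith)
    linarith

theorem combined2 [Fintype α] {r : Bool → Finset α → ℕ} (hr : ∀ b, IsRF (r b)) {k R : ℕ}
    (hn : Fintype.card α ≤ k * R) (hk : ∀ b (X : Finset α), X.card ≤ k * r b X) :
    (∃ m : ℕ, Cvr r m univ ∧ (m : ℝ) ≤ k +
      1100 * (k : ℝ) ^ (2 / 3 : ℝ) * Real.log (R + 1) ^ (1 / 3 : ℝ)) ∧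
    (∃ m : ℕ, Cvr r m univ ∧ (m : ℝ) ≤ k + 500 * R * Real.log (R + 1) ^ 2) := by
  classical
  have hlogR : (0 : ℝ) ≤ Real.log ((R : ℝ) + 1) := Real.log_nonneg (by
    have : (0 : ℝ) ≤ (R : ℝ) := Nat.cast_nonneg _
    linarith)
  rcases Nat.eq_zero_or_pos (Fintype.card α) with hn0 | hn1
  · have := Fintype.card_eq_zero_iff.1 hn0
    have h0 : Cvr r 0 univ := by
      have : (univ : Finset α) = ∅ := univ_eq_empty
      rw [this]
      exact cvr_empty hr
    refine ⟨⟨0, h0, ?_⟩, ⟨0, h0, ?_⟩⟩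
    · rw [Nat.cast_zero]
      positivity
    · rw [Nat.cast_zero]
      positivity
  have hk1 : 1 ≤ k := by
    rcases Nat.eq_zero_or_pos k with h | h
    · rw [h] at hn
      omega
    · exact h
  have hR1 : 1 ≤ R := by
    rcases Nat.eq_zero_or_pos R with h | h
    · rw [h] at hn
      omega
    · exact h
  obtain ⟨d, hd⟩ : ∃ d, Fintype.card α + d = k * R := ⟨k * R - Fintype.card α, by omega⟩
  have hcardE : Fintype.card (α ⊕ Fin d) = k * R := by
    rw [Fintype.card_sum, Fintype.card_fin, hd]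
  have hle : ∀ X : Finset (α ⊕ Fin d), X.card ≤ k * R := by
    intro X
    rw [← hcardE]
    exact card_le_univ X
  set q : Bool → Finset (α ⊕ Fin d) → ℕ := fun b => ext R (r b) with hq
  have hqr : ∀ b, IsRF (q b) := fun b => ext_isRF (β := Fin d) R (hr b)
  have hqR : ∀ b X, q b X ≤ R := fun b X => min_le_left _ _
  have hqk : ∀ b (X : Finset (α ⊕ Fin d)), X.card ≤ k * q b X := fun b X =>
    ext_cover (hk b) X (hle X)
  -- back to the original ground set
  have hback : ∀ m, Cvr q m univ → Cvr r m univ := by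
    rintro m ⟨f, hf1, hf2⟩
    refine ⟨fun a => f (Sum.inl a), fun e _ => hf1 _ (mem_univ _), fun j b => ?_⟩
    have h1 : univ.filter (fun a => f (Sum.inl a) = j) =
        (univ.filter (fun x => f x = j)).toLeft := by
      ext a
      simp
    rw [h1]
    exact ind_of_ext (hr b) (hf2 j b)
  have main : (∃ m : ℕ, Cvr q m univ ∧ (m : ℝ) ≤ k +
      1100 * (k : ℝ) ^ (2 / 3 : ℝ) * Real.log (R + 1) ^ (1 / 3 : ℝ)) ∧
      (∃ m : ℕ, Cvr q m univ ∧ (m : ℝ) ≤ k + 500 * R * Real.log (R + 1) ^ 2) := by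
    rcases Nat.lt_or_ge (2 * (R * R)) k with hbig | hsmall
    · obtain ⟨j, rfl⟩ : ∃ j, k = 2 * (R * R) + j := ⟨k - 2 * (R * R), by omega⟩
      have hRR : 1 ≤ R * R := Nat.mul_pos hR1 hR1
      obtain ⟨S', hS', hcard, hc', hcvr⟩ := peel_iter hqr (k := 2 * (R * R)) (by omega) (by omega)
        hqR j univ (by rw [card_univ, hcardE]) (fun b X => by
          rw [univ_inter]
          exact hqk b X)
      have hcS : Fintype.card {x // x ∈ S'} = 2 * (R * R) * R := by
        rw [Fintype.card_coe, hcard]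
      have hRRR : 1 ≤ 2 * (R * R) * R := by
        have := Nat.mul_pos hRR hR1
        rw [Nat.mul_assoc]
        omega
      obtain ⟨⟨m₁, hm₁, hle₁⟩, ⟨m₂, hm₂, hle₂⟩⟩ := core2
        (r := fun b => sr (q b) S') (fun b => sr_isRF (hqr b) S') hR1
        (show 1 ≤ 2 * (R * R) by omega) (le_refl _)
        (by rw [hcS, Nat.mul_assoc]) (by omega) (fun b X => hqR b _)
        (fun b => cov_cast (fun X => by
          rw [univ_inter]
          have h1 := hc' b (X.map (Function.Embedding.subtype _))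
          have h2 : X.map (Function.Embedding.subtype _) ⊆ S' := by
            intro e he
            rw [mem_map] at he
            obtain ⟨⟨x, hx⟩, _, rfl⟩ := he
            exact hx
          rw [inter_eq_right.2 h2, card_map] at h1
          exact h1))
      refine ⟨⟨m₁ + j, hcvr _ (cvr_sub hm₁), ?_⟩, ⟨m₂ + j, hcvr _ (cvr_sub hm₂), ?_⟩⟩
      · push_cast at hle₁ ⊢
        have h1 : (2 * ((R : ℝ) * R)) ^ (2 / 3 : ℝ) ≤ (2 * ((R : ℝ) * R) + j) ^ (2 / 3 : ℝ) := by
          apply Real.rpow_le_rpow (by positivity) _ (by norm_num)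
          have : (0 : ℝ) ≤ (j : ℝ) := Nat.cast_nonneg _
          linarith
        have h3 : (0 : ℝ) ≤ Real.log ((R : ℝ) + 1) ^ (1 / 3 : ℝ) := by positivity
        have h4 := mul_le_mul_of_nonneg_right h1 h3
        linarith
      · push_cast at hle₂ ⊢
        linarith
    · exact core2 hqr hR1 hk1 hsmall (by
        rw [hcardE]
        calc k * R ≤ 2 * (R * R) * R := Nat.mul_le_mul_right R hsmall
          _ = 2 * (R * R * R) := by ring) (by
        rw [hcardE]
        exact Nat.mul_pos hk1 hR1) hqR (fun b => cov_cast (fun X => by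
          rw [univ_inter]
          exact hqk b X))
  obtain ⟨⟨m₁, hm₁, hle₁⟩, ⟨m₂, hm₂, hle₂⟩⟩ := main
  exact ⟨⟨m₁, hback _ hm₁, hle₁⟩, ⟨m₂, hback _ hm₂, hle₂⟩⟩

end Pool.Agent.Helper151_AB
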